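import Pool.Agent.TH826.DC.Ring
set_option autoImplicit false

/-!
Definitions: Steinberg Laurent polynomials, the varieties `P(y) = λ ∏_e L_e(x)`, and the symbols
`{y_0, γ_1 L_{S 1}/(γ_0 L_{S 0}), ..., γ_(d+1) L_{S (d+1)}/(γ_0 L_{S 0}), y_1, ..., y_q}`.
-/

namespace Pool.Agent.Helper39.SB

open Pool.Agent.TH826.GA (lf gam ku)

open Pool.Agent.TH826.DC (dPhi)

/-- The rational vector given by an integral vector. -/
def qv {n : ℕ} (w : Fin n → ℤ) : Fin n → ℚ := fun i => w i

/-- `ε` is a root of unity. -/
def RootU {K : Type*} [Field K] (ε : K) : Prop := ∃ N : ℕ, N ≠ 0 ∧ ε ^ N = 1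

/-- Steinberg Laurent polynomials `f` in `n` variables over the field `K`, with a space `V`
containing the differences of the exponents of `f`: the monomials `ε y^w`, `ε` a root of unity
(with `V = 0`); the products `f g` (with the space `V + W`); and the sums `f + ε y^w`, `ε` a root of
unity, if the difference `w - w₀` of `w` and an exponent `w₀` of `f` does not lie in `V` (with the
space generated by `V` and `w - w₀`). -/
inductive Steinberg {K : Type*} [Field K] {n : ℕ} :
    Submodule ℚ (Fin n → ℚ) → AddMonoidAlgebra K (Fin n → ℤ) → Prop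
  | mono (w : Fin n → ℤ) (ε : K) : RootU ε → Steinberg ⊥ (AddMonoidAlgebra.single w ε)
  | mul {V W : Submodule ℚ (Fin n → ℚ)} {f g : AddMonoidAlgebra K (Fin n → ℤ)} :
      Steinberg V f → Steinberg W g → Steinberg (V ⊔ W) (f * g)
  | cone {V : Submodule ℚ (Fin n → ℚ)} {f : AddMonoidAlgebra K (Fin n → ℤ)} (w₀ w : Fin n → ℤ)
      (ε : K) : RootU ε → Steinberg V f → w₀ ∈ f.coeff.support → qv (w - w₀) ∉ V →
      Steinberg (V ⊔ Submodule.span ℚ {qv (w - w₀)}) (f + AddMonoidAlgebra.single w ε)

/-- Laurent polynomials in `n` variables over the field `K`. -/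
abbrev LP (K : Type*) [Field K] (n : ℕ) : Type _ := AddMonoidAlgebra K (Fin n → ℤ)

section units

variable {K : Type*} [Field K] {n : ℕ}

/-- The constants. -/
noncomputable def cK (K : Type*) [Field K] (n : ℕ) : K →+* LP K n :=
  AddMonoidAlgebra.singleZeroRingHom

/-- The monomials as units. -/
noncomputable def lu (K : Type*) [Field K] (n : ℕ) : Multiplicative (Fin n → ℤ) →* (LP K n)ˣ :=
  (AddMonoidAlgebra.of K (Fin n → ℤ)).toHomUnits

/-- The variable `y_i` as a unit. -/
noncomputable def ly (K : Type*) [Field K] {n : ℕ} (i : Fin n) : (LP K n)ˣ :=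
  lu K n (Multiplicative.ofAdd (Pi.single i 1))

end units

section Ring

variable {K : Type*} [Field K] {d m n q : ℕ} (P : LP K n) (lam : K)
  (c : Fin (m + 1) → Fin (d + 1) → K) (a : Fin (m + 1) → K)

/-- The polynomial `λ ∏_e L_e(x) - P(y)` in `x_0, ..., x_d` with coefficients in the ring of the
Laurent polynomials in `y`. -/
noncomputable def feqn : MvPolynomial (Fin (d + 1)) (LP K n) :=
  MvPolynomial.map (cK K n) (dPhi lam c a) - MvPolynomial.C P

/-- The coordinate ring of the variety `P(y) = λ ∏_e L_e(x)` in the product of the torus and the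
affine space. -/
def FRing : Type _ := MvPolynomial (Fin (d + 1)) (LP K n) ⧸ Ideal.span {feqn P lam c a}

noncomputable instance : CommRing (FRing P lam c a) :=
  Ideal.Quotient.commRing (Ideal.span {feqn P lam c a})

/-- The functions on the variety given by the polynomials. -/
noncomputable def fof : MvPolynomial (Fin (d + 1)) (LP K n) →+* FRing P lam c a :=
  Ideal.Quotient.mk (Ideal.span {feqn P lam c a})

/-- The polynomials in `x` as functions on the variety. -/
noncomputable def fpol : MvPolynomial (Fin (d + 1)) K →+* FRing P lam c a :=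
  (fof P lam c a).comp (MvPolynomial.map (cK K n))

/-- The coordinate ring of the open part `λ ∏_e L_e ≠ 0`. -/
def FOpen : Type _ := Localization.Away (fpol P lam c a (dPhi lam c a))

noncomputable instance instCommRingFOpen : CommRing (FOpen P lam c a) :=
  @OreLocalization.instCommRing (FRing P lam c a) _
    (Submonoid.powers (fpol P lam c a (dPhi lam c a))) _

noncomputable instance instAlgebraFOpen : Algebra (FRing P lam c a) (FOpen P lam c a) :=
  (OreLocalization.instAlgebra :
    Algebra (FRing P lam c a) (Localization.Away (fpol P lam c a (dPhi lam c a))))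

instance instAwayFOpen : IsLocalization.Away (fpol P lam c a (dPhi lam c a)) (FOpen P lam c a) :=
  (Localization.isLocalization : IsLocalization.Away (fpol P lam c a (dPhi lam c a))
    (Localization.Away (fpol P lam c a (dPhi lam c a))))

/-- The restriction of functions to the open part. -/
noncomputable def toF : FRing P lam c a →+* FOpen P lam c a := algebraMap _ _

/-- The constants. -/
noncomputable def fcst : K →+* FOpen P lam c a :=
  (toF P lam c a).comp ((fpol P lam c a).comp MvPolynomial.C)

/-- The Laurent polynomials in `y` as functions on the open part. -/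
noncomputable def flp : LP K n →+* FOpen P lam c a :=
  (toF P lam c a).comp ((fof P lam c a).comp MvPolynomial.C)

/-- The unit `y_i`. -/
noncomputable def fy (i : Fin n) : (FOpen P lam c a)ˣ :=
  Units.map (flp P lam c a : LP K n →* FOpen P lam c a) (ly K i)

theorem isUnit_fPhi : IsUnit (toF P lam c a (fpol P lam c a (dPhi lam c a))) :=
  IsLocalization.Away.algebraMap_isUnit _

theorem isUnit_fl (e : Fin (m + 1)) : IsUnit (toF P lam c a (fpol P lam c a (lf c a e))) := by
  refine isUnit_of_dvd_unit (map_dvd _ (map_dvd _ ?_)) (isUnit_fPhi P lam c a)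
  exact Dvd.dvd.mul_left (Finset.dvd_prod_of_mem (fun e => lf c a e) (Finset.mem_univ e)) _

/-- The unit `L_e`. -/
noncomputable def fu (e : Fin (m + 1)) : (FOpen P lam c a)ˣ := (isUnit_fl P lam c a e).unit

theorem coe_fu (e : Fin (m + 1)) :
    (fu P lam c a e : FOpen P lam c a) = toF P lam c a (fpol P lam c a (lf c a e)) := rfl

/-- The unit `γ_i L_{S i}`, where `∑_i γ_i L_{S i}` is constant. -/
noncomputable def fg (S : Fin (d + 2) → Fin (m + 1)) (i : Fin (d + 2)) : (FOpen P lam c a)ˣ :=
  Units.map (fcst P lam c a : K →* FOpen P lam c a) (ku (gam c S i)) * fu P lam c a (S i)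

end Ring

section ent

variable {K : Type*} [Field K] {d m q : ℕ} (P : LP K (q + 1)) (lam : K)
  (c : Fin (m + 1) → Fin (d + 1) → K) (a : Fin (m + 1) → K)

/-- The entries `y_0`, `γ_k L_{S k} / (γ_0 L_{S 0})`, `k = 1, ..., d + 1`, and `y_1, ..., y_q` of the
symbol of the simplex with the facets `L_{S 0}, ..., L_{S (d + 1)}`. -/
noncomputable def fent (S : Fin (d + 2) → Fin (m + 1)) :
    Fin (d + 1 + q + 1) → (FOpen P lam c a)ˣ :=
  Fin.cons (fy P lam c a 0)
    (Fin.append (fun k : Fin (d + 1) => fg P lam c a S k.succ / fg P lam c a S 0)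
      (fun i : Fin q => fy P lam c a i.succ))

end ent

/-- Every exponent direction is positive on some exponent of `P`: the point `0` is an interior point
of the Newton polytope of `P`. -/
def Interior {K : Type*} [Field K] {n : ℕ} (P : LP K n) : Prop :=
  ∀ μ : Fin n → ℤ, μ ≠ 0 → ∃ w ∈ P.coeff.support, 0 < ∑ i, w i * μ i

/-- The polynomial `1 + ∑_{i ∈ s} y_i`. -/
noncomputable def bf (K : Type*) [Field K] {n : ℕ} (s : Finset (Fin n)) : LP K n :=
  1 + ∑ i ∈ s, AddMonoidAlgebra.single (Pi.single i 1) 1

/-- The polynomial `∏_j (1 + ∑_{β i = j} y_i)^(#{i : β i = j} + 1) / (y_0 ... y_(n-1))`. -/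
noncomputable def mirrorP (K : Type*) [Field K] {n k : ℕ} (β : Fin n → Fin k) : LP K n :=
  (∏ j : Fin k, bf K (Finset.univ.filter fun i => β i = j) ^
    ((Finset.univ.filter fun i => β i = j).card + 1)) * AddMonoidAlgebra.single (fun _ => -1) 1

end Pool.Agent.Helper39.SB
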