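import Pool.Agent.TH690.SF.Milnor
import Pool.Agent.Helper39.SB.Def
set_option autoImplicit false

/-!
Symbols of monomials as an alternating map of their exponents.
-/

namespace Pool.Agent.Helper39.SB

open scoped WithZero

open Pool.Agent.TH826.MK (KQ symb symb_update_mul symb_update_zpow symb_eq_zero')

open Pool.Agent.TH826.SX (symb_self symb_upd_one)

open Pool.Agent.TH826.EF (onePart)

open Pool.Agent.TH826.DC (cup cup_symb)

section span

variable {A : Type*} [CommRing A] {r : ℕ}

theorem span_symb : Submodule.span ℚ (Set.range (symb : (Fin r → Aˣ) → KQ A r)) = ⊤ := by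
  rw [eq_top_iff]
  rintro z -
  obtain ⟨p, rfl⟩ := Submodule.Quotient.mk_surjective _ z
  induction p using Finsupp.induction_linear with
  | zero => exact Submodule.zero_mem _
  | add f g hf hg => exact Submodule.add_mem _ hf hg
  | single a b =>
    have h1 : Finsupp.single a b = b • Finsupp.single a (1 : ℚ) := by
      rw [Finsupp.smul_single, smul_eq_mul, mul_one]
    rw [h1]
    show b • (symb a : KQ A r) ∈ _
    exact Submodule.smul_mem _ _ (Submodule.subset_span (Set.mem_range_self a))

theorem symb_induction {p : KQ A r → Prop} (h1 : ∀ a, p (symb a)) (h0 : p 0)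
    (hadd : ∀ x y, p x → p y → p (x + y)) (hsmul : ∀ (c : ℚ) x, p x → p (c • x)) (z : KQ A r) :
    p z := by
  have hz : z ∈ Submodule.span ℚ (Set.range (symb : (Fin r → Aˣ) → KQ A r)) := by
    rw [span_symb]
    exact Submodule.mem_top
  induction hz using Submodule.span_induction with
  | mem x hx =>
    obtain ⟨a, rfl⟩ := hx
    exact h1 a
  | zero => exact h0
  | add x y _ _ hx hy => exact hadd x y hx hy
  | smul c x _ hx => exact hsmul c x hx

end span

section cup

variable {L : Type*} [Field L] {r : ℕ}

theorem cup_mul (x y : Lˣ) (z : KQ L r) : cup (x * y) z = cup x z + cup y z := by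
  refine symb_induction (p := fun z => cup (x * y) z = cup x z + cup y z) (fun a => ?_) ?_
    (fun z w hz hw => ?_) (fun c z hz => ?_) z
  · have e : ∀ t : Lˣ, (Fin.cons t a : Fin (r + 1) → Lˣ) =
        Function.update (Fin.cons 1 a : Fin (r + 1) → Lˣ) 0 t := fun t =>
      (Fin.update_cons_zero _ _ _).symm
    rw [cup_symb, cup_symb, cup_symb, e (x * y), e x, e y, symb_update_mul]
  · simp only [map_zero, add_zero]
  · simp only [map_add, hz, hw]
    abel
  · simp only [map_smul, hz, smul_add]

theorem cup_one (z : KQ L r) : cup (1 : Lˣ) z = 0 := by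
  have h := cup_mul (1 : Lˣ) 1 z
  rw [mul_one] at h
  simpa using h

theorem cup_zpow (x : Lˣ) (k : ℤ) (z : KQ L r) : cup (x ^ k) z = (k : ℚ) • cup x z := by
  let φ : Additive Lˣ →+ KQ L (r + 1) := AddMonoidHom.mk'
    (fun t => cup t.toMul z) (fun t s => by rw [toMul_add, cup_mul])
  have h := map_zsmul φ k (Additive.ofMul x)
  rw [Int.cast_smul_eq_zsmul]
  exact h

theorem cup_pow (x : Lˣ) (k : ℕ) (z : KQ L r) : cup (x ^ k) z = (k : ℚ) • cup x z := by
  have h := cup_zpow x (k : ℤ) z
  rwa [zpow_natCast, Int.cast_natCast] at h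

theorem cup_prod {ι : Type*} (s : Finset ι) (g : ι → Lˣ) (z : KQ L r) :
    cup (∏ i ∈ s, g i) z = ∑ i ∈ s, cup (g i) z := by
  classical
  induction s using Finset.induction_on with
  | empty => rw [Finset.prod_empty, Finset.sum_empty, cup_one]
  | insert i s hi ih => rw [Finset.prod_insert hi, Finset.sum_insert hi, cup_mul, ih]

theorem cup_of_pow {x : Lˣ} {N : ℕ} (hN : N ≠ 0) (hx : x ^ N = 1) (z : KQ L r) :
    cup x z = 0 := by
  have h := cup_pow x N z
  rw [hx, cup_one] at h
  have hN' : (N : ℚ) ≠ 0 := Nat.cast_ne_zero.2 hN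
  exact (smul_eq_zero.1 h.symm).resolve_left hN'

theorem cup_inv (x : Lˣ) (z : KQ L r) : cup x⁻¹ z = -cup x z := by
  have h := cup_zpow x (-1) z
  rwa [zpow_neg_one, Int.cast_neg, Int.cast_one, neg_smul, one_smul] at h

/-- two entries which are equal -/
theorem cup_cup_self (x : Lˣ) (z : KQ L r) : cup x (cup x z) = 0 := by
  refine symb_induction (p := fun z => cup x (cup x z) = 0) (fun a => ?_) ?_
    (fun z w hz hw => ?_) (fun c z hz => ?_) z
  · rw [cup_symb, cup_symb]
    refine symb_self _ (i := 0) (j := Fin.succ 0) (Fin.succ_ne_zero _).symm ?_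
    rfl
  · simp only [map_zero]
  · simp only [map_add, hz, hw, add_zero]
  · simp only [map_smul, hz, smul_zero]

theorem cup_cup_comm (x y : Lˣ) (z : KQ L r) : cup x (cup y z) = -cup y (cup x z) := by
  have h := cup_cup_self (x * y) z
  rw [cup_mul x y z, map_add, cup_mul, cup_mul, cup_cup_self, cup_cup_self, add_zero, zero_add] at h
  have h' : cup x (cup y z) + cup y (cup x z) = 0 := by
    rw [← h]
    abel
  exact eq_neg_of_add_eq_zero_left h'

/-- the Steinberg relation -/
theorem cup_cup_steinberg {x y : Lˣ} (h : (x : L) + (y : L) = 1) (z : KQ L r) :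
    cup x (cup y z) = 0 := by
  refine symb_induction (p := fun z => cup x (cup y z) = 0) (fun a => ?_) ?_
    (fun z w hz hw => ?_) (fun c z hz => ?_) z
  · rw [cup_symb, cup_symb]
    refine symb_eq_zero' _ (i := 0) (j := Fin.succ 0) (Fin.succ_ne_zero _).symm ?_
    exact h
  · simp only [map_zero]
  · simp only [map_add, hz, hw, add_zero]
  · simp only [map_smul, hz, smul_zero]

/-- one-units -/
theorem cup_mem_onePart_of_lt (v : Valuation L ℤᵐ⁰) {x : Lˣ} (h : v ((x : L) - 1) < 1)
    (z : KQ L r) : cup x z ∈ onePart v (r + 1) := by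
  refine symb_induction (p := fun z => cup x z ∈ onePart v (r + 1)) (fun a => ?_) ?_
    (fun z w hz hw => ?_) (fun c z hz => ?_) z
  · rw [cup_symb]
    exact Submodule.subset_span ⟨_, 0, h, rfl⟩
  · simp only [map_zero]
    exact Submodule.zero_mem _
  · simp only [map_add]
    exact Submodule.add_mem _ hz hw
  · simp only [map_smul]
    exact Submodule.smul_mem _ _ hz

end cup

section alt

variable (L : Type*) [Field L] (r : ℕ)

/-- The symbol as an alternating map. -/
noncomputable def altZ : (Additive Lˣ) [⋀^Fin r]→ₗ[ℤ] KQ L r where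
  toFun a := symb fun i => (a i).toMul
  map_update_add' := by
    intro inst a i x y
    obtain rfl : inst = instDecidableEqFin r := Subsingleton.elim _ _
    have hd : ∀ z : Additive Lˣ, (fun j => (Function.update a i z j).toMul) =
        Function.update (fun j => (a j).toMul) i z.toMul := by
      intro z
      funext j
      by_cases h : j = i
      · subst h; simp
      · simp [h]
    rw [hd, hd, hd, toMul_add, symb_update_mul]
  map_update_smul' := by
    intro inst a i k x
    obtain rfl : inst = instDecidableEqFin r := Subsingleton.elim _ _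
    have hd : ∀ z : Additive Lˣ, (fun j => (Function.update a i z j).toMul) =
        Function.update (fun j => (a j).toMul) i z.toMul := by
      intro z
      funext j
      by_cases h : j = i
      · subst h; simp
      · simp [h]
    rw [hd, hd, toMul_zsmul, symb_update_zpow, Int.cast_smul_eq_zsmul]
  map_eq_zero_of_eq' a i j h hij := symb_self _ hij (by rw [h])

variable {L r} {n : ℕ}

theorem altZ_apply (a : Fin r → Additive Lˣ) : altZ L r a = symb fun i => (a i).toMul := rfl

/-- The monomial with the exponents `w`. -/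
def mn {G : Type*} [CommGroup G] (y : Fin n → G) (w : Fin n → ℤ) : G := ∏ i, y i ^ w i

/-- The multilinear map `W ↦ ∑_j ∏_i W_i(j_i) {y_(j_1), ..., y_(j_r)}`. -/
noncomputable def mulQ (y : Fin n → Lˣ) :
    MultilinearMap ℚ (fun _ : Fin r => (Fin n → ℚ)) (KQ L r) :=
  ∑ j : Fin r → Fin n, ((MultilinearMap.mkPiAlgebra ℚ (Fin r) ℚ).compLinearMap fun i =>
    LinearMap.proj (j i)).smulRight (symb fun i => y (j i))

theorem mulQ_apply (y : Fin n → Lˣ) (W : Fin r → Fin n → ℚ) :
    mulQ y W = ∑ j : Fin r → Fin n, (∏ i, W i (j i)) • symb fun i => y (j i) := by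
  unfold mulQ
  rw [MultilinearMap.sum_apply]
  rfl

/-- The alternating map `W ↦ {y^(W_1), ..., y^(W_r)}`. -/
noncomputable def altQ (y : Fin n → Lˣ) : (Fin n → ℚ) [⋀^Fin r]→ₗ[ℚ] KQ L r where
  __ := mulQ y
  map_eq_zero_of_eq' W a b h hab := by
    show mulQ y W = 0
    rw [mulQ_apply]
    refine Finset.sum_involution (fun j _ => j ∘ Equiv.swap a b) ?_ ?_ ?_ ?_
    · intro j _
      have h1 : ∏ i, W i ((j ∘ Equiv.swap a b) i) = ∏ i, W i (j i) := by
        rw [← Equiv.prod_comp (Equiv.swap a b)]
        refine Finset.prod_congr rfl fun i _ => ?_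
        have h2 : W (Equiv.swap a b i) = W i := by
          by_cases hia : i = a
          · subst hia; rw [Equiv.swap_apply_left, h]
          · by_cases hib : i = b
            · subst hib; rw [Equiv.swap_apply_right, h]
            · rw [Equiv.swap_apply_of_ne_of_ne hia hib]
        rw [h2]
        simp
      have h3 : (symb fun i => y ((j ∘ Equiv.swap a b) i) : KQ L r) =
          -symb fun i => y (j i) := by
        have h4 := (altZ L r).map_swap (fun i => Additive.ofMul (y (j i))) hab
        exact h4
      rw [h1, h3, smul_neg, add_neg_cancel]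
    · intro j _ hne heq
      apply hne
      have h5 : j a = j b := by
        have h6 := congrFun heq b
        simpa using h6
      rw [symb_self (fun i => y (j i)) hab (by rw [h5]), smul_zero]
    · intro j _
      exact Finset.mem_univ _
    · intro j _
      funext i
      simp

theorem altQ_apply (y : Fin n → Lˣ) (W : Fin r → Fin n → ℚ) :
    altQ y W = ∑ j : Fin r → Fin n, (∏ i, W i (j i)) • symb fun i => y (j i) :=
  mulQ_apply y W

theorem altQ_qv (y : Fin n → Lˣ) (W : Fin r → Fin n → ℤ) :
    altQ y (fun i => qv (W i)) = symb fun i => mn y (W i) := by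
  have h1 : (symb fun i => mn y (W i) : KQ L r) =
      altZ L r fun i => ∑ j, W i j • Additive.ofMul (y j) := by
    rw [altZ_apply]
    congr 1
  rw [h1, altQ_apply]
  have h2 := (altZ L r).toMultilinearMap.map_sum (fun i j => W i j • Additive.ofMul (y j))
  have h3 : (altZ L r fun i => ∑ j, W i j • Additive.ofMul (y j)) =
      ∑ j : Fin r → Fin n, altZ L r fun i => W i (j i) • Additive.ofMul (y (j i)) := h2
  rw [h3]
  refine Finset.sum_congr rfl fun j _ => ?_
  have h4 : (altZ L r fun i => W i (j i) • Additive.ofMul (y (j i))) =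
      (∏ i, W i (j i)) • altZ L r fun i => Additive.ofMul (y (j i)) :=
    (altZ L r).toMultilinearMap.map_smul_univ _ _
  rw [h4, altZ_apply, ← Int.cast_smul_eq_zsmul ℚ]
  congr 1
  unfold qv
  push_cast
  rfl

theorem altQ_cons (y : Fin n → Lˣ) (w : Fin n → ℤ) (W : Fin r → Fin n → ℚ) :
    altQ y (Fin.cons (qv w) W : Fin (r + 1) → Fin n → ℚ) = cup (mn y w) (altQ y W) := by
  rw [altQ_apply, altQ_apply]
  have h1 : ∀ z : KQ L r, cup (mn y w) z = ∑ i, (w i : ℚ) • cup (y i) z := by
    intro z
    unfold mn
    rw [cup_prod]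
    exact Finset.sum_congr rfl fun i _ => cup_zpow _ _ _
  rw [map_sum]
  have h2 : ∀ j : Fin r → Fin n, cup (mn y w) ((∏ i, W i (j i)) • symb fun i => y (j i)) =
      ∑ i, ((w i : ℚ) * ∏ i, W i (j i)) •
        symb (Fin.cons (y i) (fun i => y (j i)) : Fin (r + 1) → Lˣ) := by
    intro j
    rw [h1]
    refine Finset.sum_congr rfl fun i _ => ?_
    rw [map_smul, cup_symb, smul_smul]
  simp only [h2]
  rw [Finset.sum_comm, ← (Fin.consEquiv fun _ => Fin n).sum_comp, Fintype.sum_prod_type]
  refine Finset.sum_congr rfl fun i _ => Finset.sum_congr rfl fun j _ => ?_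
  congr 1
  · rw [Fin.prod_univ_succ]
    rfl
  · congr 1
    funext l
    refine Fin.cases ?_ (fun l => ?_) l
    · rfl
    · rfl

end alt

section reduce

variable {E M : Type*} [AddCommGroup E] [Module ℚ E] [AddCommGroup M] [Module ℚ M] {r : ℕ}

/-- Alternating maps of families in the span of another family. -/
theorem alt_mem_span (g : E [⋀^Fin r]→ₗ[ℚ] M) (W W' : Fin r → E)
    (h : ∀ i, W i ∈ Submodule.span ℚ (Set.range W')) : g W ∈ Submodule.span ℚ {g W'} := by
  choose c hc using fun i => (Submodule.mem_span_range_iff_exists_fun ℚ).1 (h i)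
  have h1 : W = fun i => ∑ j, c i j • W' j := funext fun i => (hc i).symm
  have h2 := g.toMultilinearMap.map_sum (fun i j => c i j • W' j)
  have h3 : g W = ∑ j : Fin r → Fin r, g fun i => c i (j i) • W' (j i) := by
    rw [h1]
    exact h2
  rw [h3]
  refine Submodule.sum_mem _ fun j _ => ?_
  have h4 : (g fun i => c i (j i) • W' (j i)) = (∏ i, c i (j i)) • g fun i => W' (j i) :=
    g.toMultilinearMap.map_smul_univ _ _
  rw [h4]
  refine Submodule.smul_mem _ _ ?_
  by_cases hj : Function.Injective j
  · obtain ⟨σ, hσ⟩ : ∃ σ : Equiv.Perm (Fin r), ∀ i, σ i = j i :=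
      ⟨Equiv.ofBijective j ((Finite.injective_iff_bijective).1 hj), fun i => rfl⟩
    have h5 : (g fun i => W' (j i)) = Equiv.Perm.sign σ • g W' := by
      rw [← g.map_perm W' σ]
      congr 1
      funext i
      simp [hσ]
    rw [h5]
    rcases Int.units_eq_one_or (Equiv.Perm.sign σ) with h6 | h6
    · rw [h6, one_smul]
      exact Submodule.mem_span_singleton_self _
    · rw [h6, Units.neg_smul, one_smul]
      exact Submodule.neg_mem _ (Submodule.mem_span_singleton_self _)
  · rw [Function.Injective] at hj
    push Not at hj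
    obtain ⟨a, b, hab, hne⟩ := hj
    have h5 : (g fun i => W' (j i)) = 0 := g.map_eq_zero_of_eq _ (by rw [hab]) hne
    rw [h5]
    exact Submodule.zero_mem _

/-- Reduction of families whose span contains `V` and `u` to families `(u, W'')` such that already
the span of `W''` contains `V`. -/
theorem reduce [FiniteDimensional ℚ E] (g : E [⋀^Fin (r + 1)]→ₗ[ℚ] M) {V : Submodule ℚ E} {u : E}
    (hu : u ∉ V) (W : Fin (r + 1) → E)
    (hW : V ⊔ Submodule.span ℚ {u} ≤ Submodule.span ℚ (Set.range W)) :
    g W = 0 ∨ ∃ W' : Fin r → E, V ≤ Submodule.span ℚ (Set.range W') ∧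
      g W ∈ Submodule.span ℚ {g (Fin.cons u W' : Fin (r + 1) → E)} := by
  by_cases hli : LinearIndependent ℚ W
  swap
  · exact Or.inl (g.map_linearDependent W hli)
  refine Or.inr ?_
  set S := Submodule.span ℚ (Set.range W) with hS
  have hfS : Module.finrank ℚ S = r + 1 := by
    rw [finrank_span_eq_card hli, Fintype.card_fin]
  obtain ⟨C0, hC0⟩ := Submodule.exists_isCompl (V ⊔ Submodule.span ℚ {u})
  set C := C0 ⊓ S with hC
  have hsup : (V ⊔ Submodule.span ℚ {u}) ⊔ C = S := by
    rw [hC, ← sup_inf_assoc_of_le _ hW, hC0.sup_eq_top, top_inf_eq]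
  have hdis : (V ⊔ Submodule.span ℚ {u}) ⊓ C = ⊥ := by
    rw [eq_bot_iff, hC, ← inf_assoc, hC0.inf_eq_bot, bot_inf_eq]
  set U := V ⊔ C with hU
  have huS : u ∈ S := hW (Submodule.mem_sup_right (Submodule.mem_span_singleton_self u))
  have hUu : Submodule.span ℚ {u} ⊔ U = S := by
    rw [← hsup, hU, ← sup_assoc, sup_comm V]
  have huU : u ∉ U := by
    intro h
    obtain ⟨v, hv, c, hc, hvc⟩ := Submodule.mem_sup.1 h
    have h1 : c ∈ (V ⊔ Submodule.span ℚ {u}) ⊓ C := by
      refine ⟨?_, hc⟩
      have h2 : c = u - v := by rw [← hvc]; abel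
      rw [h2]
      exact Submodule.sub_mem _ (Submodule.mem_sup_right (Submodule.mem_span_singleton_self u))
        (Submodule.mem_sup_left hv)
    rw [hdis, Submodule.mem_bot] at h1
    rw [h1, add_zero] at hvc
    exact hu (hvc ▸ hv)
  have hinf : Submodule.span ℚ {u} ⊓ U = ⊥ := by
    rw [Submodule.eq_bot_iff]
    rintro x ⟨hx1, hx2⟩
    obtain ⟨c, rfl⟩ := Submodule.mem_span_singleton.1 hx1
    by_cases hc : c = 0
    · rw [hc, zero_smul]
    · exfalso
      apply huU
      have h1 := U.smul_mem c⁻¹ hx2
      rwa [smul_smul, inv_mul_cancel₀ hc, one_smul] at h1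
  have hu0 : u ≠ 0 := fun h => hu (h ▸ V.zero_mem)
  have hfU : Module.finrank ℚ U = r := by
    have h1 := Submodule.finrank_sup_add_finrank_inf_eq (Submodule.span ℚ {u}) U
    rw [hUu, hinf, finrank_bot, hfS, finrank_span_singleton hu0] at h1
    omega
  let b := Module.finBasisOfFinrankEq ℚ U hfU
  refine ⟨fun i => (b i : E), ?_, ?_⟩
  · have h1 : Submodule.span ℚ (Set.range fun i => (b i : E)) = U := by
      have h2 : Set.range (fun i => (b i : E)) = U.subtype '' Set.range b := by
        rw [← Set.range_comp]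
        rfl
      rw [h2, ← Submodule.map_span, b.span_eq, Submodule.map_top, Submodule.range_subtype]
    rw [h1]
    exact le_sup_left
  · refine alt_mem_span g _ _ fun i => ?_
    have h1 : Submodule.span ℚ (Set.range fun i => (b i : E)) = U := by
      have h2 : Set.range (fun i => (b i : E)) = U.subtype '' Set.range b := by
        rw [← Set.range_comp]
        rfl
      rw [h2, ← Submodule.map_span, b.span_eq, Submodule.map_top, Submodule.range_subtype]
    rw [Fin.range_cons, Submodule.span_insert, h1, hUu]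
    exact Submodule.subset_span ⟨i, rfl⟩

end reduce

end Pool.Agent.Helper39.SB
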