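import Pool.Agent.Helper39.SB.Unr
set_option autoImplicit false

/-!
The varieties `P(y) = λ ∏_e L_e(x)` are irreducible, if the space of the `x` has dimension at least
two.
-/

namespace Pool.Agent.Helper39.SB

open MvPolynomial

open Pool.Agent.TH826.GA (cm vtx lf injective_face)

open Pool.Agent.TH826.DC (dPhi dPhi_ne_C row_ne_zero)

open Pool.Agent.Y797.IV (GenPos vtx_spec)

section lin

variable {F : Type*} [Field F] {σ : Type*} [DecidableEq σ] {ℓ ρ : MvPolynomial σ F} {j : σ} {u : F}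

/-- the substitution `X_j ↦ ρ` -/
noncomputable def sbt (j : σ) (ρ : MvPolynomial σ F) : MvPolynomial σ F →ₐ[F] MvPolynomial σ F :=
  aeval (Function.update X j ρ)

theorem sub_sbt (hu : u ≠ 0) (hℓ : ℓ = C u * (X j - ρ)) (A : MvPolynomial σ F) :
    ℓ ∣ A - sbt j ρ A := by
  induction A using MvPolynomial.induction_on with
  | C r => simp [sbt]
  | add p q hp hq =>
    rw [map_add, add_sub_add_comm]
    exact dvd_add hp hq
  | mul_X p k hp =>
    have h1 : p * X k - sbt j ρ (p * X k) =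
        (p - sbt j ρ p) * X k + sbt j ρ p * (X k - sbt j ρ (X k)) := by
      rw [map_mul]
      ring
    rw [h1]
    refine dvd_add (hp.mul_right _) (Dvd.dvd.mul_left ?_ _)
    by_cases hk : k = j
    · subst hk
      have h2 : sbt k ρ (X k) = ρ := by simp [sbt]
      rw [h2, hℓ]
      refine ⟨C u⁻¹, ?_⟩
      have h3 : (C u : MvPolynomial σ F) * C u⁻¹ = 1 := by
        rw [← C_mul, mul_inv_cancel₀ hu, C_1]
      linear_combination -(X k - ρ) * h3
    · have h2 : sbt j ρ (X k) = X k := by simp [sbt, hk]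
      rw [h2, sub_self]
      exact dvd_zero _

theorem sbt_eq_zero_iff (hu : u ≠ 0) (hℓ : ℓ = C u * (X j - ρ)) (hρ : sbt j ρ ρ = ρ)
    (A : MvPolynomial σ F) : sbt j ρ A = 0 ↔ ℓ ∣ A := by
  constructor
  · intro h
    have h1 := sub_sbt hu hℓ A
    rwa [h, sub_zero] at h1
  · rintro ⟨B, rfl⟩
    have h2 : sbt j ρ (X j) = ρ := by simp [sbt]
    rw [map_mul, hℓ, map_mul, map_sub, h2, hρ, sub_self, mul_zero, zero_mul]

theorem prime_lin (hu : u ≠ 0) (hℓ : ℓ = C u * (X j - ρ)) (hρ : sbt j ρ ρ = ρ) (h0 : ℓ ≠ 0) :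
    Prime ℓ := by
  refine ⟨h0, fun hun => ?_, fun A B hAB => ?_⟩
  · have h1 : sbt j ρ ℓ = 0 := (sbt_eq_zero_iff hu hℓ hρ ℓ).2 dvd_rfl
    have h2 := hun.map (sbt j ρ)
    rw [h1] at h2
    exact not_isUnit_zero h2
  · rw [← sbt_eq_zero_iff hu hℓ hρ, map_mul, mul_eq_zero] at hAB
    rcases hAB with h | h
    · exact Or.inl ((sbt_eq_zero_iff hu hℓ hρ A).1 h)
    · exact Or.inr ((sbt_eq_zero_iff hu hℓ hρ B).1 h)

theorem const_of_mul (hu : u ≠ 0) (hℓ : ℓ = C u * (X j - ρ)) {A B : MvPolynomial σ F} {s : F}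
    (hs : s ≠ 0) (h : sbt j ρ A * sbt j ρ B = C s) : ∃ r : F, ℓ ∣ A - C r := by
  have h1 : IsUnit (sbt j ρ A) := by
    refine isUnit_of_dvd_unit (Dvd.intro _ h) ?_
    exact (isUnit_iff_ne_zero.2 hs).map C
  obtain ⟨r, -, hr⟩ := isUnit_iff_eq_C_of_isReduced.1 h1
  refine ⟨r, ?_⟩
  rw [← hr]
  exact sub_sbt hu hℓ A

end lin

section forms

variable {F : Type*} [Field F] {d m : ℕ}

/-- A product `λ ∏_e ℓ_e - t`, `t ≠ 0`, of affine forms `ℓ_e` any two of which have a common zero and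
are not proportional is irreducible. -/
theorem irreducible_forms {σ : Type*} [DecidableEq σ] {ι : Type*} [Fintype ι] [Nonempty ι]
    [DecidableEq ι]
    (ℓ : ι → MvPolynomial σ F) {lam t : F} (hlam : lam ≠ 0) (ht : t ≠ 0) (h0 : ∀ e, ℓ e ≠ 0)
    (hlin : ∀ e, ∃ (j : σ) (u : F) (ρ : MvPolynomial σ F), u ≠ 0 ∧ ℓ e = C u * (X j - ρ) ∧
      sbt j ρ ρ = ρ)
    (hzero : ∀ e e', ∃ x : σ → F, eval x (ℓ e) = 0 ∧ eval x (ℓ e') = 0)
    (hne : ∀ e e', e ≠ e' → ∃ x : σ → F, eval x (ℓ e) = 0 ∧ eval x (ℓ e') ≠ 0) :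
    Irreducible (C lam * ∏ e, ℓ e - C t) := by
  have hprime : ∀ e, Prime (ℓ e) := by
    intro e
    obtain ⟨j, u, ρ, hu, hℓ, h⟩ := hlin e
    exact prime_lin hu hℓ h (h0 e)
  have hrel : (↑(Finset.univ : Finset ι) : Set ι).Pairwise (Function.onFun IsRelPrime ℓ) := by
    intro e _ e' _ hee
    show IsRelPrime (ℓ e) (ℓ e')
    rw [(hprime e).irreducible.isRelPrime_iff_not_dvd]
    rintro ⟨k, hk⟩
    obtain ⟨x, hx1, hx2⟩ := hne e e' hee
    apply hx2
    rw [hk, map_mul, hx1, zero_mul]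
  have hP0 : (∏ e, ℓ e) ≠ 0 := Finset.prod_ne_zero_iff.2 fun e _ => h0 e
  have hsub : ∀ e, ∃ (j : σ) (u : F) (ρ : MvPolynomial σ F), u ≠ 0 ∧ ℓ e = C u * (X j - ρ) ∧
      sbt j ρ (C lam * ∏ e, ℓ e - C t) = C (-t) ∧ sbt j ρ (∏ e, ℓ e) = 0 := by
    intro e
    obtain ⟨j, u, ρ, hu, hℓ, h⟩ := hlin e
    have h1 : sbt j ρ (ℓ e) = 0 := (sbt_eq_zero_iff hu hℓ h _).2 dvd_rfl
    have h2 : sbt j ρ (∏ e, ℓ e) = 0 := by
      rw [map_prod]
      exact Finset.prod_eq_zero (Finset.mem_univ e) h1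
    refine ⟨j, u, ρ, hu, hℓ, ?_, h2⟩
    rw [map_sub, map_mul, h2, mul_zero, zero_sub, C_neg]
    congr 1
    exact (sbt j ρ).commutes t
  have hdeg : 0 < (∏ e, ℓ e).totalDegree := by
    rw [Nat.pos_iff_ne_zero]
    intro h
    obtain ⟨j, u, ρ, hu, hℓ, -, h3⟩ := hsub (Classical.arbitrary ι)
    rw [totalDegree_eq_zero_iff_eq_C] at h
    have h4 : sbt j ρ (∏ e, ℓ e) = ∏ e, ℓ e := by
      rw [h]
      exact (sbt j ρ).commutes _
    rw [h4] at h3
    exact hP0 h3
  have hmain : ∀ A B, C lam * ∏ e, ℓ e - C t = A * B →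
      ∃ r, ∏ e, ℓ e ∣ A - C r := by
    intro A B hAB
    have h1 : ∀ e, ∃ r, ℓ e ∣ A - C r := by
      intro e
      obtain ⟨j, u, ρ, hu, hℓ, h2, -⟩ := hsub e
      refine const_of_mul hu hℓ (B := B) (s := -t) (neg_ne_zero.2 ht) ?_
      rw [← map_mul, ← hAB, h2]
    choose r hr using h1
    have hev : ∀ e (x : σ → F), eval x (ℓ e) = 0 → eval x A = r e := by
      intro e x hx
      obtain ⟨k, hk⟩ := hr e
      have h2 := congrArg (eval x) hk
      rw [map_sub, map_mul, hx, zero_mul, eval_C, sub_eq_zero] at h2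
      exact h2
    have hrr : ∀ e e', r e = r e' := by
      intro e e'
      obtain ⟨x, hx1, hx2⟩ := hzero e e'
      rw [← hev e x hx1, hev e' x hx2]
    refine ⟨r (Classical.arbitrary ι), Finset.prod_dvd_of_isRelPrime hrel fun e _ => ?_⟩
    rw [hrr (Classical.arbitrary ι) e]
    exact hr e
  refine ⟨fun hu => ?_, fun A B hAB => ?_⟩
  · obtain ⟨r, -, hr⟩ := isUnit_iff_eq_C_of_isReduced.1 hu
    obtain ⟨j, u, ρ, -, -, h2, -⟩ := hsub (Classical.arbitrary ι)
    have h3 : sbt j ρ (C r) = C r := (sbt j ρ).commutes r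
    rw [hr, h3] at h2
    have h4 : C lam * ∏ e, ℓ e = (0 : MvPolynomial σ F) := by
      have h5 : C lam * ∏ e, ℓ e = C r + C t := by
        rw [← hr]
        ring
      rw [h5, h2, ← C_add, neg_add_cancel, C_0]
    rcases mul_eq_zero.1 h4 with h5 | h5
    · exact hlam (by simpa using h5)
    · exact hP0 h5
  · obtain ⟨r, hr⟩ := hmain A B hAB
    obtain ⟨s, hs⟩ := hmain B A (by rw [hAB, mul_comm])
    have hG0 : C lam * ∏ e, ℓ e - C t ≠ 0 := by
      intro h
      obtain ⟨j, u, ρ, -, -, h2, -⟩ := hsub (Classical.arbitrary ι)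
      rw [h, map_zero] at h2
      have h3 : (C (-t) : MvPolynomial σ F) = C 0 := by rw [← h2, C_0]
      exact ht (neg_eq_zero.1 (C_injective _ _ h3))
    have hA0 : A ≠ 0 := by
      rintro rfl
      rw [zero_mul] at hAB
      exact hG0 hAB
    have hB0 : B ≠ 0 := by
      rintro rfl
      rw [mul_zero] at hAB
      exact hG0 hAB
    have hunit : ∀ {A : MvPolynomial σ F}, A ≠ 0 → ∀ {r : F}, A - C r = 0 → IsUnit A := by
      intro A hA r h
      have h1 : A = C r := sub_eq_zero.1 h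
      have h2 : r ≠ 0 := by
        rintro rfl
        rw [C_0] at h1
        exact hA h1
      rw [h1]
      exact (isUnit_iff_ne_zero.2 h2).map C
    by_cases hAr : A - C r = 0
    · exact Or.inl (hunit hA0 hAr)
    by_cases hBs : B - C s = 0
    · exact Or.inr (hunit hB0 hBs)
    exfalso
    have hle : ∀ {A : MvPolynomial σ F} {r : F}, A - C r ≠ 0 → ∏ e, ℓ e ∣ A - C r →
        (∏ e, ℓ e).totalDegree ≤ A.totalDegree := by
      intro A r hne hdvd
      refine (totalDegree_le_of_dvd_of_isDomain hdvd hne).trans ?_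
      refine (totalDegree_sub _ _).trans ?_
      rw [totalDegree_C]
      simp
    have h1 := hle hAr hr
    have h2 := hle hBs hs
    have h3 : (A * B).totalDegree = A.totalDegree + B.totalDegree :=
      totalDegree_mul_of_isDomain hA0 hB0
    have h4 : (A * B).totalDegree ≤ (∏ e, ℓ e).totalDegree := by
      rw [← hAB]
      refine (totalDegree_sub _ _).trans ?_
      rw [totalDegree_C, max_eq_left (Nat.zero_le _)]
      refine (totalDegree_mul _ _).trans ?_
      rw [totalDegree_C, zero_add]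
    omega

theorem map_lf_eq {K : Type*} [Field K] (φ : K →+* F) (c : Fin (m + 1) → Fin (d + 1) → K)
    (a : Fin (m + 1) → K) (e : Fin (m + 1)) : MvPolynomial.map φ (lf c a e) =
      ∑ j, C (φ (c e j)) * X j - C (φ (a e)) := by
  unfold lf
  rw [map_sub, map_sum]
  simp only [map_mul, MvPolynomial.map_C, MvPolynomial.map_X]

theorem lin_lf {K : Type*} [Field K] (φ : K →+* F) (c : Fin (m + 1) → Fin (d + 1) → K)
    (a : Fin (m + 1) → K) (e : Fin (m + 1)) (hc : c e ≠ 0) :
    ∃ (j : Fin (d + 1)) (u : F) (ρ : MvPolynomial (Fin (d + 1)) F), u ≠ 0 ∧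
      MvPolynomial.map φ (lf c a e) = C u * (X j - ρ) ∧ sbt j ρ ρ = ρ := by
  obtain ⟨j, hj⟩ := Function.ne_iff.1 hc
  have hu : φ (c e j) ≠ 0 := (map_ne_zero φ).2 hj
  set ρ : MvPolynomial (Fin (d + 1)) F := C (φ (c e j))⁻¹ *
    (C (φ (a e)) - ∑ l ∈ Finset.univ.erase j, C (φ (c e l)) * X l) with hρ
  refine ⟨j, φ (c e j), ρ, hu, ?_, ?_⟩
  · rw [map_lf_eq, ← Finset.add_sum_erase _ _ (Finset.mem_univ j), mul_sub, hρ, ← mul_assoc,
      ← C_mul, mul_inv_cancel₀ hu, C_1, one_mul]
    ring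
  · conv_lhs => rw [hρ]
    rw [map_mul, map_sub, map_sum]
    have h1 : ∀ l ∈ Finset.univ.erase j, sbt j ρ (C (φ (c e l)) * X l) =
        C (φ (c e l)) * X l := by
      intro l hl
      have h2 : sbt j ρ (X l) = X l := by
        unfold sbt
        rw [aeval_X, Function.update_of_ne (Finset.ne_of_mem_erase hl)]
      rw [map_mul, h2]
      congr 1
      exact (sbt j ρ).commutes _
    rw [Finset.sum_congr rfl h1]
    have h3 : ∀ r : F, sbt j ρ (C r) = C r := fun r => (sbt j ρ).commutes r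
    rw [h3, h3]

end forms

section points

variable {K : Type*} [Field K] {d m : ℕ} {c : Fin (m + 1) → Fin (d + 1) → K}
  {a : Fin (m + 1) → K}

theorem exists_simplex (hm : d + 1 ≤ m) {e e' : Fin (m + 1)} (h : e ≠ e') :
    ∃ S : Fin (d + 2) → Fin (m + 1), Function.Injective S ∧ S 0 = e' ∧ S 1 = e := by
  set π1 : Equiv.Perm (Fin (m + 1)) := Equiv.swap 0 e' with hπ1
  set f : Fin (m + 1) := π1 e with hf
  have hm0 : 0 < m := by omega
  set o : Fin (m + 1) := ⟨1, by omega⟩ with ho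
  have ho0 : o ≠ 0 := fun h => by
    have := congrArg Fin.val h
    simp [ho] at this
  set π : Equiv.Perm (Fin (m + 1)) := (Equiv.swap o f).trans π1 with hπ
  have hf0 : f ≠ 0 := by
    intro h0
    have h1 : π1 e = π1 e' := by
      rw [← hf, h0, hπ1, Equiv.swap_apply_right]
    exact h (π1.injective h1)
  refine ⟨fun k => π (Fin.castLE (by omega) k), ?_, ?_, ?_⟩
  · intro k l hkl
    exact Fin.castLE_injective (by omega) (π.injective hkl)
  · show π1 (Equiv.swap o f (Fin.castLE (by omega) (0 : Fin (d + 2)))) = e'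
    have h1 : (Fin.castLE (by omega) (0 : Fin (d + 2)) : Fin (m + 1)) = 0 := Fin.ext rfl
    rw [h1]
    rw [Equiv.swap_apply_of_ne_of_ne ho0.symm hf0.symm, hπ1, Equiv.swap_apply_left]
  · show π1 (Equiv.swap o f (Fin.castLE (by omega) (1 : Fin (d + 2)))) = e
    have h1 : (Fin.castLE (by omega) (1 : Fin (d + 2)) : Fin (m + 1)) = o := Fin.ext rfl
    rw [h1]
    rw [Equiv.swap_apply_left, hf, hπ1, Equiv.swap_apply_self]

theorem exists_common (hG : GenPos c a) (hd : 1 ≤ d) (hm : d + 1 ≤ m) (e e' : Fin (m + 1)) :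
    ∃ x : Fin (d + 1) → K, ∑ j, c e j * x j = a e ∧ ∑ j, c e' j * x j = a e' := by
  by_cases h : e = e'
  · subst h
    obtain ⟨e2, he2⟩ : ∃ e2 : Fin (m + 1), e ≠ e2 := by
      by_cases h0 : e = 0
      · refine ⟨⟨1, by omega⟩, fun h1 => ?_⟩
        rw [h0] at h1
        have := congrArg Fin.val h1
        simp at this
      · exact ⟨0, h0⟩
    obtain ⟨S, hS, -, hS1⟩ := exists_simplex (d := d) hm he2
    have hT := hG.1 _ (injective_face hS 0)
    refine ⟨vtx c a fun p => S ((0 : Fin (d + 2)).succAbove p), ?_⟩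
    have h1 := vtx_spec (a := a) hT 0
    simp only [Fin.succAbove_zero] at h1
    have h2 : S (Fin.succ 0) = e := hS1
    rw [h2] at h1
    exact ⟨h1, h1⟩
  · obtain ⟨S, hS, hS0, hS1⟩ := exists_simplex (d := d) hm h
    have hT := hG.1 (fun p => S (Fin.castSucc p))
      (hS.comp (Fin.castSucc_injective (d + 1)))
    refine ⟨vtx c a fun p => S (Fin.castSucc p), ?_, ?_⟩
    · have h1 := vtx_spec (a := a) hT ⟨1, by omega⟩
      have h2 : S (Fin.castSucc ⟨1, by omega⟩) = e := by
        rw [← hS1]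
        congr 1
      rw [h2] at h1
      exact h1
    · have h1 := vtx_spec (a := a) hT 0
      have h2 : S (Fin.castSucc 0) = e' := hS0
      rw [h2] at h1
      exact h1

theorem exists_sep (hG : GenPos c a) (hm : d + 1 ≤ m) {e e' : Fin (m + 1)} (h : e ≠ e') :
    ∃ x : Fin (d + 1) → K, ∑ j, c e j * x j = a e ∧ ∑ j, c e' j * x j ≠ a e' := by
  obtain ⟨S, hS, hS0, hS1⟩ := exists_simplex (d := d) hm h
  have hT := hG.1 _ (injective_face hS 0)
  have h1 : ∀ p : Fin (d + 1), ∑ j, c (S p.succ) j *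
      vtx c a (fun p => S ((0 : Fin (d + 2)).succAbove p)) j = a (S p.succ) := by
    intro p
    have h1 := vtx_spec (a := a) hT p
    simp only [Fin.succAbove_zero] at h1
    simp only [Fin.succAbove_zero]
    exact h1
  refine ⟨vtx c a fun p => S ((0 : Fin (d + 2)).succAbove p), ?_, ?_⟩
  · have h2 := h1 0
    have h3 : S (Fin.succ 0) = e := hS1
    rw [h3] at h2
    exact h2
  · obtain ⟨i, hi⟩ := hG.2 S hS (vtx c a fun p => S ((0 : Fin (d + 2)).succAbove p))
    revert hi
    refine Fin.cases ?_ (fun p => ?_) i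
    · rw [hS0]
      exact fun h => h
    · intro hi
      exact absurd (h1 p) hi

theorem irreducible_dPhi {F : Type*} [Field F] (φ : K →+* F) (hG : GenPos c a) (hd : 1 ≤ d)
    (hm : d + 1 ≤ m) {lam : K} (hlam : lam ≠ 0) {t : F} (ht : t ≠ 0) :
    Irreducible (MvPolynomial.map φ (dPhi lam c a) - C t) := by
  have hrow : ∀ e, c e ≠ 0 := row_ne_zero hG.1 (by omega)
  have hev : ∀ (x : Fin (d + 1) → K) (e : Fin (m + 1)),
      eval (fun j => φ (x j)) (MvPolynomial.map φ (lf c a e)) =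
        φ (∑ j, c e j * x j - a e) := by
    intro x e
    rw [map_lf_eq, map_sub, map_sum, map_sub, map_sum, eval_C]
    simp only [map_mul, eval_C, eval_X]
  have h1 : MvPolynomial.map φ (dPhi lam c a) =
      C (φ lam) * ∏ e, MvPolynomial.map φ (lf c a e) := by
    unfold dPhi
    rw [map_mul, MvPolynomial.map_C, map_prod]
  rw [h1]
  refine irreducible_forms _ ((map_ne_zero φ).2 hlam) ht (fun e h0 => ?_)
    (fun e => lin_lf φ c a e (hrow e)) (fun e e' => ?_) (fun e e' hee => ?_)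
  · obtain ⟨e2, he2⟩ : ∃ e2 : Fin (m + 1), e2 ≠ e := by
      by_cases h0 : e = 0
      · refine ⟨⟨1, by omega⟩, fun h1 => ?_⟩
        rw [h0] at h1
        have := congrArg Fin.val h1
        simp at this
      · exact ⟨0, fun h => h0 h.symm⟩
    obtain ⟨x, -, hx⟩ := exists_sep hG hm he2
    have h2 := hev x e
    rw [h0, map_zero] at h2
    exact hx (sub_eq_zero.1 ((map_eq_zero φ).1 h2.symm))
  · obtain ⟨x, hx1, hx2⟩ := exists_common hG hd hm e e'
    refine ⟨fun j => φ (x j), ?_, ?_⟩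
    · rw [hev, hx1, sub_self, map_zero]
    · rw [hev, hx2, sub_self, map_zero]
  · obtain ⟨x, hx1, hx2⟩ := exists_sep hG hm hee
    refine ⟨fun j => φ (x j), ?_, ?_⟩
    · rw [hev, hx1, sub_self, map_zero]
    · rw [hev]
      exact (map_ne_zero φ).2 (sub_ne_zero.2 hx2)

end points

section prime

variable {K : Type*} [Field K] {n d m : ℕ} {c : Fin (m + 1) → Fin (d + 1) → K}
  {a : Fin (m + 1) → K}

/-- The polynomial `λ ∏_e L_e - P` is not a zero divisor modulo constants. -/
theorem dvd_of_mul {B : Type*} [CommRing B] (f : K →+* B) {p : MvPolynomial (Fin (d + 1)) K}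
    (hp : ∀ r, p ≠ C r) {P b : B} {g h : MvPolynomial (Fin (d + 1)) B}
    (hgh : C b * g = (MvPolynomial.map f p - C P) * h) : C b ∣ h := by
  by_cases hb : IsUnit b
  · exact (hb.map C).dvd
  set I : Ideal B := Ideal.span {b} with hI
  have hIne : I ≠ ⊤ := by
    rw [hI, Ne, Ideal.span_singleton_eq_top]
    exact hb
  have : Nontrivial (B ⧸ I) := Ideal.Quotient.nontrivial_iff.2 hIne
  set π : B →+* B ⧸ I := Ideal.Quotient.mk I with hπ
  rw [MvPolynomial.C_dvd_iff_map_hom_eq_zero π b (fun r => by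
    rw [hπ, Ideal.Quotient.eq_zero_iff_mem, hI, Ideal.mem_span_singleton])]
  set G : MvPolynomial (Fin (d + 1)) (B ⧸ I) :=
    MvPolynomial.map (π.comp f) p - C (π P) with hG
  have h1 : G * MvPolynomial.map π h = 0 := by
    have h2 := congrArg (MvPolynomial.map π) hgh
    rw [map_mul, map_mul, MvPolynomial.map_C, map_sub, MvPolynomial.map_map,
      MvPolynomial.map_C] at h2
    have h3 : π b = 0 := Ideal.Quotient.eq_zero_iff_mem.2 (Ideal.mem_span_singleton_self b)
    rw [h3, C_0, zero_mul] at h2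
    exact h2.symm
  -- the leading coefficient
  let mo : MonomialOrder (Fin (d + 1)) := MonomialOrder.lex
  have hp0 : p ≠ 0 := by
    have := hp 0
    rwa [C_0] at this
  set α := mo.degree p with hα
  have hlc : p.coeff α ≠ 0 := mo.leadingCoeff_ne_zero_iff.2 hp0
  have hinj : Function.Injective (π.comp f) := (π.comp f).injective
  have hα0 : α ≠ 0 := by
    intro h0
    apply hp (p.coeff 0)
    have h2 : p = C (mo.leadingCoeff p) := mo.eq_C_of_degree_eq_zero (by rw [← hα, h0])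
    rw [h2]
    simp
  have hcoef : G.coeff α = (π.comp f) (p.coeff α) := by
    rw [hG, coeff_sub, coeff_map, coeff_C, if_neg (Ne.symm hα0), sub_zero]
  have hunit : IsUnit (G.coeff α) := by
    rw [hcoef]
    exact (isUnit_iff_ne_zero.2 hlc).map _
  have hdeg : mo.degree G = α := by
    apply mo.toSyn.injective
    apply le_antisymm
    · refine mo.degree_le_iff.2 fun β hβ => ?_
      rw [mem_support_iff, hG, coeff_sub, coeff_map, coeff_C] at hβ
      by_cases h0 : 0 = β
      · rw [← h0, map_zero]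
        exact mo.zero_le _
      · rw [if_neg h0, sub_zero] at hβ
        refine mo.le_degree ?_
        rw [mem_support_iff]
        intro h2
        rw [h2, map_zero] at hβ
        exact hβ rfl
    · refine mo.le_degree ?_
      rw [mem_support_iff]
      exact hunit.ne_zero
  have hmem : G ∈ nonZeroDivisors (MvPolynomial (Fin (d + 1)) (B ⧸ I)) := by
    refine mo.mem_nonZeroDivisors_of_leadingCoeff_mem_nonZeroDivisors ?_
    unfold MonomialOrder.leadingCoeff
    rw [hdeg]
    exact hunit.mem_nonZeroDivisors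
  exact (mul_left_mem_nonZeroDivisors_eq_zero_iff hmem).1 h1

attribute [local instance] MvPolynomial.algebraMvPolynomial in
/-- The polynomial `λ ∏_e L_e - P` is prime. -/
theorem prime_of_domain {B : Type*} [CommRing B] [IsDomain B] (f : K →+* B) (hG : GenPos c a)
    (hd : 1 ≤ d) (hm : d + 1 ≤ m) {lam : K} (hlam : lam ≠ 0) {P : B} (hP : P ≠ 0) :
    Prime (MvPolynomial.map f (dPhi lam c a) - C P) := by
  have hrow : ∀ e, c e ≠ 0 := row_ne_zero hG.1 (by omega)
  set G : MvPolynomial (Fin (d + 1)) B := MvPolynomial.map f (dPhi lam c a) - C P with hGdef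
  set F := FractionRing B
  set ι : MvPolynomial (Fin (d + 1)) B →+* MvPolynomial (Fin (d + 1)) F :=
    MvPolynomial.map (algebraMap B F) with hι
  have hιinj : Function.Injective ι :=
    MvPolynomial.map_injective _ (IsFractionRing.injective B F)
  have hιG : ι G = MvPolynomial.map ((algebraMap B F).comp f) (dPhi lam c a) -
      C (algebraMap B F P) := by
    rw [hGdef, map_sub, hι, MvPolynomial.map_map, MvPolynomial.map_C]
  have hP' : algebraMap B F P ≠ 0 := by
    rw [Ne, map_eq_zero_iff _ (IsFractionRing.injective B F)]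
    exact hP
  have hirr : Irreducible (ι G) := by
    rw [hιG]
    exact irreducible_dPhi _ hG hd hm hlam hP'
  have hpr : Prime (ι G) := hirr.prime
  have hdesc : ∀ p : MvPolynomial (Fin (d + 1)) B, ι G ∣ ι p → G ∣ p := by
    rintro p ⟨k, hk⟩
    obtain ⟨⟨k', s⟩, hs⟩ := IsLocalization.surj ((nonZeroDivisors B).map
      (MvPolynomial.C (σ := Fin (d + 1)))) k
    obtain ⟨b, hb, hbs⟩ := s.2
    have hb0 : b ≠ 0 := nonZeroDivisors.ne_zero hb
    have h1 : k * ι (C b) = ι k' := by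
      have h2 : k * ι (s : MvPolynomial (Fin (d + 1)) B) = ι k' := hs
      have h3 : (C b : MvPolynomial (Fin (d + 1)) B) = s := hbs
      rw [h3]
      exact h2
    have h2 : C b * p = G * k' := by
      apply hιinj
      rw [map_mul, map_mul, hk, ← h1]
      ring
    obtain ⟨k'', hk''⟩ := dvd_of_mul f (fun r => dPhi_ne_C hrow hlam r) h2
    refine ⟨k'', ?_⟩
    have h3 : C b * p = C b * (G * k'') := by
      rw [h2, hk'']
      ring
    have h4 : (C b : MvPolynomial (Fin (d + 1)) B) ≠ 0 := by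
      rw [Ne, C_eq_zero]
      exact hb0
    exact mul_left_cancel₀ h4 h3
  refine ⟨fun h => hpr.ne_zero (by rw [h, map_zero]), fun h => hpr.not_isUnit (h.map ι),
    fun p q hpq => ?_⟩
  have h1 : ι G ∣ ι p * ι q := by
    rw [← map_mul]
    exact map_dvd ι hpq
  rcases hpr.dvd_or_dvd h1 with h2 | h2
  · exact Or.inl (hdesc p h2)
  · exact Or.inr (hdesc q h2)

/-- The coordinate ring of the variety is a domain. -/
theorem isDomain_FRing {P : LP K n} (hP : P ≠ 0) {lam : K} (hlam : lam ≠ 0) (hG : GenPos c a)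
    (hd : 1 ≤ d) (hm : d + 1 ≤ m) : IsDomain (FRing P lam c a) := by
  have h1 : Prime (feqn P lam c a) := prime_of_domain (cK K n) hG hd hm hlam hP
  have h2 : (Ideal.span {feqn P lam c a}).IsPrime :=
    (Ideal.span_singleton_prime h1.ne_zero).2 h1
  exact Ideal.Quotient.isDomain (Ideal.span {feqn P lam c a})

end prime

end Pool.Agent.Helper39.SB
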