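import Pool.Agent.Helper39.SB.Unr
set_option autoImplicit false

/-!
Examples of Steinberg polynomials: the polynomials
`∏_j (1 + ∑_{β i = j} y_i)^(#{i : β i = j} + 1) / (y_1 ... y_n)` of the mirror families of the complete
intersections of Calabi-Yau type.
-/

namespace Pool.Agent.Helper39.SB

section nat

variable {K : Type*} [Field K] {n : ℕ}

/-- the coefficients are natural numbers -/
def NatC (f : LP K n) : Prop := ∃ F : (Fin n → ℤ) → ℕ, ∀ w, f.coeff w = (F w : K)

theorem coeff_mul_sum (f g : LP K n) (x : Fin n → ℤ) :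
    (f * g).coeff x = ∑ u ∈ f.coeff.support, ∑ v ∈ g.coeff.support,
      if u + v = x then f.coeff u * g.coeff v else 0 := by
  classical
  rw [AddMonoidAlgebra.coeff_mul]
  rfl

theorem coeff_mul_nat {f g : LP K n} {F G : (Fin n → ℤ) → ℕ} (hF : ∀ w, f.coeff w = (F w : K))
    (hG : ∀ w, g.coeff w = (G w : K)) (x : Fin n → ℤ) :
    (f * g).coeff x = ((∑ u ∈ f.coeff.support, ∑ v ∈ g.coeff.support,
      if u + v = x then F u * G v else 0 : ℕ) : K) := by
  rw [coeff_mul_sum, Nat.cast_sum]
  refine Finset.sum_congr rfl fun u _ => ?_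
  rw [Nat.cast_sum]
  refine Finset.sum_congr rfl fun v _ => ?_
  split_ifs
  · rw [hF, hG, Nat.cast_mul]
  · rw [Nat.cast_zero]

theorem NatC.mul {f g : LP K n} (hf : NatC f) (hg : NatC g) : NatC (f * g) := by
  obtain ⟨F, hF⟩ := hf
  obtain ⟨G, hG⟩ := hg
  exact ⟨_, coeff_mul_nat hF hG⟩

theorem NatC.add {f g : LP K n} (hf : NatC f) (hg : NatC g) : NatC (f + g) := by
  obtain ⟨F, hF⟩ := hf
  obtain ⟨G, hG⟩ := hg
  refine ⟨fun w => F w + G w, fun w => ?_⟩
  rw [AddMonoidAlgebra.coeff_add, Finsupp.add_apply, hF, hG, Nat.cast_add]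

theorem natC_single (w : Fin n → ℤ) : NatC (AddMonoidAlgebra.single w 1 : LP K n) := by
  classical
  refine ⟨fun u => if w = u then 1 else 0, fun u => ?_⟩
  rw [AddMonoidAlgebra.coeff_single, Finsupp.single_apply]
  show (if w = u then (1 : K) else 0) = ((if w = u then 1 else 0 : ℕ) : K)
  by_cases h : w = u
  · rw [if_pos h, if_pos h, Nat.cast_one]
  · rw [if_neg h, if_neg h, Nat.cast_zero]

theorem natC_one : NatC (1 : LP K n) := natC_single 0

theorem natC_prod {ι : Type*} (t : Finset ι) (f : ι → LP K n) (hf : ∀ j ∈ t, NatC (f j)) :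
    NatC (∏ j ∈ t, f j) := by
  classical
  induction t using Finset.induction_on with
  | empty => simpa using natC_one
  | insert j t hj ih =>
    rw [Finset.prod_insert hj]
    exact (hf j (Finset.mem_insert_self j t)).mul
      (ih fun i hi => hf i (Finset.mem_insert_of_mem hi))

theorem natC_pow {f : LP K n} (hf : NatC f) (k : ℕ) : NatC (f ^ k) := by
  induction k with
  | zero => rw [pow_zero]; exact natC_one
  | succ k ih => rw [pow_succ]; exact ih.mul hf

theorem add_mem_support [CharZero K] {f g : LP K n} (hf : NatC f) (hg : NatC g) {u v : Fin n → ℤ}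
    (hu : u ∈ f.coeff.support) (hv : v ∈ g.coeff.support) : u + v ∈ (f * g).coeff.support := by
  obtain ⟨F, hF⟩ := hf
  obtain ⟨G, hG⟩ := hg
  rw [Finsupp.mem_support_iff, coeff_mul_nat hF hG, Nat.cast_ne_zero]
  have h1 : F u ≠ 0 := by
    have := Finsupp.mem_support_iff.1 hu
    rw [hF] at this
    exact_mod_cast this
  have h2 : G v ≠ 0 := by
    have := Finsupp.mem_support_iff.1 hv
    rw [hG] at this
    exact_mod_cast this
  have h3 : F u * G v ≤ ∑ u' ∈ f.coeff.support, ∑ v' ∈ g.coeff.support,
      if u' + v' = u + v then F u' * G v' else 0 := by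
    refine le_trans ?_ (Finset.single_le_sum (fun _ _ => Nat.zero_le _) hu)
    refine le_trans ?_ (Finset.single_le_sum (fun _ _ => Nat.zero_le _) hv)
    rw [if_pos rfl]
  have h4 : 0 < F u * G v := Nat.pos_of_ne_zero (mul_ne_zero h1 h2)
  omega

theorem sum_mem_support [CharZero K] {ι : Type*} (t : Finset ι) (f : ι → LP K n)
    (w : ι → Fin n → ℤ) (hf : ∀ j ∈ t, NatC (f j)) (hw : ∀ j ∈ t, w j ∈ (f j).coeff.support) :
    ∑ j ∈ t, w j ∈ (∏ j ∈ t, f j).coeff.support := by
  classical
  induction t using Finset.induction_on with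
  | empty =>
    rw [Finset.sum_empty, Finset.prod_empty, Finsupp.mem_support_iff]
    simp [AddMonoidAlgebra.one_def]
  | insert j t hj ih =>
    rw [Finset.prod_insert hj, Finset.sum_insert hj]
    exact add_mem_support (hf j (Finset.mem_insert_self j t))
      (natC_prod t f fun i hi => hf i (Finset.mem_insert_of_mem hi))
      (hw j (Finset.mem_insert_self j t))
      (ih (fun i hi => hf i (Finset.mem_insert_of_mem hi))
        fun i hi => hw i (Finset.mem_insert_of_mem hi))

theorem nsmul_mem_support [CharZero K] {f : LP K n} (hf : NatC f) {u : Fin n → ℤ}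
    (hu : u ∈ f.coeff.support) (k : ℕ) : k • u ∈ (f ^ k).coeff.support := by
  induction k with
  | zero =>
    rw [zero_smul, pow_zero, Finsupp.mem_support_iff]
    simp [AddMonoidAlgebra.one_def]
  | succ k ih =>
    rw [pow_succ, succ_nsmul]
    exact add_mem_support (natC_pow hf k) hf ih hu

end nat

section stb

variable {K : Type*} [Field K] {n : ℕ}

theorem rootU_one : RootU (1 : K) := ⟨1, one_ne_zero, one_pow 1⟩

theorem steinberg_one : Steinberg ⊥ (1 : LP K n) := Steinberg.mono 0 1 rootU_one

theorem steinberg_prod {ι : Type*} (t : Finset ι) (f : ι → LP K n)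
    (hf : ∀ j ∈ t, ∃ V, Steinberg V (f j)) : ∃ V, Steinberg V (∏ j ∈ t, f j) := by
  classical
  induction t using Finset.induction_on with
  | empty =>
    rw [Finset.prod_empty]
    exact ⟨⊥, steinberg_one⟩
  | insert j t hj ih =>
    rw [Finset.prod_insert hj]
    obtain ⟨V, hV⟩ := hf j (Finset.mem_insert_self j t)
    obtain ⟨W, hW⟩ := ih fun i hi => hf i (Finset.mem_insert_of_mem hi)
    exact ⟨_, hV.mul hW⟩

theorem steinberg_pow {f : LP K n} (hf : ∃ V, Steinberg V f) (k : ℕ) :
    ∃ V, Steinberg V (f ^ k) := by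
  have h := steinberg_prod (Finset.range k) (fun _ => f) fun _ _ => hf
  rwa [Finset.prod_const, Finset.card_range] at h

theorem natC_bf (s : Finset (Fin n)) : NatC (bf K s) := by
  classical
  unfold bf
  refine natC_one.add ?_
  induction s using Finset.induction_on with
  | empty =>
    rw [Finset.sum_empty]
    exact ⟨fun _ => 0, fun w => by simp⟩
  | insert j t hj ih =>
    rw [Finset.sum_insert hj]
    exact (natC_single _).add ih

theorem coeff_bf_zero (s : Finset (Fin n)) : (bf K s).coeff 0 = 1 := by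
  classical
  unfold bf
  rw [AddMonoidAlgebra.coeff_add, Finsupp.add_apply, AddMonoidAlgebra.one_def,
    AddMonoidAlgebra.coeff_single, Finsupp.single_eq_same, AddMonoidAlgebra.coeff_sum,
    Finsupp.finsetSum_apply]
  have h : ∀ i ∈ s, (AddMonoidAlgebra.single (Pi.single i 1 : Fin n → ℤ) (1 : K)).coeff 0 = 0 := by
    intro i _
    rw [AddMonoidAlgebra.coeff_single, Finsupp.single_apply, if_neg]
    intro h1
    have h2 := congrFun h1 i
    rw [Pi.single_eq_same] at h2
    exact one_ne_zero h2
  rw [Finset.sum_congr rfl h, Finset.sum_const_zero, add_zero]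

theorem coeff_bf_single (s : Finset (Fin n)) {i : Fin n} (hi : i ∈ s) :
    (bf K s).coeff (Pi.single i 1) = 1 := by
  classical
  unfold bf
  rw [AddMonoidAlgebra.coeff_add, Finsupp.add_apply, AddMonoidAlgebra.one_def,
    AddMonoidAlgebra.coeff_single, Finsupp.single_apply, if_neg, AddMonoidAlgebra.coeff_sum,
    Finsupp.finsetSum_apply, zero_add, Finset.sum_eq_single i]
  · rw [AddMonoidAlgebra.coeff_single, Finsupp.single_eq_same]
  · intro j _ hj
    rw [AddMonoidAlgebra.coeff_single, Finsupp.single_apply, if_neg]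
    intro h1
    have h2 := congrFun h1 j
    rw [Pi.single_eq_same, Pi.single_eq_of_ne hj] at h2
    exact one_ne_zero h2
  · intro h
    exact absurd hi h
  · intro h1
    have h2 := congrFun h1 i
    rw [Pi.single_eq_same] at h2
    exact zero_ne_one h2

theorem steinberg_bf (s : Finset (Fin n)) :
    ∃ V : Submodule ℚ (Fin n → ℚ), Steinberg V (bf K s) ∧ ∀ v ∈ V, ∀ j, j ∉ s → v j = 0 := by
  classical
  induction s using Finset.induction_on with
  | empty =>
    refine ⟨⊥, ?_, fun v hv j _ => ?_⟩
    · have h : bf K (∅ : Finset (Fin n)) = 1 := by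
        unfold bf
        rw [Finset.sum_empty, add_zero]
      rw [h]
      exact steinberg_one
    · rw [(Submodule.mem_bot ℚ).1 hv, Pi.zero_apply]
  | insert j s hj ih =>
    obtain ⟨V, hV, hV2⟩ := ih
    have h1 : bf K (insert j s) = bf K s + AddMonoidAlgebra.single (Pi.single j 1) 1 := by
      unfold bf
      rw [Finset.sum_insert hj]
      ring
    have h2 : (0 : Fin n → ℤ) ∈ (bf K s).coeff.support := by
      rw [Finsupp.mem_support_iff, coeff_bf_zero]
      exact one_ne_zero
    have h3 : qv ((Pi.single j 1 : Fin n → ℤ) - 0) ∉ V := by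
      intro h
      have h4 := hV2 _ h j hj
      rw [sub_zero] at h4
      unfold qv at h4
      rw [Pi.single_eq_same, Int.cast_one] at h4
      exact one_ne_zero h4
    refine ⟨V ⊔ Submodule.span ℚ {qv ((Pi.single j 1 : Fin n → ℤ) - 0)}, ?_, fun v hv i hi => ?_⟩
    · rw [h1]
      exact Steinberg.cone (0 : Fin n → ℤ) (Pi.single j 1) 1 rootU_one hV h2 h3
    · obtain ⟨x, hx, y, hy, rfl⟩ := Submodule.mem_sup.1 hv
      obtain ⟨r, rfl⟩ := Submodule.mem_span_singleton.1 hy
      rw [Finset.mem_insert, not_or] at hi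
      rw [Pi.add_apply, hV2 x hx i hi.2, Pi.smul_apply]
      unfold qv
      rw [sub_zero, Pi.single_eq_of_ne hi.1, Int.cast_zero, smul_zero, add_zero]

end stb

section mirror

variable {K : Type*} [Field K] {n k : ℕ}

theorem steinberg_mirrorP (β : Fin n → Fin k) : ∃ V, Steinberg V (mirrorP K β) := by
  obtain ⟨V, hV⟩ := steinberg_prod Finset.univ (fun j : Fin k =>
    bf K (Finset.univ.filter fun i => β i = j) ^
      ((Finset.univ.filter fun i => β i = j).card + 1)) fun j _ =>
        steinberg_pow (by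
          obtain ⟨V, hV, -⟩ := steinberg_bf (K := K) (Finset.univ.filter fun i => β i = j)
          exact ⟨V, hV⟩) _
  exact ⟨_, hV.mul (Steinberg.mono (fun _ => -1) 1 rootU_one)⟩

theorem interior_mirrorP [CharZero K] (β : Fin n → Fin k) : Interior (mirrorP K β) := by
  classical
  intro μ hμ
  set s : Fin k → Finset (Fin n) := fun j => Finset.univ.filter fun i => β i = j with hs
  have hex : ∀ j, ∃ w ∈ (bf K (s j)).coeff.support, ∀ u ∈ (bf K (s j)).coeff.support,
      ∑ i, u i * μ i ≤ ∑ i, w i * μ i := fun j =>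
    Finset.exists_max_image _ (fun w : Fin n → ℤ => ∑ i, w i * μ i)
      ⟨0, by rw [Finsupp.mem_support_iff, coeff_bf_zero]; exact one_ne_zero⟩
  choose w hw hmax using hex
  set M : Fin k → ℤ := fun j => ∑ i, w j i * μ i with hM
  have hM0 : ∀ j, 0 ≤ M j := fun j => by
    have h1 := hmax j 0 (by rw [Finsupp.mem_support_iff, coeff_bf_zero]; exact one_ne_zero)
    simpa using h1
  have hM1 : ∀ i, μ i ≤ M (β i) := fun i => by
    have h1 := hmax (β i) (Pi.single i 1) (by
      rw [Finsupp.mem_support_iff, coeff_bf_single _ (by simp [hs])]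
      exact one_ne_zero)
    rw [Finset.sum_eq_single i] at h1
    · simpa using h1
    · intro l _ hl
      rw [Pi.single_eq_of_ne hl, zero_mul]
    · intro h
      exact absurd (Finset.mem_univ i) h
  refine ⟨∑ j, ((s j).card + 1) • w j + fun _ => -1, ?_, ?_⟩
  · unfold mirrorP
    refine add_mem_support (natC_prod _ _ fun j _ => natC_pow (natC_bf _) _) (natC_single _)
      (sum_mem_support _ _ _ (fun j _ => natC_pow (natC_bf _) _)
        fun j _ => nsmul_mem_support (natC_bf _) (hw j) _) ?_
    rw [Finsupp.mem_support_iff, AddMonoidAlgebra.coeff_single, Finsupp.single_eq_same]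
    exact one_ne_zero
  · have h1 : ∑ i, (∑ j, ((s j).card + 1) • w j + fun _ => -1 : Fin n → ℤ) i * μ i =
        ∑ j, M j + ∑ i, (M (β i) - μ i) := by
      have h2 : ∑ i, (∑ j, ((s j).card + 1) • w j : Fin n → ℤ) i * μ i =
          ∑ j, (((s j).card : ℤ) + 1) * M j := by
        simp only [Finset.sum_apply, Finset.sum_mul]
        rw [Finset.sum_comm]
        refine Finset.sum_congr rfl fun j _ => ?_
        rw [hM, Finset.mul_sum]
        refine Finset.sum_congr rfl fun i _ => ?_
        rw [Pi.smul_apply, nsmul_eq_mul]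
        push_cast
        ring
      have h3 : ∑ i, M (β i) = ∑ j, ((s j).card : ℤ) * M j := by
        rw [← Finset.sum_fiberwise Finset.univ β fun i => M (β i)]
        refine Finset.sum_congr rfl fun j _ => ?_
        rw [Finset.sum_congr rfl fun i hi => by rw [(Finset.mem_filter.1 hi).2], Finset.sum_const,
          nsmul_eq_mul]
      simp only [Pi.add_apply, add_mul, Finset.sum_add_distrib, h2, Finset.sum_sub_distrib, h3,
        one_mul]
      simp only [neg_mul, one_mul, Finset.sum_neg_distrib]
      ring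
    rw [h1]
    have h4 : 0 ≤ ∑ j, M j := Finset.sum_nonneg fun j _ => hM0 j
    have h5 : 0 ≤ ∑ i, (M (β i) - μ i) := Finset.sum_nonneg fun i _ => sub_nonneg.2 (hM1 i)
    by_contra hcon
    have h6 : ∑ j, M j = 0 := by omega
    have h7 : ∑ i, (M (β i) - μ i) = 0 := by omega
    apply hμ
    funext i
    have h8 := (Finset.sum_eq_zero_iff_of_nonneg fun j _ => hM0 j).1 h6 (β i) (Finset.mem_univ _)
    have h9 := (Finset.sum_eq_zero_iff_of_nonneg fun i _ => sub_nonneg.2 (hM1 i)).1 h7 i
      (Finset.mem_univ _)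
    rw [Pi.zero_apply]
    omega

end mirror

end Pool.Agent.Helper39.SB
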