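import Pool.Agent.Helper39.SB.Vtx
set_option autoImplicit false

/-!
The regulators of the symbols of the simplices on the varieties `P(y) = λ ∏_e L_e(x)`, for large
`λ`.
-/

namespace Pool.Agent.Helper39.SB

open Filter Topology

open Pool.Agent.TH826.MK

open Pool.Agent.TH826.GA (cm gam ku coe_ku lc xv lc_xv contDiff_xv contDiff_lc be be_T al_T be_ne
  injective_face vert splx vert_injective splx_injective)

open Pool.Agent.TH826.SX (det_ne_zero_near pairing_close)

section rows

variable {m : ℕ} (d q : ℕ)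

/-- the angles of the base -/
def ιB (k : Fin d) : Fin (d + 1 + q) := Fin.castAdd q k.succ

/-- the angles of the `y_i` -/
def ιY : Fin (q + 1) → Fin (d + 1 + q) := Fin.cons (Fin.castAdd q 0) fun i => Fin.natAdd (d + 1) i

theorem ιB_injective : Function.Injective (ιB d q) := fun _ _ h =>
  Fin.succ_injective _ (Fin.castAdd_injective _ _ h)

theorem ιY_injective : Function.Injective (ιY d q) := by
  unfold ιY
  rw [Fin.cons_injective_iff]
  refine ⟨?_, Fin.natAdd_injective _ _⟩
  rintro ⟨i, hi⟩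
  have h := congrArg Fin.val hi
  rw [Fin.val_natAdd, Fin.val_castAdd] at h
  simp at h

theorem ιB_ne_ιY (k : Fin d) (i : Fin (q + 1)) : ιB d q k ≠ ιY d q i := by
  revert i
  refine Fin.cases ?_ fun i => ?_
  · intro h
    have h1 : k.succ = 0 := Fin.castAdd_injective _ _ h
    exact Fin.succ_ne_zero _ h1
  · intro h
    have h1 : ιY d q i.succ = Fin.natAdd (d + 1) i := rfl
    rw [h1] at h
    have h2 := congrArg Fin.val h
    unfold ιB at h2
    rw [Fin.val_natAdd, Fin.val_castAdd] at h2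
    have h3 := k.succ.isLt
    omega

variable (w₀ : Fin (q + 1) → ℤ)

/-- the orders of `L_e` at the vertex `T` -/
noncomputable def Zr (T : Fin (d + 1) → Fin (m + 1)) (e : Fin (m + 1)) :
    Fin (d + 1 + q + 1) → ℝ :=
  Fin.cons (oT T e) fun j => oT T e * (nw (ιY d q) w₀ j - nb (ιB d q) j) + bT T (ιB d q) e j

/-- the orders of `y_i` -/
noncomputable def Yr (i : Fin (q + 1)) : Fin (d + 1 + q + 1) → ℝ :=
  Fin.cons 0 fun j => if j = ιY d q i then 1 else 0

variable {d}

/-- the matrix of the orders of the entries at the vertex `T` -/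
noncomputable def RF (T : Fin (d + 1) → Fin (m + 1)) (S : Fin (d + 2) → Fin (m + 1)) :
    Matrix (Fin (d + 1 + q + 1)) (Fin (d + 1 + q + 1)) ℝ :=
  Matrix.of (Fin.cons (Yr d q 0) (Fin.append
    (fun k : Fin (d + 1) => Zr d q w₀ T (S k.succ) - Zr d q w₀ T (S 0))
    (fun i : Fin q => Yr d q i.succ)))

theorem RF_u (T : Fin (d + 1) → Fin (m + 1)) (S : Fin (d + 2) → Fin (m + 1)) (k : Fin (d + 1)) :
    RF q w₀ T S (Fin.castAdd q k).succ = Zr d q w₀ T (S k.succ) - Zr d q w₀ T (S 0) :=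
  Fin.append_left (fun k : Fin (d + 1) => Zr d q w₀ T (S k.succ) - Zr d q w₀ T (S 0))
    (fun i : Fin q => Yr d q i.succ) k

theorem RF_y (T : Fin (d + 1) → Fin (m + 1)) (S : Fin (d + 2) → Fin (m + 1)) (i : Fin q) :
    RF q w₀ T S (Fin.natAdd (d + 1) i).succ = Yr d q i.succ :=
  Fin.append_right (fun k : Fin (d + 1) => Zr d q w₀ T (S k.succ) - Zr d q w₀ T (S 0))
    (fun i : Fin q => Yr d q i.succ) i

/-- the rows at the vertex -/
noncomputable def ZZ (d : ℕ) (k : Fin (d + 1)) : Fin (d + 1 + q + 1) → ℝ :=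
  Fin.cons (if (0 : Fin (d + 1)) = k then 1 else 0) fun j =>
    (if (0 : Fin (d + 1)) = k then 1 else 0) * (nw (ιY d q) w₀ j - nb (ιB d q) j) +
      ∑ l : Fin d, if l.succ = k then (if j = ιB d q l then 1 else 0) else 0

/-- the matrix of the orders at the vertex itself -/
noncomputable def M0 (d : ℕ) : Matrix (Fin (d + 1 + q + 1)) (Fin (d + 1 + q + 1)) ℝ :=
  Matrix.of (Fin.cons (Yr d q 0) (Fin.append (fun k : Fin (d + 1) => ZZ q w₀ d k)
    (fun i : Fin q => Yr d q i.succ)))

theorem Zr_T {T : Fin (d + 1) → Fin (m + 1)} (hT : Function.Injective T) (k : Fin (d + 1)) :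
    Zr d q w₀ T (T k) = ZZ q w₀ d k := by
  unfold Zr ZZ oT bT
  have h : ∀ l, (T l = T k) = (l = k) := fun l => propext hT.eq_iff
  simp only [h]

theorem Zr_ne {T : Fin (d + 1) → Fin (m + 1)} {e : Fin (m + 1)} (he : ∀ j, T j ≠ e) :
    Zr d q w₀ T e = 0 := by
  unfold Zr oT bT
  simp only [if_neg (he _)]
  funext j
  refine Fin.cases ?_ (fun j => ?_) j
  · rfl
  · rw [Fin.cons_succ]
    simp

theorem det_M0 (d : ℕ) : (M0 q w₀ d).det ≠ 0 := by
  intro h
  obtain ⟨v, hv, h0⟩ := Matrix.exists_vecMul_eq_zero_iff.2 h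
  apply hv
  have hcol : ∀ j, v 0 * Yr d q 0 j + ((∑ k : Fin (d + 1), v (Fin.castAdd q k).succ *
      ZZ q w₀ d k j) + ∑ i : Fin q, v (Fin.natAdd (d + 1) i).succ * Yr d q i.succ j) = 0 := by
    intro j
    have h1 := congrFun h0 j
    rw [Matrix.vecMul, dotProduct, Fin.sum_univ_succ, Fin.sum_univ_add] at h1
    have e1 : M0 q w₀ d 0 j = Yr d q 0 j := rfl
    have e2 : ∀ k : Fin (d + 1), M0 q w₀ d (Fin.castAdd q k).succ j = ZZ q w₀ d k j := by
      intro k
      exact congrFun (Fin.append_left (fun k : Fin (d + 1) => ZZ q w₀ d k)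
        (fun i : Fin q => Yr d q i.succ) k) j
    have e3 : ∀ i : Fin q, M0 q w₀ d (Fin.natAdd (d + 1) i).succ j = Yr d q i.succ j := by
      intro i
      exact congrFun (Fin.append_right (fun k : Fin (d + 1) => ZZ q w₀ d k)
        (fun i : Fin q => Yr d q i.succ) i) j
    simp only [e1, e2, e3] at h1
    exact h1
  -- the first column
  have hv0 : v (Fin.castAdd q 0).succ = 0 := by
    have h1 := hcol 0
    have e1 : ∀ i, Yr d q i 0 = 0 := fun i => rfl
    have e2 : ∀ k : Fin (d + 1), ZZ q w₀ d k 0 = if (0 : Fin (d + 1)) = k then 1 else 0 :=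
      fun k => rfl
    simp only [e1, e2, mul_zero, Finset.sum_const_zero, add_zero, zero_add, mul_ite, mul_one,
      Finset.sum_ite_eq, Finset.mem_univ, if_true] at h1
    exact h1
  -- the columns of the base
  have hvk : ∀ k : Fin (d + 1), v (Fin.castAdd q k).succ = 0 := by
    refine Fin.cases hv0 fun l => ?_
    have h1 := hcol (ιB d q l).succ
    have e1 : ∀ i, Yr d q i (ιB d q l).succ = 0 := fun i => by
      unfold Yr
      rw [Fin.cons_succ, if_neg (ιB_ne_ιY d q l i)]
    have e2 : ∀ k : Fin (d + 1), v (Fin.castAdd q k).succ * ZZ q w₀ d k (ιB d q l).succ =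
        if l.succ = k then v (Fin.castAdd q k).succ else 0 := by
      intro k
      unfold ZZ
      rw [Fin.cons_succ]
      by_cases hk : (0 : Fin (d + 1)) = k
      · subst hk
        rw [hv0, zero_mul, ite_self]
      · rw [if_neg hk, zero_mul, zero_add]
        by_cases hl : l.succ = k
        · subst hl
          rw [if_pos rfl, Finset.sum_eq_single l]
          · simp
          · intro l' _ hl'
            rw [if_neg fun h => hl' (Fin.succ_injective _ h)]
          · intro h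
            exact absurd (Finset.mem_univ l) h
        · rw [if_neg hl, Finset.sum_eq_zero, mul_zero]
          intro l' _
          by_cases hl' : l'.succ = k
          · rw [if_pos hl', if_neg]
            intro h
            exact hl (by rw [ιB_injective d q h, hl'])
          · rw [if_neg hl']
    simp only [e1, e2, mul_zero, Finset.sum_const_zero, add_zero, zero_add,
      Finset.sum_ite_eq, Finset.mem_univ, if_true] at h1
    exact h1
  -- the columns of the `y_i`
  have hy : ∀ i : Fin (q + 1), v 0 * Yr d q 0 (ιY d q i).succ +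
      ∑ i' : Fin q, v (Fin.natAdd (d + 1) i').succ * Yr d q i'.succ (ιY d q i).succ = 0 := by
    intro i
    have h1 := hcol (ιY d q i).succ
    simp only [hvk, zero_mul, Finset.sum_const_zero, zero_add] at h1
    exact h1
  have hYr : ∀ i i' : Fin (q + 1), Yr d q i (ιY d q i').succ = if i' = i then 1 else 0 := by
    intro i i'
    unfold Yr
    rw [Fin.cons_succ]
    by_cases h : i' = i
    · rw [if_pos h, if_pos (by rw [h])]
    · rw [if_neg h, if_neg fun h' => h (ιY_injective d q h')]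
  simp only [hYr] at hy
  have hy0 : v 0 = 0 := by
    have h1 := hy 0
    rw [if_pos rfl, mul_one, Finset.sum_eq_zero, add_zero] at h1
    · exact h1
    · intro i' _
      rw [if_neg (Fin.succ_ne_zero i').symm, mul_zero]
  have hyi : ∀ i : Fin q, v (Fin.natAdd (d + 1) i).succ = 0 := by
    intro i
    have h1 := hy i.succ
    rw [if_neg (Fin.succ_ne_zero i), mul_zero, zero_add, Finset.sum_eq_single i] at h1
    · rwa [if_pos rfl, mul_one] at h1
    · intro i' _ hi'
      rw [if_neg fun h => hi' (Fin.succ_injective _ h).symm, mul_zero]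
    · intro h
      exact absurd (Finset.mem_univ i) h
  funext l
  refine Fin.cases hy0 (fun l => ?_) l
  exact Fin.addCases (fun k => hvk k) (fun i => hyi i) l

theorem RF_same (t : {s : Finset (Fin m) // s.card = d + 1}) :
    RF q w₀ (vert t) (splx t) = M0 q w₀ d := by
  have h0 : Zr d q w₀ (vert t) (splx t 0) = 0 :=
    Zr_ne q w₀ (T := vert t) (fun j => Fin.succ_ne_zero _)
  have h1 : ∀ k : Fin (d + 1), Zr d q w₀ (vert t) (splx t k.succ) = ZZ q w₀ d k := fun k =>
    Zr_T q w₀ (vert_injective t) k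
  unfold RF M0
  simp only [h0, h1, sub_zero]

theorem det_other {t t' : {s : Finset (Fin m) // s.card = d + 1}} (h : t ≠ t') :
    (RF q w₀ (vert t) (splx t')).det = 0 := by
  obtain ⟨x, hx', hx⟩ : ∃ x ∈ t'.1, x ∉ t.1 := by
    by_contra hcon
    push Not at hcon
    apply h
    apply Subtype.ext
    exact (Finset.eq_of_subset_of_card_le (fun x hx => hcon x hx) (by rw [t.2, t'.2])).symm
  have h1 : x ∈ Set.range (t'.1.orderEmbOfFin t'.2) := by
    rw [Finset.range_orderEmbOfFin]
    exact hx'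
  obtain ⟨k, hk⟩ := h1
  refine Matrix.det_eq_zero_of_row_eq_zero (Fin.castAdd q k).succ fun j => ?_
  have h0 : Zr d q w₀ (vert t) (splx t' 0) = 0 :=
    Zr_ne q w₀ (T := vert t) (fun j => Fin.succ_ne_zero _)
  have h3 : splx t' k.succ = x.succ := by
    show (t'.1.orderEmbOfFin t'.2 k).succ = _
    rw [hk]
  have h4 : Zr d q w₀ (vert t) (splx t' k.succ) = 0 := by
    rw [h3]
    refine Zr_ne q w₀ (T := vert t) fun j hj => ?_
    apply hx
    have h5 := Fin.succ_injective _ hj
    rw [← h5]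
    exact Finset.orderEmbOfFin_mem _ _ _
  rw [RF_u, h0, h4, sub_zero]
  rfl

end rows

section main

variable {K : Type*} [Field K] {d m q : ℕ} {P : LP K (q + 1)}
  {c : Fin (m + 1) → Fin (d + 1) → K} {a : Fin (m + 1) → K}

theorem oT_abs_le {ι : Type*} [DecidableEq ι] (T : Fin (d + 1) → ι) (e : ι) : |oT T e| ≤ 1 := by
  unfold oT
  split_ifs <;> simp

theorem exists_torus (σ : K →+* ℂ)
    (hdet : ∀ T : Fin (d + 1) → Fin (m + 1), Function.Injective T → (cm c T).det ≠ 0)
    (hgen : ∀ S : Fin (d + 2) → Fin (m + 1), Function.Injective S → ∀ x : Fin (d + 1) → K,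
      ∃ i, ∑ j, c (S i) j * x j ≠ a (S i)) {w₀ : Fin (q + 1) → ℤ}
    (hrad : ∀ δ : ℝ, 0 < δ → ∃ (r : Fin (q + 1) → ℝ) (hr : ∀ i, 0 < r i) (b : ℝ), 0 < b ∧
      ∀ (N : ℕ) (ιy : Fin (q + 1) → Fin N), Good (fun θ => ev σ (Yt hr ιy θ) P) ∧
        (∀ θ, b ≤ ‖ev σ (Yt hr ιy θ) P‖ ∧ ‖ev σ (Yt hr ιy θ) P‖ ≤ 3 * b) ∧
        ∀ j θ, ‖lw (fun θ => ev σ (Yt hr ιy θ) P) j θ -
          2 * Real.pi * Complex.I * nw ιy w₀ j‖ ≤ δ)
    {T : Fin (d + 1) → Fin (m + 1)} (hT : Function.Injective T) {ε : ℝ} (hε : 0 < ε) :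
    ∃ Λ : ℝ, 1 < Λ ∧ ∀ lam : K, Λ ≤ ‖σ lam‖ → ∃ Γ : Torus (FOpen P lam c a) (d + 1 + q),
      (∀ θ x, Γ.e θ (fcst P lam c a x) = σ x) ∧
      ∀ S : Fin (d + 2) → Fin (m + 1), Function.Injective S →
        |Γ.reg (symb (fent P lam c a S)) / (-Real.log ‖σ lam‖) -
          (2 * Real.pi) ^ (d + 1 + q) * (RF q w₀ T S).det| ≤ ε := by
  classical
  choose δ hδ hclose using fun S : Fin (d + 2) → Fin (m + 1) =>
    pairing_close (RF q w₀ T S) hε
  obtain ⟨S0, -, hS0⟩ := Finset.exists_min_image Finset.univ δ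
    ⟨fun _ => 0, Finset.mem_univ _⟩
  set δ0 : ℝ := δ S0 / 5 with hδ0
  have hδ0pos : 0 < δ0 := by
    have := hδ S0
    rw [hδ0]
    linarith
  have hδle : ∀ S, 4 * δ0 < δ S := by
    intro S
    have h1 := hS0 S (Finset.mem_univ S)
    have h2 := hδ S0
    rw [hδ0]
    linarith
  have hpi := Real.pi_pos
  obtain ⟨r, hr, b, hb, hYall⟩ := hrad δ0 hδ0pos
  obtain ⟨hgP, hbP, hlwP⟩ := hYall (d + 1 + q) (ιY d q)
  set E : ℝ := δ0 + 2 * Real.pi * ab w₀ with hE
  have hab := ab_nonneg w₀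
  have hE0 : 0 ≤ E := by positivity
  obtain ⟨η0, C1, hη0, hC1, hX⟩ := exists_points' (H := fun e u => lc σ c a (xv σ c a T u) e) hT
    (fun e => contDiff_lc σ T e)
    (fun j u => by
      rw [lc_xv, be_T T (hdet T hT)]
      simp only [al_T T (hdet T hT)]
      simp)
    (fun e he => by
      rw [lc_xv]
      have h0 : ∀ l : Fin (d + 1), (Fin.cons (0 : (Fin d → ℂ) × ℂ).2 (0 : (Fin d → ℂ) × ℂ).1 :
          Fin (d + 1) → ℂ) l = 0 := fun l => by
        refine Fin.cases ?_ (fun l => ?_) l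
        · rfl
        · rfl
      simp only [h0, mul_zero, Finset.sum_const_zero, zero_add]
      exact (map_ne_zero σ).2 (be_ne hdet hgen hT he)) hδ0pos hE0
  set G : ℝ := ∑ S : Fin (d + 2) → Fin (m + 1), ∑ i, |Real.log ‖σ (gam c S i)‖| with hG
  have hG0 : 0 ≤ G := Finset.sum_nonneg fun S _ => Finset.sum_nonneg fun i _ => abs_nonneg _
  have hGS : ∀ S i, |Real.log ‖σ (gam c S i)‖| ≤ G := fun S i =>
    (Finset.single_le_sum (f := fun i => |Real.log ‖σ (gam c S i)‖|)
      (fun i _ => abs_nonneg _) (Finset.mem_univ i)).trans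
    (Finset.single_le_sum (f := fun S => ∑ i, |Real.log ‖σ (gam c S i)‖|)
      (fun S _ => Finset.sum_nonneg fun i _ => abs_nonneg _) (Finset.mem_univ S))
  set C2 : ℝ := |Real.log b| + |Real.log (3 * b)| with hC2
  have hC20 : 0 ≤ C2 := by positivity
  set Ly : ℝ := ∑ i, |Real.log (r i)| with hLy
  have hLy0 : 0 ≤ Ly := Finset.sum_nonneg fun i _ => abs_nonneg _
  have hLyi : ∀ i, |Real.log (r i)| ≤ Ly := fun i =>
    Finset.single_le_sum (f := fun i => |Real.log (r i)|) (fun i _ => abs_nonneg _)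
      (Finset.mem_univ i)
  set Q : ℝ := G + C1 + C2 + Ly with hQ
  have hQ0 : 0 ≤ Q := by positivity
  have hexp := Real.exp_pos (Q / δ0)
  have h3b : 0 < 3 * b / η0 := by positivity
  refine ⟨3 * b / η0 + 2 + Real.exp (Q / δ0), by linarith, fun lam hlam => ?_⟩
  have hln : 0 < ‖σ lam‖ := by linarith
  have hl0 : σ lam ≠ 0 := norm_pos_iff.1 hln
  set s : ℝ := -Real.log ‖σ lam‖ with hs
  have hbig : Q ≤ δ0 * |s| := by
    have h1 : Q / δ0 ≤ Real.log ‖σ lam‖ := by
      rw [Real.le_log_iff_exp_le hln]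
      linarith
    have h2 : 0 < Real.log ‖σ lam‖ := Real.log_pos (by linarith)
    rw [div_le_iff₀ hδ0pos] at h1
    rw [hs, abs_neg, abs_of_pos h2]
    linarith
  have hs0 : s ≠ 0 := by
    have h2 : 0 < Real.log ‖σ lam‖ := Real.log_pos (by linarith)
    rw [hs]
    linarith
  have hspos : 0 < |s| := abs_pos.2 hs0
  set Y : (Fin (d + 1 + q) → ℝ) → Fin (q + 1) → ℂˣ := Yt hr (ιY d q) with hY
  set g : (Fin (d + 1 + q) → ℝ) → ℂ := fun θ => ev σ (Y θ) P with hg
  set η : (Fin (d + 1 + q) → ℝ) → ℂ := fun θ => g θ * (σ lam)⁻¹ with hη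
  have hηg : Good η := hgP.mul (good_const (inv_ne_zero hl0))
  have hlwη : ∀ j θ, lw η j θ = lw g j θ := by
    intro j θ
    have h1 := lw_mul hgP (good_const (d := d + 1 + q) (inv_ne_zero hl0)) j θ
    rw [lw_const, add_zero] at h1
    exact h1
  have hlwη1 : ∀ j θ, ‖lw η j θ - 2 * Real.pi * Complex.I * nw (ιY d q) w₀ j‖ ≤ δ0 := by
    intro j θ
    rw [hlwη]
    exact hlwP j θ
  have hlwE : ∀ j θ, ‖lw η j θ‖ ≤ E := by
    intro j θ
    have h1 := norm_sub_norm_le (lw η j θ) (2 * Real.pi * Complex.I * nw (ιY d q) w₀ j)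
    have h2 : ‖(2 * Real.pi * Complex.I * nw (ιY d q) w₀ j : ℂ)‖ ≤ 2 * Real.pi * ab w₀ := by
      rw [norm_mul, norm_two_pi_I, Complex.norm_real, Real.norm_eq_abs]
      exact mul_le_mul_of_nonneg_left (abs_nw_le _ _ _) (by positivity)
    have h3 := hlwη1 j θ
    rw [hE]
    linarith
  have hnη : ∀ θ, ‖η θ‖ ≤ η0 := by
    intro θ
    have h1 : ‖η θ‖ = ‖g θ‖ / ‖σ lam‖ := by
      simp only [hη]
      rw [norm_mul, norm_inv, div_eq_mul_inv]
    rw [h1, div_le_iff₀ hln]
    have h2 : 3 * b / η0 ≤ ‖σ lam‖ := by linarith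
    rw [div_le_iff₀ hη0] at h2
    have h3 := (hbP θ).2
    have h4 : ‖g θ‖ ≤ 3 * b := h3
    linarith
  have hlogg : ∀ θ, |Real.log ‖g θ‖| ≤ C2 := by
    intro θ
    obtain ⟨h1, h2⟩ := hbP θ
    have h3 : Real.log b ≤ Real.log ‖g θ‖ := Real.log_le_log hb h1
    have h4 : Real.log ‖g θ‖ ≤ Real.log (3 * b) := Real.log_le_log (hb.trans_le h1) h2
    have h5 := neg_abs_le (Real.log b)
    have h6 := le_abs_self (Real.log (3 * b))
    have h7 := abs_nonneg (Real.log b)
    have h8 := abs_nonneg (Real.log (3 * b))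
    rw [abs_le, hC2]
    constructor <;> linarith
  have hlogη : ∀ θ, |Real.log ‖η θ‖ - s| ≤ C2 := by
    intro θ
    have h1 : Real.log ‖η θ‖ = Real.log ‖g θ‖ + s := by
      simp only [hη]
      rw [norm_mul, Real.log_mul (norm_ne_zero_iff.2 (hgP.ne_zero θ))
        (norm_ne_zero_iff.2 (inv_ne_zero hl0)), norm_inv, Real.log_inv]
    rw [h1, add_sub_cancel_right]
    exact hlogg θ
  have hYp : ∀ θ i, Y (θ + Pi.single i 1) = Y θ := fun θ i => Yt_add_single hr (ιY d q) θ i
  have hηp : ∀ θ i, η (θ + Pi.single i 1) = η θ := fun θ i => by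
    simp only [hη, hg, hYp]
  obtain ⟨U, hUc, hUp, hUe, hUg, hUest⟩ := hX (d + 1 + q) (ιB d q) η hηg hnη hlwE hηp
  set X : (Fin (d + 1 + q) → ℝ) → (Fin (d + 1) → ℂ) := fun θ => xv σ c a T (U θ) with hXdef
  have hXc : ContDiff ℝ 2 X := ((contDiff_xv σ T).restrict_scalars ℝ).comp hUc
  have hXp : ∀ θ i, X (θ + Pi.single i 1) = X θ := fun θ i => by
    simp only [hXdef, hUp]
  have hPt : ∀ θ, FPt σ P lam c a (X θ) (Y θ) := fun θ => by
    refine ⟨?_, hgP.ne_zero θ⟩
    have h1 : ∏ e, lc σ c a (X θ) e = η θ := hUe θ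
    rw [h1]
    simp only [hη, hg]
    rw [mul_comm, mul_assoc, inv_mul_cancel₀ hl0, mul_one]
  have hYg : ∀ i, Good fun θ => (Y θ i : ℂ) := good_Yt hr (ιY d q)
  refine ⟨mkF X Y hXc hYg hXp hYp hPt, fun θ x => mkF_fcst X Y hXc hYg hXp hYp hPt θ x,
    fun S hS => ?_⟩
  rw [Torus.reg_symb]
  set Γ := mkF X Y hXc hYg hXp hYp hPt with hΓ
  have hγ : ∀ i, gam c S i ≠ 0 := by
    intro i
    unfold gam
    exact mul_ne_zero (pow_ne_zero _ (by norm_num)) (hdet _ (injective_face hS i))
  have hγc : ∀ i, σ (gam c S i) ≠ 0 := fun i => (map_ne_zero σ).2 (hγ i)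
  have hgz : ∀ i, Γ.fn (fg P lam c a S i : FOpen P lam c a) =
      fun θ => σ (gam c S i) * lc σ c a (X θ) (S i) := fun i =>
    mkF_fg X Y hXc hYg hXp hYp hPt S i (hγ i)
  have hgoodZ : ∀ i, Good (Γ.fn (fg P lam c a S i : FOpen P lam c a)) := fun i => Γ.good _
  have hgoodE : ∀ l, Good (Γ.fn (fent P lam c a S l : FOpen P lam c a)) := fun l => Γ.good _
  -- estimates for the `γ_i L_{S i}`
  have hZlog : ∀ i θ, |Real.log ‖Γ.fn (fg P lam c a S i : FOpen P lam c a) θ‖ / s -
      oT T (S i)| ≤ δ0 := by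
    intro i θ
    have h1 := hGS S i
    have h2 := (hUest (S i) θ).1
    have h3 := hlogη θ
    have h4 := oT_abs_le T (S i)
    have h5 : Real.log ‖Γ.fn (fg P lam c a S i : FOpen P lam c a) θ‖ =
        Real.log ‖σ (gam c S i)‖ + Real.log ‖lc σ c a (xv σ c a T (U θ)) (S i)‖ := by
      rw [congrFun (hgz i) θ, norm_mul, Real.log_mul (norm_ne_zero_iff.2 (hγc i))
        (norm_ne_zero_iff.2 ((hUg (S i)).ne_zero θ))]
    have h6 : Real.log ‖Γ.fn (fg P lam c a S i : FOpen P lam c a) θ‖ / s - oT T (S i) =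
        (Real.log ‖σ (gam c S i)‖ + (Real.log ‖lc σ c a (xv σ c a T (U θ)) (S i)‖ -
          oT T (S i) * Real.log ‖η θ‖) + oT T (S i) * (Real.log ‖η θ‖ - s)) / s := by
      rw [h5]
      field_simp
      ring
    rw [h6, abs_div, div_le_iff₀ hspos]
    refine le_trans ?_ hbig
    refine (abs_add_le _ _).trans ?_
    have h7 : |oT T (S i) * (Real.log ‖η θ‖ - s)| ≤ 1 * C2 := by
      rw [abs_mul]
      exact mul_le_mul h4 h3 (abs_nonneg _) (by norm_num)
    have h8 := abs_add_le (Real.log ‖σ (gam c S i)‖)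
      (Real.log ‖lc σ c a (xv σ c a T (U θ)) (S i)‖ - oT T (S i) * Real.log ‖η θ‖)
    rw [hQ]
    linarith
  have hZlw : ∀ i j θ, ‖lw (Γ.fn (fg P lam c a S i : FOpen P lam c a)) j θ -
      2 * Real.pi * Complex.I * Zr d q w₀ T (S i) j.succ‖ ≤ 2 * δ0 := by
    intro i j θ
    have h1 := lw_mul (good_const (d := d + 1 + q) (hγc i)) (hUg (S i)) j θ
    rw [lw_const, zero_add] at h1
    rw [hgz i]
    have h2 : lw (fun θ => σ (gam c S i) * lc σ c a (X θ) (S i)) j θ =
      lw (fun θ => lc σ c a (xv σ c a T (U θ)) (S i)) j θ := h1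
    rw [h2]
    have h3 := (hUest (S i) θ).2 j
    have h4 := hlwη1 j θ
    have h5 : Zr d q w₀ T (S i) j.succ = oT T (S i) * (nw (ιY d q) w₀ j - nb (ιB d q) j) +
        bT T (ιB d q) (S i) j := rfl
    rw [h5]
    have h6 : lw (fun θ => lc σ c a (xv σ c a T (U θ)) (S i)) j θ - 2 * Real.pi * Complex.I *
        ((oT T (S i) * (nw (ιY d q) w₀ j - nb (ιB d q) j) + bT T (ιB d q) (S i) j : ℝ) : ℂ) =
        (lw (fun θ => lc σ c a (xv σ c a T (U θ)) (S i)) j θ -
          (oT T (S i) * (lw η j θ - 2 * Real.pi * Complex.I * nb (ιB d q) j) +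
            2 * Real.pi * Complex.I * bT T (ιB d q) (S i) j)) +
        oT T (S i) * (lw η j θ - 2 * Real.pi * Complex.I * nw (ιY d q) w₀ j) := by
      push_cast
      ring
    rw [h6]
    refine (norm_add_le _ _).trans ?_
    have h7 : ‖(oT T (S i) : ℂ) * (lw η j θ - 2 * Real.pi * Complex.I * nw (ιY d q) w₀ j)‖ ≤
        1 * δ0 := by
      rw [norm_mul, Complex.norm_real, Real.norm_eq_abs]
      exact mul_le_mul (oT_abs_le T (S i)) h4 (norm_nonneg _) (by norm_num)
    linarith
  have hsu : ∀ k : Fin (d + 1), fent P lam c a S (Fin.castAdd q k).succ =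
      fg P lam c a S k.succ / fg P lam c a S 0 := by
    intro k
    unfold fent
    rw [Fin.cons_succ, Fin.append_left]
  have hsy : ∀ i : Fin q, fent P lam c a S (Fin.natAdd (d + 1) i).succ =
      fy P lam c a i.succ := by
    intro i
    unfold fent
    rw [Fin.cons_succ, Fin.append_right]
  have hmul : ∀ l : Fin (d + 1),
      (fun θ => Γ.fn (fent P lam c a S (Fin.castAdd q l).succ : FOpen P lam c a) θ *
      Γ.fn (fg P lam c a S 0 : FOpen P lam c a) θ) =
        Γ.fn (fg P lam c a S l.succ : FOpen P lam c a) := by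
    intro l
    funext θ
    unfold Torus.fn
    rw [← map_mul, ← Units.val_mul, hsu, div_mul_cancel]
  have hyfn : ∀ i, Γ.fn (fy P lam c a i : FOpen P lam c a) = fun θ => (Y θ i : ℂ) := fun i =>
    mkF_fy X Y hXc hYg hXp hYp hPt i
  -- estimates for the `y_i`
  have hylog : ∀ i θ, |Real.log ‖Γ.fn (fy P lam c a i : FOpen P lam c a) θ‖ / s -
      Yr d q i 0| ≤ δ0 := by
    intro i θ
    have e1 : Yr d q i 0 = 0 := rfl
    rw [e1, sub_zero, congrFun (hyfn i) θ, hY, coe_Yt, norm_circ (hr i).le, abs_div,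
      div_le_iff₀ hspos]
    have h1 := hLyi i
    rw [hQ] at hbig
    linarith
  have hylw : ∀ i j θ, lw (Γ.fn (fy P lam c a i : FOpen P lam c a)) j θ -
      2 * Real.pi * Complex.I * Yr d q i j.succ = 0 := by
    intro i j θ
    have e1 : Yr d q i j.succ = if j = ιY d q i then 1 else 0 := rfl
    rw [hyfn i, e1]
    have h1 : lw (fun θ => (Y θ i : ℂ)) j θ =
        if j = ιY d q i then 2 * Real.pi * Complex.I else 0 := lw_Yt hr (ιY d q) i j θ
    rw [h1]
    split_ifs <;> simp
  refine hclose S _ _ hs0 hgoodE (fun l θ => ?_) (fun l j θ => ?_)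
  · revert l
    refine Fin.cases ?_ (fun l => ?_)
    · have e : RF q w₀ T S 0 0 = Yr d q 0 0 := rfl
      rw [e]
      have h1 := hylog 0 θ
      have h2 : fent P lam c a S 0 = fy P lam c a 0 := rfl
      rw [h2]
      have h3 := hδle S
      linarith
    · refine Fin.addCases (fun l => ?_) (fun i => ?_) l
      · have h1 := hZlog l.succ θ
        have h2 := hZlog 0 θ
        have h3 : Real.log ‖Γ.fn (fent P lam c a S (Fin.castAdd q l).succ : FOpen P lam c a) θ *
            Γ.fn (fg P lam c a S 0 : FOpen P lam c a) θ‖ =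
            Real.log ‖Γ.fn (fg P lam c a S l.succ : FOpen P lam c a) θ‖ :=
          congrArg (fun z : ℂ => Real.log ‖z‖) (congrFun (hmul l) θ)
        rw [norm_mul, Real.log_mul
          (norm_ne_zero_iff.2 ((hgoodE (Fin.castAdd q l).succ).ne_zero θ))
          (norm_ne_zero_iff.2 ((hgoodZ 0).ne_zero θ))] at h3
        have h4 : Real.log ‖Γ.fn (fent P lam c a S (Fin.castAdd q l).succ :
            FOpen P lam c a) θ‖ =
            Real.log ‖Γ.fn (fg P lam c a S l.succ : FOpen P lam c a) θ‖ -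
            Real.log ‖Γ.fn (fg P lam c a S 0 : FOpen P lam c a) θ‖ := by
          linarith
        have e : RF q w₀ T S (Fin.castAdd q l).succ 0 = oT T (S l.succ) - oT T (S 0) := by
          rw [RF_u]
          rfl
        rw [h4, sub_div, e]
        refine lt_of_le_of_lt ?_ (hδle S)
        have h5 := abs_le.1 h1
        have h6 := abs_le.1 h2
        rw [abs_le]
        constructor <;> linarith [h5.1, h5.2, h6.1, h6.2]
      · have e : RF q w₀ T S (Fin.natAdd (d + 1) i).succ 0 = Yr d q i.succ 0 := by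
          rw [RF_y]
        rw [e, hsy]
        have h1 := hylog i.succ θ
        have h3 := hδle S
        linarith
  · revert l
    refine Fin.cases ?_ (fun l => ?_)
    · have e : RF q w₀ T S 0 j.succ = Yr d q 0 j.succ := rfl
      have h2 : fent P lam c a S 0 = fy P lam c a 0 := rfl
      rw [e, h2, hylw, norm_zero]
      exact hδ S
    · refine Fin.addCases (fun l => ?_) (fun i => ?_) l
      · have h1 := hZlw l.succ j θ
        have h2 := hZlw 0 j θ
        have h3 := lw_mul (hgoodE (Fin.castAdd q l).succ) (hgoodZ 0) j θ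
        rw [hmul l] at h3
        have h4 : lw (Γ.fn (fent P lam c a S (Fin.castAdd q l).succ : FOpen P lam c a)) j θ =
            lw (Γ.fn (fg P lam c a S l.succ : FOpen P lam c a)) j θ -
            lw (Γ.fn (fg P lam c a S 0 : FOpen P lam c a)) j θ := by
          rw [h3]
          ring
        have e : RF q w₀ T S (Fin.castAdd q l).succ j.succ =
            Zr d q w₀ T (S l.succ) j.succ - Zr d q w₀ T (S 0) j.succ := by
          rw [RF_u]
          rfl
        rw [h4, e]
        refine lt_of_le_of_lt ?_ (hδle S)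
        have e2 : lw (Γ.fn (fg P lam c a S l.succ : FOpen P lam c a)) j θ -
            lw (Γ.fn (fg P lam c a S 0 : FOpen P lam c a)) j θ - 2 * Real.pi * Complex.I *
              ((Zr d q w₀ T (S l.succ) j.succ - Zr d q w₀ T (S 0) j.succ : ℝ) : ℂ) =
            (lw (Γ.fn (fg P lam c a S l.succ : FOpen P lam c a)) j θ -
              2 * Real.pi * Complex.I * Zr d q w₀ T (S l.succ) j.succ) -
            (lw (Γ.fn (fg P lam c a S 0 : FOpen P lam c a)) j θ -
              2 * Real.pi * Complex.I * Zr d q w₀ T (S 0) j.succ) := by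
          push_cast
          ring
        rw [e2]
        refine (norm_sub_le _ _).trans ?_
        linarith
      · have e : RF q w₀ T S (Fin.natAdd (d + 1) i).succ j.succ = Yr d q i.succ j.succ := by
          rw [RF_y]
        rw [e, hsy, hylw, norm_zero]
        exact hδ S

theorem exists_tori (σ : K →+* ℂ) (hP : P ≠ 0)
    (hdet : ∀ T : Fin (d + 1) → Fin (m + 1), Function.Injective T → (cm c T).det ≠ 0)
    (hgen : ∀ S : Fin (d + 2) → Fin (m + 1), Function.Injective S → ∀ x : Fin (d + 1) → K,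
      ∃ i, ∑ j, c (S i) j * x j ≠ a (S i)) :
    ∃ C : ℝ, 1 ≤ C ∧ ∀ lam : K, C ≤ ‖σ lam‖ →
      ∃ Γ : {s : Finset (Fin m) // s.card = d + 1} → Torus (FOpen P lam c a) (d + 1 + q),
        (∀ t θ x, (Γ t).e θ (fcst P lam c a x) = σ x) ∧
        (Matrix.of fun t i : {s : Finset (Fin m) // s.card = d + 1} =>
          (Γ t).reg (symb (fent P lam c a (splx i)))).det ≠ 0 := by
  classical
  obtain ⟨w₀, hrad⟩ := exists_radii σ P hP
  set D0 : ℝ := (2 * Real.pi) ^ (d + 1 + q) * (M0 q w₀ d).det with hD0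
  have hD : D0 ≠ 0 := mul_ne_zero (by have := Real.pi_pos; positivity) (det_M0 q w₀ d)
  have hlead : (D0 • (1 : Matrix {s : Finset (Fin m) // s.card = d + 1}
      {s : Finset (Fin m) // s.card = d + 1} ℝ)).det ≠ 0 := by
    rw [Matrix.det_smul, Matrix.det_one, mul_one]
    exact pow_ne_zero _ hD
  obtain ⟨δ, hδ, hdet'⟩ := det_ne_zero_near _ hlead
  choose Λ hΛ1 hΛ using fun t : {s : Finset (Fin m) // s.card = d + 1} =>
    exists_torus (a := a) σ hdet hgen hrad (vert_injective t) (ε := δ / 2) (by linarith)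
  set C : ℝ := ∑ t, |Λ t| + 2 with hC
  have hsum : 0 ≤ ∑ t, |Λ t| := Finset.sum_nonneg fun J _ => abs_nonneg _
  have hΛC : ∀ t, Λ t ≤ C := by
    intro t
    have h1 := Finset.single_le_sum (f := fun t => |Λ t|) (fun t _ => abs_nonneg _)
      (Finset.mem_univ t)
    have h2 := le_abs_self (Λ t)
    have h3 : |Λ t| ≤ ∑ t, |Λ t| := h1
    linarith
  refine ⟨C, by linarith, fun lam hlam => ?_⟩
  choose Γ hΓ1 hΓ2 using fun t => hΛ t lam ((hΛC t).trans hlam)
  refine ⟨Γ, hΓ1, ?_⟩
  have hs : -Real.log ‖σ lam‖ ≠ 0 := by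
    have : 0 < Real.log ‖σ lam‖ := Real.log_pos (by linarith)
    linarith
  set s : ℝ := -Real.log ‖σ lam‖ with hsdef
  have h1 : (Matrix.of fun t i : {s : Finset (Fin m) // s.card = d + 1} =>
      (Γ t).reg (symb (fent P lam c a (splx i))) / s).det ≠ 0 := by
    refine hdet' _ fun t i => ?_
    rw [Matrix.of_apply, Matrix.smul_apply, Matrix.one_apply, smul_eq_mul]
    refine lt_of_le_of_lt ?_ (show δ / 2 < δ by linarith)
    have h2 := hΓ2 t (splx i) (splx_injective i)
    by_cases hti : t = i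
    · subst hti
      rw [RF_same] at h2
      rwa [if_pos rfl, mul_one]
    · rw [det_other q w₀ hti, mul_zero] at h2
      rwa [if_neg hti, mul_zero]
  have h2 : (Matrix.of fun t i : {s : Finset (Fin m) // s.card = d + 1} =>
      (Γ t).reg (symb (fent P lam c a (splx i)))) =
      s • (Matrix.of fun t i : {s : Finset (Fin m) // s.card = d + 1} =>
        (Γ t).reg (symb (fent P lam c a (splx i))) / s) := by
    ext t i
    rw [Matrix.smul_apply, Matrix.of_apply, Matrix.of_apply, smul_eq_mul]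
    field_simp
  rw [h2, Matrix.det_smul]
  exact mul_ne_zero (pow_ne_zero _ hs) h1

end main

end Pool.Agent.Helper39.SB
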