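import Pool.Agent.Helper39.SB.Unr
import Pool.Agent.TH826.GA.Final
set_option autoImplicit false

/-!
Evaluation of the functions on the varieties `P(y) = λ ∏_e L_e(x)` at complex points, and tori.
-/

namespace Pool.Agent.Helper39.SB

open Pool.Agent.TH826.MK

open Pool.Agent.TH826.GA (lf gam ku coe_ku lc)

open Pool.Agent.TH826.DC (dPhi)

open Pool.Agent.Y797.IV (fx)

section good

variable {N : ℕ} {g : (Fin N → ℝ) → ℂ}

theorem good_inv (hg : Good g) : Good fun θ => (g θ)⁻¹ :=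
  ⟨hg.smooth.inv hg.ne_zero, fun θ => inv_ne_zero (hg.ne_zero θ)⟩

theorem lw_inv (hg : Good g) (j : Fin N) (θ : Fin N → ℝ) :
    lw (fun θ => (g θ)⁻¹) j θ = -lw g j θ := by
  have h1 := lw_mul hg (good_inv hg) j θ
  have h2 : (fun θ => g θ * (g θ)⁻¹) = fun _ => 1 := by
    funext θ
    exact mul_inv_cancel₀ (hg.ne_zero θ)
  rw [h2, lw_const] at h1
  linear_combination -h1

theorem good_zpow (hg : Good g) (k : ℤ) : Good fun θ => g θ ^ k := by
  rcases k with k | k
  · simp only [Int.ofNat_eq_natCast, zpow_natCast]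
    exact Pool.Agent.TH690.SF.good_pow hg k
  · simp only [zpow_negSucc]
    exact good_inv (Pool.Agent.TH690.SF.good_pow hg (k + 1))

theorem lw_zpow (hg : Good g) (k : ℤ) (j : Fin N) (θ : Fin N → ℝ) :
    lw (fun θ => g θ ^ k) j θ = k * lw g j θ := by
  rcases k with k | k
  · simp only [Int.ofNat_eq_natCast, zpow_natCast, Int.cast_natCast]
    exact Pool.Agent.TH690.SF.lw_pow hg k j θ
  · simp only [zpow_negSucc]
    rw [lw_inv (Pool.Agent.TH690.SF.good_pow hg (k + 1)), Pool.Agent.TH690.SF.lw_pow hg]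
    push_cast
    ring

variable {n : ℕ} {Y : (Fin N → ℝ) → Fin n → ℂˣ}

theorem coe_mn (y : Fin n → ℂˣ) (w : Fin n → ℤ) :
    ((mn y w : ℂˣ) : ℂ) = ∏ i, (y i : ℂ) ^ w i := by
  unfold mn
  rw [Units.coe_prod]
  exact Finset.prod_congr rfl fun i _ => Units.val_zpow_eq_zpow_val _ _

theorem good_mn (hY : ∀ i, Good fun θ => (Y θ i : ℂ)) (w : Fin n → ℤ) :
    Good fun θ => ((mn (Y θ) w : ℂˣ) : ℂ) := by
  simp only [coe_mn]
  exact good_prod Finset.univ fun i => good_zpow (hY i) (w i)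

theorem lw_mn (hY : ∀ i, Good fun θ => (Y θ i : ℂ)) (w : Fin n → ℤ) (j : Fin N)
    (θ : Fin N → ℝ) : lw (fun θ => ((mn (Y θ) w : ℂˣ) : ℂ)) j θ =
      ∑ i, (w i : ℂ) * lw (fun θ => (Y θ i : ℂ)) j θ := by
  simp only [coe_mn]
  rw [lw_prod Finset.univ fun i => good_zpow (hY i) (w i)]
  exact Finset.sum_congr rfl fun i _ => lw_zpow (hY i) (w i) j θ

theorem contDiff_ev {K : Type*} [Field K] (σ : K →+* ℂ) (hY : ∀ i, Good fun θ => (Y θ i : ℂ))
    (p : LP K n) : ContDiff ℝ 2 fun θ => ev σ (Y θ) p := by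
  induction p using AddMonoidAlgebra.induction_linear with
  | zero => simpa using contDiff_const
  | add f g hf hg => simpa using hf.add hg
  | single w c =>
    simp only [ev_single]
    exact contDiff_const.mul (good_mn hY w).smooth

end good

section Ev

variable {K : Type*} [Field K] {d n m N : ℕ} {σ : K →+* ℂ} {P : LP K n} {lam : K}
  {c : Fin (m + 1) → Fin (d + 1) → K} {a : Fin (m + 1) → K}

/-- The complex points of the open part. -/
structure FPt (σ : K →+* ℂ) (P : LP K n) (lam : K) (c : Fin (m + 1) → Fin (d + 1) → K)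
    (a : Fin (m + 1) → K) (x : Fin (d + 1) → ℂ) (y : Fin n → ℂˣ) : Prop where
  eq : σ lam * ∏ e, lc σ c a x e = ev σ y P
  ne : ev σ y P ≠ 0

theorem ev_comp_cK (y : Fin n → ℂˣ) : (ev σ y).comp (cK K n) = σ := by
  refine RingHom.ext fun r => ?_
  show ev σ y (AddMonoidAlgebra.single 0 r) = σ r
  rw [ev_single, mn_zero, Units.val_one, mul_one]

theorem eval_map_cK (x : Fin (d + 1) → ℂ) (y : Fin n → ℂˣ) (p : MvPolynomial (Fin (d + 1)) K) :
    MvPolynomial.eval₂ (ev σ y) x (MvPolynomial.map (cK K n) p) = MvPolynomial.eval₂ σ x p := by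
  rw [MvPolynomial.eval₂_map, ev_comp_cK]

theorem FPt.eval_feqn {x : Fin (d + 1) → ℂ} {y : Fin n → ℂˣ} (hx : FPt σ P lam c a x y) :
    MvPolynomial.eval₂ (ev σ y) x (feqn P lam c a) = 0 := by
  unfold feqn
  rw [MvPolynomial.eval₂_sub, MvPolynomial.eval₂_C, eval_map_cK, eval₂_dPhi, sub_eq_zero]
  exact hx.eq

/-- evaluation of the regular functions on the variety -/
noncomputable def FPt.evB {x : Fin (d + 1) → ℂ} {y : Fin n → ℂˣ} (hx : FPt σ P lam c a x y) :
    FRing P lam c a →+* ℂ :=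
  Ideal.Quotient.lift (Ideal.span {feqn P lam c a}) (MvPolynomial.eval₂Hom (ev σ y) x) (by
    intro p hp
    have hle : Ideal.span {feqn P lam c a} ≤
        RingHom.ker (MvPolynomial.eval₂Hom (ev σ y) x) := by
      rw [Ideal.span_le]
      rintro q rfl
      exact hx.eval_feqn
    exact hle hp)

theorem FPt.evB_fof {x : Fin (d + 1) → ℂ} {y : Fin n → ℂˣ} (hx : FPt σ P lam c a x y)
    (p : MvPolynomial (Fin (d + 1)) (LP K n)) :
    hx.evB (fof P lam c a p) = MvPolynomial.eval₂ (ev σ y) x p :=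
  Ideal.Quotient.lift_mk _ _ _

theorem FPt.evB_fPhi {x : Fin (d + 1) → ℂ} {y : Fin n → ℂˣ} (hx : FPt σ P lam c a x y) :
    hx.evB (fpol P lam c a (dPhi lam c a)) = ev σ y P := by
  show hx.evB (fof P lam c a (MvPolynomial.map (cK K n) (dPhi lam c a))) = _
  rw [hx.evB_fof, eval_map_cK, eval₂_dPhi]
  exact hx.eq

/-- evaluation of the regular functions on the open part -/
noncomputable def FPt.evA {x : Fin (d + 1) → ℂ} {y : Fin n → ℂˣ} (hx : FPt σ P lam c a x y) :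
    FOpen P lam c a →+* ℂ :=
  IsLocalization.Away.lift (fpol P lam c a (dPhi lam c a)) (g := hx.evB) (by
    rw [hx.evB_fPhi]
    exact isUnit_iff_ne_zero.2 hx.ne)

theorem FPt.evA_toF {x : Fin (d + 1) → ℂ} {y : Fin n → ℂˣ} (hx : FPt σ P lam c a x y)
    (b : FRing P lam c a) : hx.evA (toF P lam c a b) = hx.evB b :=
  IsLocalization.Away.lift_eq _ _ _

theorem FPt.evA_congr {x x' : Fin (d + 1) → ℂ} {y y' : Fin n → ℂˣ}
    (hx : FPt σ P lam c a x y) (hx' : FPt σ P lam c a x' y') (h : x = x') (h' : y = y') :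
    hx.evA = hx'.evA := by
  subst h
  subst h'
  rfl

theorem FPt.cE_evA {x : Fin (d + 1) → ℂ} {y : Fin n → ℂˣ} (hx : FPt σ P lam c a x y) :
    cE hx.evA = σ := by
  refine RingHom.ext fun r => ?_
  show hx.evA (toF P lam c a (fof P lam c a (MvPolynomial.map (cK K n) (MvPolynomial.C r)))) = _
  rw [hx.evA_toF, hx.evB_fof, eval_map_cK, MvPolynomial.eval₂_C]

theorem FPt.xE_evA {x : Fin (d + 1) → ℂ} {y : Fin n → ℂˣ} (hx : FPt σ P lam c a x y) :
    xE hx.evA = x := by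
  funext j
  show hx.evA (toF P lam c a (fof P lam c a (MvPolynomial.map (cK K n) (MvPolynomial.X j)))) = _
  rw [hx.evA_toF, hx.evB_fof, eval_map_cK, MvPolynomial.eval₂_X]

theorem FPt.yE_evA {x : Fin (d + 1) → ℂ} {y : Fin n → ℂˣ} (hx : FPt σ P lam c a x y) :
    yE hx.evA = y := by
  funext i
  ext
  show hx.evA (toF P lam c a (fof P lam c a (MvPolynomial.C ((ly K i : (LP K n)ˣ) : LP K n)))) = _
  rw [hx.evA_toF, hx.evB_fof, MvPolynomial.eval₂_C]
  show ev σ y (AddMonoidAlgebra.single (Pi.single i 1) 1) = _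
  rw [ev_single, map_one, one_mul, mn_single, zpow_one]

theorem contDiff_evA {x : (Fin N → ℝ) → (Fin (d + 1) → ℂ)} {y : (Fin N → ℝ) → (Fin n → ℂˣ)}
    (hc : ContDiff ℝ 2 x) (hyc : ∀ i, Good fun θ => (y θ i : ℂ))
    (hx : ∀ θ, FPt σ P lam c a (x θ) (y θ)) (h : FOpen P lam c a) :
    ContDiff ℝ 2 fun θ => (hx θ).evA h := by
  have hxk : ∀ k, ContDiff ℝ 2 fun θ => x θ k := fun k => contDiff_pi.1 hc k
  have hR : ∀ p : MvPolynomial (Fin (d + 1)) (LP K n),
      ContDiff ℝ 2 fun θ => MvPolynomial.eval₂ (ev σ (y θ)) (x θ) p := by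
    intro p
    induction p using MvPolynomial.induction_on with
    | C c => simpa using contDiff_ev σ hyc c
    | add p q hp hq => simpa [MvPolynomial.eval₂_add] using hp.add hq
    | mul_X p k hp =>
      simp only [MvPolynomial.eval₂_mul, MvPolynomial.eval₂_X]
      exact hp.mul (hxk k)
  have hB : ∀ b : FRing P lam c a, ContDiff ℝ 2 fun θ => (hx θ).evB b := by
    intro b
    obtain ⟨p, hp⟩ := Ideal.Quotient.mk_surjective b
    have e : (fun θ => (hx θ).evB b) = fun θ => MvPolynomial.eval₂ (ev σ (y θ)) (x θ) p := by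
      funext θ
      rw [← hp]
      exact (hx θ).evB_fof p
    rw [e]
    exact hR p
  obtain ⟨⟨b, s⟩, hbs⟩ := IsLocalization.surj (Submonoid.powers (fpol P lam c a (dPhi lam c a))) h
  obtain ⟨k, hk⟩ := s.2
  have e : (fun θ => (hx θ).evA h) = fun θ => (hx θ).evB b * ((ev σ (y θ) P) ^ k)⁻¹ := by
    funext θ
    have h1 := congrArg (hx θ).evA hbs
    rw [map_mul] at h1
    have h2 : (hx θ).evA (algebraMap (FRing P lam c a) (FOpen P lam c a) b) = (hx θ).evB b :=
      (hx θ).evA_toF b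
    have h3 : (hx θ).evA (algebraMap (FRing P lam c a) (FOpen P lam c a) s) =
        (ev σ (y θ) P) ^ k := by
      have h4 : (hx θ).evA (algebraMap (FRing P lam c a) (FOpen P lam c a) s) =
        (hx θ).evB s := (hx θ).evA_toF s
      rw [h4, ← hk, map_pow, (hx θ).evB_fPhi]
    rw [h2, h3] at h1
    rw [← h1, mul_assoc, mul_inv_cancel₀ (pow_ne_zero _ (hx θ).ne), mul_one]
  rw [e]
  exact (hB b).mul (((contDiff_ev σ hyc P).pow k).inv fun θ => pow_ne_zero _ (hx θ).ne)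

/-- a torus in the variety -/
noncomputable def mkF (x : (Fin N → ℝ) → (Fin (d + 1) → ℂ)) (y : (Fin N → ℝ) → (Fin n → ℂˣ))
    (hc : ContDiff ℝ 2 x) (hyc : ∀ i, Good fun θ => (y θ i : ℂ))
    (hp : ∀ θ i, x (θ + Pi.single i 1) = x θ) (hyp : ∀ θ i, y (θ + Pi.single i 1) = y θ)
    (hx : ∀ θ, FPt σ P lam c a (x θ) (y θ)) : Torus (FOpen P lam c a) N where
  e θ := (hx θ).evA
  smooth h := contDiff_evA hc hyc hx h
  periodic θ i := FPt.evA_congr _ _ (hp θ i) (hyp θ i)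

variable (x : (Fin N → ℝ) → (Fin (d + 1) → ℂ)) (y : (Fin N → ℝ) → (Fin n → ℂˣ))
    (hc : ContDiff ℝ 2 x) (hyc : ∀ i, Good fun θ => (y θ i : ℂ))
    (hp : ∀ θ i, x (θ + Pi.single i 1) = x θ) (hyp : ∀ θ i, y (θ + Pi.single i 1) = y θ)
    (hx : ∀ θ, FPt σ P lam c a (x θ) (y θ))

theorem mkF_fcst (θ : Fin N → ℝ) (r : K) :
    (mkF x y hc hyc hp hyp hx).e θ (fcst P lam c a r) = σ r :=
  RingHom.congr_fun (hx θ).cE_evA r

theorem mkF_fg (S : Fin (d + 2) → Fin (m + 1)) (i : Fin (d + 2)) (hγ : gam c S i ≠ 0) :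
    (mkF x y hc hyc hp hyp hx).fn (fg P lam c a S i : FOpen P lam c a) =
      fun θ => σ (gam c S i) * lc σ c a (x θ) (S i) := by
  funext θ
  show (hx θ).evA (fg P lam c a S i : FOpen P lam c a) = _
  rw [map_fg _ hγ, (hx θ).cE_evA, (hx θ).xE_evA]
  rfl

theorem mkF_fy (i : Fin n) :
    (mkF x y hc hyc hp hyp hx).fn (fy P lam c a i : FOpen P lam c a) =
      fun θ => (y θ i : ℂ) := by
  funext θ
  exact congrArg (fun u : Fin n → ℂˣ => ((u i : ℂˣ) : ℂ)) (hx θ).yE_evA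

end Ev

end Pool.Agent.Helper39.SB
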