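import Pool.Agent.Helper39.SB.Stb
import Pool.Agent.Y775.SN.Unr
set_option autoImplicit false

/-!
The varieties `P(y) = λ ∏_e L_e(x)`, `P` a Laurent polynomial, and the symbols
`{y_0, γ_1 L_{S 1}/(γ_0 L_{S 0}), ..., γ_(d+1) L_{S (d+1)}/(γ_0 L_{S 0}), y_1, ..., y_q}`.
-/

namespace Pool.Agent.Helper39.SB

open scoped WithZero

open Pool.Agent.TH826.MK (KQ symb Unramified unitPart)

open Pool.Agent.TH826.GA (lf gam ku coe_ku)

open Pool.Agent.TH826.DC (dPhi)

open Pool.Agent.Y797.IV (fx)

section units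

variable {K : Type*} [Field K] {n : ℕ}

theorem mn_ly (w : Fin n → ℤ) : mn (ly K) w = lu K n (Multiplicative.ofAdd w) := by
  unfold mn ly
  simp only [← map_zpow, ← map_prod]
  congr 1
  apply Multiplicative.toAdd.injective
  rw [toAdd_ofAdd, toAdd_prod]
  funext j
  rw [Finset.sum_apply, Finset.sum_eq_single j]
  · rw [toAdd_zpow, toAdd_ofAdd, Pi.smul_apply, Pi.single_eq_same]
    simp
  · intro i _ hi
    rw [toAdd_zpow, toAdd_ofAdd, Pi.smul_apply, Pi.single_eq_of_ne (Ne.symm hi), smul_zero]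
  · intro h
    exact absurd (Finset.mem_univ j) h

theorem coe_mn_ly (w : Fin n → ℤ) : ((mn (ly K) w : (LP K n)ˣ) : LP K n) =
    AddMonoidAlgebra.single w 1 := by
  rw [mn_ly]
  rfl

theorem mn_map {A B : Type*} [CommGroup A] [CommGroup B] (f : A →* B) (y : Fin n → A)
    (w : Fin n → ℤ) : f (mn y w) = mn (fun i => f (y i)) w := by
  unfold mn
  rw [map_prod]
  exact Finset.prod_congr rfl fun i _ => map_zpow f _ _

/-- Homomorphisms of the ring of Laurent polynomials are evaluations. -/
theorem hom_eq_ev {B : Type*} [CommRing B] (g : LP K n →+* B) :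
    g = ev (g.comp (cK K n)) (fun i => Units.map (g : LP K n →* B) (ly K i)) := by
  refine AddMonoidAlgebra.ringHom_ext (fun c => ?_) fun w => ?_
  · rw [ev_single, mn_zero, Units.val_one, mul_one]
    rfl
  · rw [ev_single, map_one, one_mul, ← mn_map, Units.coe_map]
    exact congrArg g (coe_mn_ly w).symm

end units

section Ring

variable {K : Type*} [Field K] {d m n q : ℕ} (P : LP K n) (lam : K)
  (c : Fin (m + 1) → Fin (d + 1) → K) (a : Fin (m + 1) → K)

/-- The equation in the open part. -/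
theorem feqn_open : toF P lam c a (fpol P lam c a (dPhi lam c a)) = flp P lam c a P := by
  have h : fof P lam c a (feqn P lam c a) = 0 :=
    Ideal.Quotient.eq_zero_iff_mem.2 (Ideal.mem_span_singleton_self _)
  unfold feqn at h
  rw [map_sub, sub_eq_zero] at h
  exact congrArg (toF P lam c a) h

end Ring

section hom

variable {K : Type*} [Field K] {d m n : ℕ} {P : LP K n} {lam : K}
  {c : Fin (m + 1) → Fin (d + 1) → K} {a : Fin (m + 1) → K}

variable {L : Type*} [Field L] (f : FOpen P lam c a →+* L)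

/-- the composite map from the coefficient field -/
noncomputable def cE : K →+* L := f.comp (fcst P lam c a)

/-- the image of `x_j` -/
noncomputable def xE (j : Fin (d + 1)) : L :=
  f (toF P lam c a (fpol P lam c a (MvPolynomial.X j)))

/-- the image of `y_i` -/
noncomputable def yE (i : Fin n) : Lˣ := Units.map (f : FOpen P lam c a →* L) (fy P lam c a i)

theorem f_fpol (p : MvPolynomial (Fin (d + 1)) K) :
    f (toF P lam c a (fpol P lam c a p)) = MvPolynomial.eval₂ (cE f) (xE f) p := by
  have h : (f.comp ((toF P lam c a).comp (fpol P lam c a))) =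
      MvPolynomial.eval₂Hom (cE f) (xE f) := by
    refine MvPolynomial.ringHom_ext (fun r => ?_) fun j => ?_
    · rw [MvPolynomial.coe_eval₂Hom, MvPolynomial.eval₂_C]
      rfl
    · rw [MvPolynomial.coe_eval₂Hom, MvPolynomial.eval₂_X]
      rfl
  exact RingHom.congr_fun h p

theorem eval₂_lf {K L : Type*} [Field K] [Field L] {d m : ℕ} (c : Fin (m + 1) → Fin (d + 1) → K)
    (a : Fin (m + 1) → K) (φ : K →+* L) (x : Fin (d + 1) → L) (e : Fin (m + 1)) :
    MvPolynomial.eval₂ φ x (lf c a e) = fx φ x c a e := by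
  unfold lf fx
  rw [MvPolynomial.eval₂_sub, MvPolynomial.eval₂_C, MvPolynomial.eval₂_sum]
  simp only [MvPolynomial.eval₂_mul, MvPolynomial.eval₂_C, MvPolynomial.eval₂_X]

theorem eval₂_dPhi {K L : Type*} [Field K] [Field L] {d m : ℕ} (lam : K)
    (c : Fin (m + 1) → Fin (d + 1) → K) (a : Fin (m + 1) → K) (φ : K →+* L)
    (x : Fin (d + 1) → L) :
    MvPolynomial.eval₂ φ x (dPhi lam c a) = φ lam * ∏ e, fx φ x c a e := by
  unfold dPhi
  rw [MvPolynomial.eval₂_mul, MvPolynomial.eval₂_C, MvPolynomial.eval₂_prod]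
  simp only [eval₂_lf]

theorem f_lf (e : Fin (m + 1)) :
    f (toF P lam c a (fpol P lam c a (lf c a e))) = fx (cE f) (xE f) c a e := by
  rw [f_fpol, eval₂_lf]

theorem f_fPhi : f (toF P lam c a (fpol P lam c a (dPhi lam c a))) =
    cE f lam * ∏ e, fx (cE f) (xE f) c a e := by
  rw [f_fpol, eval₂_dPhi]

theorem f_flp (p : LP K n) : f (flp P lam c a p) = ev (cE f) (yE f) p := by
  have h := hom_eq_ev (f.comp (flp P lam c a))
  have h1 : (f.comp (flp P lam c a)).comp (cK K n) = cE f := by
    refine RingHom.ext fun r => ?_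
    show f (toF P lam c a (fof P lam c a (MvPolynomial.C (cK K n r)))) =
      f (toF P lam c a (fof P lam c a (MvPolynomial.map (cK K n) (MvPolynomial.C r))))
    rw [MvPolynomial.map_C]
  have h2 : (fun i => Units.map ((f.comp (flp P lam c a) : LP K n →+* L) : LP K n →* L)
      (ly K i)) = yE f := by
    funext i
    ext
    rfl
  rw [h1, h2] at h
  exact RingHom.congr_fun h p

/-- The equation. -/
theorem f_eq : cE f lam * ∏ e, fx (cE f) (xE f) c a e = ev (cE f) (yE f) P := by
  rw [← f_fPhi, feqn_open, f_flp]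

theorem map_fg {S : Fin (d + 2) → Fin (m + 1)} {i : Fin (d + 2)} (hγ : gam c S i ≠ 0) :
    f (fg P lam c a S i : FOpen P lam c a) =
      cE f (gam c S i) * fx (cE f) (xE f) c a (S i) := by
  unfold fg
  rw [Units.val_mul, map_mul, coe_fu, f_lf]
  congr 1
  rw [Units.coe_map]
  show f (fcst P lam c a (ku (gam c S i) : K)) = _
  rw [coe_ku hγ]
  rfl

end hom

end Pool.Agent.Helper39.SB
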