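import Pool.Agent.Helper39.SB.Pts
set_option autoImplicit false

/-!
Tori in the complex varieties `∏_e H_e = η(θ)` at a point where `d + 1` of the `H_e` vanish and are
coordinates, `η` a small function on a torus.
-/

namespace Pool.Agent.Helper39.SB

open Filter Topology

open Pool.Agent.TH826.MK

open Pool.Agent.TH826.SX

open Pool.Agent.TH826.GA (mT QH prod_H contDiff_QH QH_ne exists_factor)

section zs

variable {d N : ℕ} (ιb : Fin d → Fin N)

/-- the number of the `k` with `ιb k = j` -/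
noncomputable def nb (j : Fin N) : ℝ := ∑ k, if j = ιb k then 1 else 0

theorem nb_nonneg (j : Fin N) : 0 ≤ nb ιb j :=
  Finset.sum_nonneg fun k _ => by split_ifs <;> norm_num

theorem nb_le (j : Fin N) : nb ιb j ≤ d := by
  unfold nb
  refine (Finset.sum_le_sum (g := fun _ => (1 : ℝ)) fun k _ => ?_).trans_eq (by simp)
  split_ifs <;> norm_num

theorem norm_two_pi_I : ‖(2 * Real.pi * Complex.I : ℂ)‖ = 2 * Real.pi := by
  rw [norm_mul, norm_mul, Complex.norm_I, Complex.norm_real, Complex.norm_ofNat, mul_one,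
    Real.norm_eq_abs, abs_of_pos Real.pi_pos]

/-- the torus `|z_k| = ρ`, `ω ∏ z_k = η` -/
noncomputable def zs (ρ : ℝ) (η : (Fin N → ℝ) → ℂ) (θ : Fin N → ℝ) : (Fin d → ℂ) × ℂ :=
  (fun k => circ ρ (θ (ιb k)), η θ / ∏ k, circ ρ (θ (ιb k)))

variable {ρ : ℝ} {η : (Fin N → ℝ) → ℂ}

theorem good_pb (hρ : 0 < ρ) : Good fun θ : Fin N → ℝ => ∏ k, circ ρ (θ (ιb k)) :=
  good_prod Finset.univ fun k => good_circ hρ (ιb k)

theorem lw_pb (hρ : 0 < ρ) (j : Fin N) (θ : Fin N → ℝ) :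
    lw (fun θ : Fin N → ℝ => ∏ k, circ ρ (θ (ιb k))) j θ = 2 * Real.pi * Complex.I * nb ιb j := by
  rw [lw_prod Finset.univ fun k => good_circ hρ (ιb k)]
  simp only [lw_circ hρ]
  unfold nb
  push_cast
  rw [Finset.mul_sum]
  exact Finset.sum_congr rfl fun k _ => by split_ifs <;> simp

theorem good_os (hρ : 0 < ρ) (hη : Good η) :
    Good fun θ : Fin N → ℝ => η θ / ∏ k, circ ρ (θ (ιb k)) := by
  simp only [div_eq_mul_inv]
  exact hη.mul (good_inv (good_pb ιb hρ))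

theorem lw_os (hρ : 0 < ρ) (hη : Good η) (j : Fin N) (θ : Fin N → ℝ) :
    lw (fun θ : Fin N → ℝ => η θ / ∏ k, circ ρ (θ (ιb k))) j θ =
      lw η j θ - 2 * Real.pi * Complex.I * nb ιb j := by
  simp only [div_eq_mul_inv]
  rw [lw_mul hη (good_inv (good_pb ιb hρ)), lw_inv (good_pb ιb hρ), lw_pb ιb hρ, sub_eq_add_neg]

theorem norm_os (hρ : 0 < ρ) (θ : Fin N → ℝ) :
    ‖η θ / ∏ k, circ ρ (θ (ιb k))‖ = ‖η θ‖ / ρ ^ d := by
  rw [norm_div, norm_prod]
  simp only [norm_circ hρ.le]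
  rw [Finset.prod_const, Finset.card_univ, Fintype.card_fin]

theorem norm_os_le (hρ : 0 < ρ) {θ : Fin N → ℝ} (hη : ‖η θ‖ ≤ ρ ^ (d + 1)) :
    ‖η θ / ∏ k, circ ρ (θ (ιb k))‖ ≤ ρ := by
  rw [norm_os ιb hρ, div_le_iff₀ (by positivity)]
  rwa [pow_succ, mul_comm] at hη

theorem contDiff_zs (hρ : 0 < ρ) (hη : Good η) : ContDiff ℝ 2 (zs ιb ρ η) :=
  (contDiff_pi.2 fun k => (good_circ hρ (ιb k)).smooth).prodMk (good_os ιb hρ hη).smooth

theorem norm_zs_le (hρ : 0 < ρ) {θ : Fin N → ℝ} (hη : ‖η θ‖ ≤ ρ ^ (d + 1)) :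
    ‖zs ιb ρ η θ‖ ≤ ρ := by
  rw [norm_prod_le_iff]
  refine ⟨?_, norm_os_le ιb hρ hη⟩
  rw [pi_norm_le_iff_of_nonneg hρ.le]
  intro k
  exact (norm_circ hρ.le _).le

theorem zs_add_single {θ : Fin N → ℝ} {i : Fin N} (h : η (θ + Pi.single i 1) = η θ) :
    zs ιb ρ η (θ + Pi.single i 1) = zs ιb ρ η θ := by
  have hcp : ∀ k : Fin N, circ ρ ((θ + Pi.single i 1 : Fin N → ℝ) k) = circ ρ (θ k) := by
    intro k
    exact congrFun (tpt_add_single (fun _ => ρ) θ i) k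
  unfold zs
  simp only [hcp, h]

theorem norm_fderiv_zs (hρ : 0 < ρ) (hη0 : Good η) {θ : Fin N → ℝ} (hη : ‖η θ‖ ≤ ρ ^ (d + 1))
    {E : ℝ} (hE : 0 ≤ E) {j : Fin N} (hlw : ‖lw η j θ‖ ≤ E) :
    ‖fderiv ℝ (zs ιb ρ η) θ (Pi.single j 1)‖ ≤ (E + 2 * Real.pi * (d + 1)) * ρ := by
  have hd : HasFDerivAt (zs ιb ρ η) (fderiv ℝ (zs ιb ρ η) θ) θ :=
    (((contDiff_zs ιb hρ hη0).differentiable (by norm_num)) θ).hasFDerivAt
  have hpi := Real.pi_pos
  have hd0 : (0 : ℝ) ≤ d := Nat.cast_nonneg d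
  have hpos : 0 ≤ (E + 2 * Real.pi * (d + 1)) * ρ := by positivity
  rw [norm_prod_le_iff]
  constructor
  · rw [pi_norm_le_iff_of_nonneg hpos]
    intro k
    have h1 := (((ContinuousLinearMap.proj (R := ℝ) (φ := fun _ : Fin d => ℂ) k).comp
      (ContinuousLinearMap.fst ℝ (Fin d → ℂ) ℂ)).hasFDerivAt).comp θ hd
    have h2 := h1.fderiv
    have h3 : (fderiv ℝ (zs ιb ρ η) θ (Pi.single j 1)).1 k =
        fderiv ℝ (fun θ : Fin N → ℝ => circ ρ (θ (ιb k))) θ (Pi.single j 1) :=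
      (DFunLike.congr_fun h2 (Pi.single j 1)).symm
    have h4 : fderiv ℝ (fun θ : Fin N → ℝ => circ ρ (θ (ιb k))) θ (Pi.single j 1) =
        lw (fun θ : Fin N → ℝ => circ ρ (θ (ιb k))) j θ * circ ρ (θ (ιb k)) := by
      unfold lw
      rw [div_mul_cancel₀ _ (circ_ne_zero hρ _)]
    rw [h3, h4, lw_circ hρ]
    split_ifs
    · rw [norm_mul, norm_two_pi_I, norm_circ hρ.le]
      refine mul_le_mul_of_nonneg_right ?_ hρ.le
      nlinarith
    · rw [zero_mul, norm_zero]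
      exact hpos
  · have h1 := ((ContinuousLinearMap.snd ℝ (Fin d → ℂ) ℂ).hasFDerivAt).comp θ hd
    have h2 := h1.fderiv
    have h3 : (fderiv ℝ (zs ιb ρ η) θ (Pi.single j 1)).2 =
        fderiv ℝ (fun θ : Fin N → ℝ => η θ / ∏ k, circ ρ (θ (ιb k))) θ (Pi.single j 1) :=
      (DFunLike.congr_fun h2 (Pi.single j 1)).symm
    have h4 : fderiv ℝ (fun θ : Fin N → ℝ => η θ / ∏ k, circ ρ (θ (ιb k))) θ (Pi.single j 1) =
        lw (fun θ : Fin N → ℝ => η θ / ∏ k, circ ρ (θ (ιb k))) j θ *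
          (η θ / ∏ k, circ ρ (θ (ιb k))) := by
      unfold lw
      rw [div_mul_cancel₀ _ ((good_os ιb hρ hη0).ne_zero θ)]
    rw [h3, h4, lw_os ιb hρ hη0, norm_mul]
    refine mul_le_mul ?_ (norm_os_le ιb hρ hη) (norm_nonneg _) (by positivity)
    refine (norm_sub_le _ _).trans ?_
    rw [norm_mul, norm_two_pi_I, Complex.norm_real, Real.norm_eq_abs,
      abs_of_nonneg (nb_nonneg ιb j)]
    have h5 := nb_le ιb j
    nlinarith

variable {δ C : ℝ} {φ : (Fin d → ℂ) × ℂ → ℂ}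

theorem good_nice' (hρ : 0 < ρ) (hρδ : ρ < δ) (hη0 : Good η) (hη : ∀ θ, ‖η θ‖ ≤ ρ ^ (d + 1))
    (hφ : Nice δ C φ) : Good fun θ => φ (zs ιb ρ η θ) := by
  have hz : ∀ θ : Fin N → ℝ, ‖zs ιb ρ η θ‖ < δ := fun θ => (norm_zs_le ιb hρ (hη θ)).trans_lt hρδ
  refine ⟨?_, fun θ => (hφ _ (hz θ)).2.1⟩
  rw [contDiff_iff_contDiffAt]
  intro θ
  exact (((hφ _ (hz θ)).1).restrict_scalars ℝ).comp θ (contDiff_zs ιb hρ hη0).contDiffAt

theorem lw_nice' (hρ : 0 < ρ) (hρδ : ρ < δ) (hη0 : Good η) {θ : Fin N → ℝ}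
    (hη : ‖η θ‖ ≤ ρ ^ (d + 1)) (hφ : Nice δ C φ) {E : ℝ} (hE : 0 ≤ E) {j : Fin N}
    (hlw : ‖lw η j θ‖ ≤ E) :
    ‖lw (fun θ => φ (zs ιb ρ η θ)) j θ‖ ≤ C * ((E + 2 * Real.pi * (d + 1)) * ρ) := by
  have hz : ‖zs ιb ρ η θ‖ < δ := (norm_zs_le ιb hρ hη).trans_lt hρδ
  have hd : HasFDerivAt (zs ιb ρ η) (fderiv ℝ (zs ιb ρ η) θ) θ :=
    (((contDiff_zs ιb hρ hη0).differentiable (by norm_num)) θ).hasFDerivAt
  obtain ⟨h1, h2, -, h3⟩ := hφ _ hz
  have h4 : HasFDerivAt φ ((fderiv ℂ φ (zs ιb ρ η θ)).restrictScalars ℝ) (zs ιb ρ η θ) :=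
    ((h1.differentiableAt (by norm_num)).hasFDerivAt).restrictScalars ℝ
  have h5 := (h4.comp θ hd).fderiv
  have h6 : fderiv ℝ (fun θ => φ (zs ιb ρ η θ)) θ (Pi.single j 1) =
      fderiv ℂ φ (zs ιb ρ η θ) (fderiv ℝ (zs ιb ρ η) θ (Pi.single j 1)) :=
    DFunLike.congr_fun h5 (Pi.single j 1)
  have hpi := Real.pi_pos
  unfold lw
  rw [h6, norm_div]
  have hpos : 0 < ‖φ (zs ιb ρ η θ)‖ := norm_pos_iff.2 h2
  have h7 : ‖fderiv ℂ φ (zs ιb ρ η θ) (fderiv ℝ (zs ιb ρ η) θ (Pi.single j 1))‖ ≤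
      ‖fderiv ℂ φ (zs ιb ρ η θ)‖ * ((E + 2 * Real.pi * (d + 1)) * ρ) :=
    (ContinuousLinearMap.le_opNorm _ _).trans
      (mul_le_mul_of_nonneg_left (norm_fderiv_zs ιb hρ hη0 hη hE hlw) (norm_nonneg _))
  calc _ ≤ ‖fderiv ℂ φ (zs ιb ρ η θ)‖ * ((E + 2 * Real.pi * (d + 1)) * ρ) /
        ‖φ (zs ιb ρ η θ)‖ := div_le_div_of_nonneg_right h7 hpos.le
    _ = ‖fderiv ℂ φ (zs ιb ρ η θ)‖ / ‖φ (zs ιb ρ η θ)‖ *
        ((E + 2 * Real.pi * (d + 1)) * ρ) := by ring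
    _ ≤ _ := mul_le_mul_of_nonneg_right h3 (by positivity)

end zs

section mono

variable {d N : ℕ} {ι : Type*} [DecidableEq ι] (T : Fin (d + 1) → ι) (ιb : Fin d → Fin N)

/-- `1` if `e` is the first hyperplane at the vertex `T` -/
noncomputable def oT (e : ι) : ℝ := if T 0 = e then 1 else 0

/-- the winding numbers coming from the other hyperplanes at the vertex `T` -/
noncomputable def bT (e : ι) (j : Fin N) : ℝ :=
  ∑ k : Fin d, if T k.succ = e then (if j = ιb k then 1 else 0) else 0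

theorem mT_eq (e : ι) (ζ : (Fin d → ℂ) × ℂ) : mT T e ζ =
    (if T 0 = e then ζ.2 else 1) * ∏ k : Fin d, if T k.succ = e then ζ.1 k else 1 := by
  unfold mT
  rw [Fin.prod_univ_succ]
  rfl

variable {ρ : ℝ} {η : (Fin N → ℝ) → ℂ}

theorem mT_props' (hρ : 0 < ρ) (hη : Good η) (e : ι) :
    Good (fun θ : Fin N → ℝ => mT T e (zs ιb ρ η θ)) ∧
    (∀ j θ, lw (fun θ : Fin N → ℝ => mT T e (zs ιb ρ η θ)) j θ =
      oT T e * (lw η j θ - 2 * Real.pi * Complex.I * nb ιb j) +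
        2 * Real.pi * Complex.I * bT T ιb e j) ∧
    ∀ θ : Fin N → ℝ, |Real.log ‖mT T e (zs ιb ρ η θ)‖ - oT T e * Real.log ‖η θ‖| ≤
      2 * d * |Real.log ρ| := by
  classical
  have h1 : Good fun θ : Fin N → ℝ => if T 0 = e then (zs ιb ρ η θ).2 else (1 : ℂ) := by
    by_cases h : T 0 = e
    · simp only [if_pos h]
      exact good_os ιb hρ hη
    · simp only [if_neg h]
      exact good_const one_ne_zero
  have h2 : ∀ k : Fin d, Good fun θ : Fin N → ℝ =>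
      if T k.succ = e then (zs ιb ρ η θ).1 k else (1 : ℂ) := by
    intro k
    by_cases h : T k.succ = e
    · simp only [if_pos h]
      exact good_circ hρ (ιb k)
    · simp only [if_neg h]
      exact good_const one_ne_zero
  have h3 := good_prod Finset.univ h2
  have hm : (fun θ : Fin N → ℝ => mT T e (zs ιb ρ η θ)) = fun θ =>
      (if T 0 = e then (zs ιb ρ η θ).2 else (1 : ℂ)) *
        ∏ k : Fin d, if T k.succ = e then (zs ιb ρ η θ).1 k else (1 : ℂ) :=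
    funext fun θ => mT_eq T e _
  refine ⟨by rw [hm]; exact h1.mul h3, fun j θ => ?_, fun θ => ?_⟩
  · rw [hm, lw_mul h1 h3, lw_prod Finset.univ h2]
    congr 1
    · unfold oT
      by_cases h : T 0 = e
      · simp only [if_pos h, Complex.ofReal_one, one_mul]
        exact lw_os ιb hρ hη j θ
      · simp only [if_neg h, Complex.ofReal_zero, zero_mul]
        exact lw_const _ _ _
    · unfold bT
      push_cast
      rw [Finset.mul_sum]
      refine Finset.sum_congr rfl fun k _ => ?_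
      by_cases h : T k.succ = e
      · simp only [if_pos h]
        have h4 := lw_circ hρ (ιb k) j θ
        have h5 : lw (fun θ : Fin N → ℝ => (zs ιb ρ η θ).1 k) j θ =
          if j = ιb k then 2 * Real.pi * Complex.I else 0 := h4
        rw [h5]
        split_ifs <;> simp
      · simp only [if_neg h]
        rw [lw_const]
        simp
  · rw [mT_eq, norm_mul, Real.log_mul (norm_ne_zero_iff.2 (h1.ne_zero θ))
      (norm_ne_zero_iff.2 (h3.ne_zero θ)), norm_prod,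
      Real.log_prod fun k _ => norm_ne_zero_iff.2 ((h2 k).ne_zero θ)]
    have h4 : |Real.log ‖if T 0 = e then (zs ιb ρ η θ).2 else (1 : ℂ)‖ -
        oT T e * Real.log ‖η θ‖| ≤ d * |Real.log ρ| := by
      unfold oT
      by_cases h : T 0 = e
      · rw [if_pos h, if_pos h]
        have h5 : ‖(zs ιb ρ η θ).2‖ = ‖η θ‖ / ρ ^ d := norm_os ιb hρ θ
        rw [h5, Real.log_div (norm_ne_zero_iff.2 (hη.ne_zero θ)) (by positivity), Real.log_pow,
          one_mul]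
        have h6 : Real.log ‖η θ‖ - d * Real.log ρ - Real.log ‖η θ‖ = -(d * Real.log ρ) := by ring
        rw [h6, abs_neg, abs_mul, Nat.abs_cast]
      · rw [if_neg h, if_neg h, norm_one, Real.log_one, zero_mul, sub_zero, abs_zero]
        positivity
    have h5 : |∑ k : Fin d, Real.log ‖if T k.succ = e then (zs ιb ρ η θ).1 k else (1 : ℂ)‖| ≤
        d * |Real.log ρ| := by
      refine (Finset.abs_sum_le_sum_abs _ _).trans ?_
      have h6 : ∀ k : Fin d, |Real.log ‖if T k.succ = e then (zs ιb ρ η θ).1 k else (1 : ℂ)‖| ≤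
          |Real.log ρ| := by
        intro k
        by_cases h : T k.succ = e
        · rw [if_pos h]
          have h7 : ‖(zs ιb ρ η θ).1 k‖ = ρ := norm_circ hρ.le _
          rw [h7]
        · rw [if_neg h, norm_one, Real.log_one, abs_zero]
          exact abs_nonneg _
      refine (Finset.sum_le_sum fun k _ => h6 k).trans_eq ?_
      rw [Finset.sum_const, Finset.card_univ, Fintype.card_fin, nsmul_eq_mul]
    have h6 : ∀ x y z : ℝ, x + y - z = (x - z) + y := fun x y z => by ring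
    rw [h6]
    refine (abs_add_le _ _).trans ?_
    linarith

end mono

section pts

variable {d : ℕ} {ι : Type*} [Fintype ι] [DecidableEq ι] {T : Fin (d + 1) → ι}
  {H : ι → (Fin d → ℂ) × ℂ → ℂ}

/-- The tori at the vertices. -/
theorem exists_points' (hT : Function.Injective T) (hH : ∀ e, ContDiff ℂ 2 (H e))
    (hTH : ∀ j u, H (T j) u = (Fin.cons u.2 u.1 : Fin (d + 1) → ℂ) j)
    (hH0 : ∀ e, (∀ j, T j ≠ e) → H e 0 ≠ 0) {ε E : ℝ} (hε : 0 < ε) (hE : 0 ≤ E) :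
    ∃ η0 C1 : ℝ, 0 < η0 ∧ 0 ≤ C1 ∧ ∀ (N : ℕ) (ιb : Fin d → Fin N) (η : (Fin N → ℝ) → ℂ), Good η →
      (∀ θ, ‖η θ‖ ≤ η0) → (∀ j θ, ‖lw η j θ‖ ≤ E) → (∀ θ i, η (θ + Pi.single i 1) = η θ) →
      ∃ X : (Fin N → ℝ) → (Fin d → ℂ) × ℂ, ContDiff ℝ 2 X ∧
        (∀ θ i, X (θ + Pi.single i 1) = X θ) ∧ (∀ θ, ∏ e, H e (X θ) = η θ) ∧
        (∀ e, Good fun θ => H e (X θ)) ∧
        ∀ e θ, |Real.log ‖H e (X θ)‖ - oT T e * Real.log ‖η θ‖| ≤ C1 ∧
          ∀ j, ‖lw (fun θ => H e (X θ)) j θ -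
            (oT T e * (lw η j θ - 2 * Real.pi * Complex.I * nb ιb j) +
              2 * Real.pi * Complex.I * bT T ιb e j)‖ ≤ ε := by
  obtain ⟨Y, hY, hY0, hYQ⟩ := exists_solution (QH T H) (contDiff_QH hH) (QH_ne hH0)
  choose φ hφ1 hφ2 hφ3 using exists_factor hT hH hTH hH0 hY hY0 hYQ
  choose C hC using fun e => exists_nice (hφ1 e) (hφ2 e)
  have hall := (hY.eventually (by norm_num)).and (hYQ.and
    ((eventually_all.2 fun e => hφ3 e).and (eventually_all.2 fun e => hC e)))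
  obtain ⟨δ, hδ, hball⟩ := Metric.eventually_nhds_iff.1 hall
  set C0 : ℝ := ∑ e, |C e| with hC0
  have hC00 : 0 ≤ C0 := Finset.sum_nonneg fun k _ => abs_nonneg _
  have hCle : ∀ e, C e ≤ C0 := fun e =>
    (le_abs_self _).trans (Finset.single_le_sum (f := fun e => |C e|)
      (fun j _ => abs_nonneg _) (Finset.mem_univ e))
  have hnice : ∀ e, Nice δ C0 (φ e) := by
    intro e ζ hζ
    obtain ⟨-, -, -, h⟩ := hball (y := ζ) (by rwa [dist_zero_right])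
    obtain ⟨a1, a2, a3, a4⟩ := h e
    exact ⟨a1, a2, a3.trans (hCle e), a4.trans (hCle e)⟩
  have hpi := Real.pi_pos
  have hd0 : (0 : ℝ) ≤ d := Nat.cast_nonneg d
  set F : ℝ := E + 2 * Real.pi * (d + 1) with hF
  have hFpos : 0 < F := by positivity
  set ρ : ℝ := min (δ / 2) (ε / (F * (C0 + 1))) with hρdef
  have hρ : 0 < ρ := lt_min (by linarith) (by positivity)
  have hρδ : ρ < δ := (min_le_left _ _).trans_lt (by linarith)
  have hρε : C0 * (F * ρ) ≤ ε := by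
    have h1 : ρ ≤ ε / (F * (C0 + 1)) := min_le_right _ _
    rw [le_div_iff₀ (by positivity)] at h1
    calc C0 * (F * ρ) ≤ (C0 + 1) * (F * ρ) :=
          mul_le_mul_of_nonneg_right (by linarith) (by positivity)
      _ = ρ * (F * (C0 + 1)) := by ring
      _ ≤ ε := h1
  refine ⟨ρ ^ (d + 1), 2 * d * |Real.log ρ| + C0, by positivity, by positivity,
    fun N ιb η hη hηρ hlw hper => ?_⟩
  have hz : ∀ θ : Fin N → ℝ, ‖zs ιb ρ η θ‖ < δ := fun θ =>
    (norm_zs_le ιb hρ (hηρ θ)).trans_lt hρδ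
  have hb := fun θ : Fin N → ℝ => hball (y := zs ιb ρ η θ) (by rw [dist_zero_right]; exact hz θ)
  set X : (Fin N → ℝ) → (Fin d → ℂ) × ℂ := fun θ => ((zs ιb ρ η θ).1, Y (zs ιb ρ η θ)) with hX
  have hfac : ∀ e, (fun θ => H e (X θ)) = fun θ => mT T e (zs ιb ρ η θ) * φ e (zs ιb ρ η θ) :=
    fun e => funext fun θ => (hb θ).2.2.1 e
  have hg : ∀ e, Good fun θ => φ e (zs ιb ρ η θ) := fun e =>
    good_nice' ιb hρ hρδ hη hηρ (hnice e)
  refine ⟨X, ?_, fun θ i => ?_, fun θ => ?_, fun e => ?_, fun e θ => ?_⟩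
  · rw [contDiff_iff_contDiffAt]
    intro θ
    have h1 : ContDiffAt ℝ 2 (fun ζ : (Fin d → ℂ) × ℂ => (ζ.1, Y ζ)) (zs ιb ρ η θ) := by
      refine ContDiffAt.restrict_scalars ℝ (𝕜' := ℂ) ?_
      exact contDiffAt_fst.prodMk (hb θ).1
    exact h1.comp θ (contDiff_zs ιb hρ hη).contDiffAt
  · simp only [hX]
    rw [zs_add_single ιb (hper θ i)]
  · rw [prod_H hT hTH]
    have h1 : Y (zs ιb ρ η θ) * QH T H ((zs ιb ρ η θ).1, Y (zs ιb ρ η θ)) =
        (zs ιb ρ η θ).2 := (hb θ).2.1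
    show (∏ k, (zs ιb ρ η θ).1 k) *
      (Y (zs ιb ρ η θ) * QH T H ((zs ιb ρ η θ).1, Y (zs ιb ρ η θ))) = η θ
    rw [h1]
    exact mul_div_cancel₀ _ ((good_pb ιb hρ).ne_zero θ)
  · rw [hfac e]
    exact (mT_props' T ιb hρ hη e).1.mul (hg e)
  · obtain ⟨hm1, hm2, hm3⟩ := mT_props' T ιb hρ hη e
    have hn := (hnice e) _ (hz θ)
    refine ⟨?_, fun j => ?_⟩
    · rw [congrFun (hfac e) θ, norm_mul, Real.log_mul (norm_ne_zero_iff.2 (hm1.ne_zero θ))
        (norm_ne_zero_iff.2 hn.2.1)]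
      have e' : Real.log ‖mT T e (zs ιb ρ η θ)‖ + Real.log ‖φ e (zs ιb ρ η θ)‖ -
          oT T e * Real.log ‖η θ‖ = (Real.log ‖mT T e (zs ιb ρ η θ)‖ -
            oT T e * Real.log ‖η θ‖) + Real.log ‖φ e (zs ιb ρ η θ)‖ := by
        ring
      rw [e']
      refine (abs_add_le _ _).trans (add_le_add (hm3 θ) hn.2.2.1)
    · rw [hfac e, lw_mul hm1 (hg e), hm2, add_sub_cancel_left]
      exact (lw_nice' ιb hρ hρδ hη (hηρ θ) (hnice e) hE (hlw j θ)).trans hρε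

end pts

end Pool.Agent.Helper39.SB
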