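import Pool.Agent.Helper39.SB.Alt
set_option autoImplicit false

/-!
Steinberg Laurent polynomials.
-/

namespace Pool.Agent.Helper39.SB

open scoped WithZero

open Pool.Agent.TH826.MK (KQ symb)

open Pool.Agent.TH826.EF (onePart)

open Pool.Agent.TH826.DC (cup cup_symb)

section mn

variable {G : Type*} [CommGroup G] {n : ℕ} (y : Fin n → G)

theorem mn_zero : mn y 0 = 1 := by
  unfold mn
  simp

theorem mn_add (u w : Fin n → ℤ) : mn y (u + w) = mn y u * mn y w := by
  unfold mn
  rw [← Finset.prod_mul_distrib]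
  exact Finset.prod_congr rfl fun i _ => by rw [Pi.add_apply, zpow_add]

theorem mn_sub (u w : Fin n → ℤ) : mn y (u - w) = mn y u / mn y w := by
  rw [eq_div_iff_mul_eq', ← mn_add, sub_add_cancel]

theorem mn_single (i : Fin n) (k : ℤ) : mn y (Pi.single i k) = y i ^ k := by
  classical
  unfold mn
  rw [Finset.prod_eq_single i]
  · rw [Pi.single_eq_same]
  · intro j _ hj
    rw [Pi.single_eq_of_ne hj, zpow_zero]
  · intro h
    exact absurd (Finset.mem_univ i) h

end mn

section ev

variable {R B : Type*} [CommRing R] [CommRing B] {n : ℕ}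

/-- The monomials as a homomorphism of the exponents. -/
def monHom (y : Fin n → Bˣ) : Multiplicative (Fin n → ℤ) →* B where
  toFun w := (mn y w.toAdd : Bˣ)
  map_one' := by rw [toAdd_one, mn_zero, Units.val_one]
  map_mul' u w := by rw [toAdd_mul, mn_add, Units.val_mul]

/-- The value of a Laurent polynomial with coefficients in `R` at the units `y` of `B`. -/
noncomputable def ev (φ : R →+* B) (y : Fin n → Bˣ) : AddMonoidAlgebra R (Fin n → ℤ) →+* B :=
  AddMonoidAlgebra.liftNCRingHom φ (monHom y) fun _ _ => Commute.all _ _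

theorem ev_single (φ : R →+* B) (y : Fin n → Bˣ) (w : Fin n → ℤ) (c : R) :
    ev φ y (AddMonoidAlgebra.single w c) = φ c * (mn y w : Bˣ) := by
  unfold ev
  rw [AddMonoidAlgebra.liftNCRingHom_single]
  rfl

end ev

theorem RootU.ne {K : Type*} [Field K] {ε : K} (h : RootU ε) : ε ≠ 0 := by
  obtain ⟨N, hN, h⟩ := h
  rintro rfl
  rw [zero_pow hN] at h
  exact zero_ne_one h

theorem RootU.neg {K : Type*} [Field K] {ε : K} (h : RootU ε) : RootU (-ε) := by
  obtain ⟨N, hN, h⟩ := h
  refine ⟨2 * N, by omega, ?_⟩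
  rw [pow_mul, neg_sq, ← pow_mul, mul_comm 2 N, pow_mul, h, one_pow]

theorem qv_add {n : ℕ} (u w : Fin n → ℤ) : qv (u + w) = qv u + qv w := by
  funext i
  simp [qv]

theorem qv_sub {n : ℕ} (u w : Fin n → ℤ) : qv (u - w) = qv u - qv w := by
  funext i
  simp [qv]

section supp

variable {K : Type*} [Field K] {n : ℕ} {V : Submodule ℚ (Fin n → ℚ)}
  {f : AddMonoidAlgebra K (Fin n → ℤ)}

theorem Steinberg.diff_mem (hf : Steinberg V f) :
    ∀ w ∈ f.coeff.support, ∀ w' ∈ f.coeff.support, qv (w - w') ∈ V := by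
  classical
  induction hf with
  | mono w ε hε =>
    intro u hu u' hu'
    have h1 : ∀ u ∈ (AddMonoidAlgebra.single w ε).coeff.support, u = w := fun u hu =>
      Finset.mem_singleton.1 (Finsupp.support_single_subset hu)
    rw [h1 u hu, h1 u' hu', sub_self]
    have h2 : qv (0 : Fin n → ℤ) = 0 := by
      funext i
      simp [qv]
    rw [h2]
    exact Submodule.zero_mem _
  | @mul V W f g hf hg ihf ihg =>
    intro u hu u' hu'
    obtain ⟨a, ha, b, hb, rfl⟩ := Finset.mem_add.1 (AddMonoidAlgebra.support_coeff_mul_subset f g hu)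
    obtain ⟨a', ha', b', hb', rfl⟩ := Finset.mem_add.1 (AddMonoidAlgebra.support_coeff_mul_subset f g hu')
    have h1 : a + b - (a' + b') = (a - a') + (b - b') := by abel
    rw [h1, qv_add]
    exact Submodule.add_mem _ (Submodule.mem_sup_left (ihf a ha a' ha'))
      (Submodule.mem_sup_right (ihg b hb b' hb'))
  | @cone V f w₀ w ε hε hf hw₀ hw ih =>
    have h1 : ∀ u ∈ (f + AddMonoidAlgebra.single w ε).coeff.support,
        qv (u - w₀) ∈ V ⊔ Submodule.span ℚ {qv (w - w₀)} := by
      intro u hu
      have h2 := Finsupp.support_add (g₁ := f.coeff)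
        (g₂ := (AddMonoidAlgebra.single w ε : AddMonoidAlgebra K (Fin n → ℤ)).coeff) hu
      rcases Finset.mem_union.1 h2 with h3 | h3
      · exact Submodule.mem_sup_left (ih u h3 w₀ hw₀)
      · have h4 : u = w := Finset.mem_singleton.1 (Finsupp.support_single_subset h3)
        rw [h4]
        exact Submodule.mem_sup_right (Submodule.mem_span_singleton_self _)
    intro u hu u' hu'
    have h2 : qv (u - u') = qv (u - w₀) - qv (u' - w₀) := by
      rw [← qv_sub]
      congr 1
      abel
    rw [h2]
    exact Submodule.sub_mem _ (h1 u hu) (h1 u' hu')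

end supp

section key

variable {K L : Type*} [Field K] [Field L] {n : ℕ} (φ : K →+* L) (y : Fin n → Lˣ)

theorem RootU.cup_zero {ε : K} (h : RootU ε) {x : Lˣ} (hx : (x : L) = φ ε) {r : ℕ} (z : KQ L r) :
    cup x z = 0 := by
  obtain ⟨N, hN, h⟩ := h
  refine cup_of_pow hN ?_ z
  ext
  rw [Units.val_pow_eq_pow_val, hx, ← map_pow, h, map_one, Units.val_one]

theorem RootU.val_one {ε : K} (h : RootU ε) (v : Valuation L ℤᵐ⁰) : v (φ ε) = 1 := by
  obtain ⟨N, hN, h⟩ := h
  have h1 : v (φ ε) ^ N = 1 := by rw [← map_pow, ← map_pow, h, map_one, map_one]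
  exact (pow_eq_one_iff_of_nonneg zero_le hN).1 h1

theorem altQ_cons_of_mem {r : ℕ} {W : Fin r → Fin n → ℚ} {u : Fin n → ℤ}
    (hu : qv u ∈ Submodule.span ℚ (Set.range W)) : cup (mn y u) (altQ (L := L) y W) = 0 := by
  rw [← altQ_cons]
  refine AlternatingMap.map_linearDependent _ _ fun h => ?_
  exact (linearIndependent_finCons.1 h).2 hu

/-- The properties of the unit `F = f / y^(w₀)`: if `f + ε y^w` is not zero, its symbol with the
monomials is zero, and `y^(w - w₀)` is up to a root of unity a product of `F` and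
`s = -ε y^(w - w₀) / F`. -/
theorem cup_mono_eq {ε : K} (hε : RootU ε) {m F s : Lˣ} (hs : (s : L) * F = -φ ε * m) {r : ℕ}
    (z : KQ L r) (hF : cup F z = 0) : cup m z = cup s z := by
  have hεn : φ (-ε) ≠ 0 := (map_ne_zero φ).2 hε.neg.ne
  set t : Lˣ := Units.mk0 (φ (-ε)) hεn with ht
  have h1 : s * F = t * m := by
    ext
    rw [Units.val_mul, Units.val_mul, hs, ht, Units.val_mk0, map_neg]
  have h2 := congrArg (fun x : Lˣ => cup x z) h1
  simp only [cup_mul] at h2
  rw [hF, hε.neg.cup_zero φ (x := t) (by rw [ht, Units.val_mk0]), add_zero, zero_add] at h2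
  exact h2.symm

/-- The symbol of `f / y^(w₀)` and the monomials vanishes. -/
theorem Steinberg.sym {V : Submodule ℚ (Fin n → ℚ)} {f : AddMonoidAlgebra K (Fin n → ℤ)}
    (hf : Steinberg V f) : ∀ w₀ ∈ f.coeff.support, ∀ x : Lˣ, (x : L) * (mn y w₀ : Lˣ) = ev φ y f →
      ∀ (r : ℕ) (W : Fin r → Fin n → ℚ), V ≤ Submodule.span ℚ (Set.range W) →
        cup x (altQ y W) = 0 := by
  classical
  induction hf with
  | mono w ε hε =>
    intro w₀ hw₀ x hx r W _
    have h1 : w₀ = w := Finset.mem_singleton.1 (Finsupp.support_single_subset hw₀)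
    rw [h1, ev_single] at hx
    exact hε.cup_zero φ (mul_right_cancel₀ (Units.ne_zero _) hx) _
  | @mul V W f g hf hg ihf ihg =>
    intro w₀ hw₀ x hx r U hU
    obtain ⟨a, ha, b, hb, rfl⟩ := Finset.mem_add.1 (AddMonoidAlgebra.support_coeff_mul_subset f g hw₀)
    rw [map_mul] at hx
    have h0 : ev φ y f * ev φ y g ≠ 0 := by
      rw [← hx]
      exact mul_ne_zero x.ne_zero (Units.ne_zero _)
    have hf0 : ev φ y f ≠ 0 := left_ne_zero_of_mul h0
    have hg0 : ev φ y g ≠ 0 := right_ne_zero_of_mul h0
    set xf : Lˣ := Units.mk0 _ hf0 / mn y a with hxf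
    set xg : Lˣ := Units.mk0 _ hg0 / mn y b with hxg
    have h1 : x = xf * xg := by
      have h2 : x * mn y (a + b) = Units.mk0 _ hf0 * Units.mk0 _ hg0 := by
        ext
        rw [Units.val_mul, Units.val_mul, hx, Units.val_mk0, Units.val_mk0]
      rw [mn_add] at h2
      rw [hxf, hxg, div_mul_div_comm, eq_div_iff_mul_eq', h2]
    have h3 : (xf : L) * (mn y a : Lˣ) = ev φ y f := by
      rw [← Units.val_mul, hxf, div_mul_cancel, Units.val_mk0]
    have h4 : (xg : L) * (mn y b : Lˣ) = ev φ y g := by
      rw [← Units.val_mul, hxg, div_mul_cancel, Units.val_mk0]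
    rw [h1, cup_mul, ihf a ha xf h3 r U (le_sup_left.trans hU),
      ihg b hb xg h4 r U (le_sup_right.trans hU), add_zero]
  | @cone V f w₀ w ε hε hf hw₀ hw ih =>
    intro w₁ hw₁ x hx r U hU
    have hd : qv (w₁ - w₀) ∈ V ⊔ Submodule.span ℚ {qv (w - w₀)} := by
      have h2 := Finsupp.support_add (g₁ := f.coeff)
        (g₂ := (AddMonoidAlgebra.single w ε : AddMonoidAlgebra K (Fin n → ℤ)).coeff) hw₁
      rcases Finset.mem_union.1 h2 with h3 | h3
      · exact Submodule.mem_sup_left (hf.diff_mem w₁ h3 w₀ hw₀)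
      · have h4 : w₁ = w := Finset.mem_singleton.1 (Finsupp.support_single_subset h3)
        rw [h4]
        exact Submodule.mem_sup_right (Submodule.mem_span_singleton_self _)
    -- reduction to the exponent `w₀`
    set x' : Lˣ := x * mn y (w₁ - w₀) with hx'
    have hx1 : cup x (altQ y U) = cup x' (altQ y U) := by
      rw [hx', cup_mul, altQ_cons_of_mem y (hU hd), add_zero]
    have hx2 : (x' : L) * (mn y w₀ : Lˣ) = ev φ y f + φ ε * (mn y w : Lˣ) := by
      rw [map_add, ev_single] at hx
      rw [← hx, ← Units.val_mul, ← Units.val_mul, hx', mul_assoc, ← mn_add, sub_add_cancel]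
    rw [hx1]
    set m : Lˣ := mn y (w - w₀) with hm
    have hmw : mn y w = m * mn y w₀ := by rw [hm, ← mn_add, sub_add_cancel]
    have main : ∀ (r' : ℕ) (W' : Fin r' → Fin n → ℚ), V ≤ Submodule.span ℚ (Set.range W') →
        cup x' (cup m (altQ y W')) = 0 := by
      intro r' W' hW'
      by_cases hf0 : ev φ y f = 0
      · have h3 : (x' : L) * (mn y w₀ : Lˣ) = (φ ε * m) * (mn y w₀ : Lˣ) := by
          rw [hx2, hf0, zero_add, hmw, Units.val_mul, ← mul_assoc]
        have h3 := mul_right_cancel₀ (Units.ne_zero _) h3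
        set t : Lˣ := Units.mk0 (φ ε) ((map_ne_zero φ).2 hε.ne) with ht
        have h4 : x' = t * m := by
          ext
          rw [h3, Units.val_mul, ht, Units.val_mk0]
        rw [h4, cup_mul, cup_cup_self, hε.cup_zero φ (x := t) (by rw [ht, Units.val_mk0]),
          add_zero]
      · set F : Lˣ := Units.mk0 _ hf0 / mn y w₀ with hF
        have hFe : (F : L) * (mn y w₀ : Lˣ) = ev φ y f := by
          rw [← Units.val_mul, hF, div_mul_cancel, Units.val_mk0]
        have hFz := ih w₀ hw₀ F hFe r' W' hW'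
        have hεn : φ (-ε) ≠ 0 := (map_ne_zero φ).2 hε.neg.ne
        set s : Lˣ := Units.mk0 (φ (-ε)) hεn * m / F with hs
        have hsF : (s : L) * F = -φ ε * m := by
          rw [← Units.val_mul, hs, div_mul_cancel, Units.val_mul, Units.val_mk0, map_neg]
        set g : Lˣ := x' / F with hg
        have hgF : x' = g * F := by rw [hg, div_mul_cancel]
        have hgs : (g : L) + (s : L) = 1 := by
          have h5 : ((g : L) + (s : L)) * F = 1 * F := by
            rw [add_mul, hsF, ← Units.val_mul, ← hgF, one_mul]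
            have h6 : (x' : L) * (mn y w₀ : Lˣ) = (F + φ ε * m) * (mn y w₀ : Lˣ) := by
              rw [hx2, hmw, Units.val_mul, ← hFe]
              ring
            have h7 := mul_right_cancel₀ (Units.ne_zero _) h6
            rw [h7]
            ring
          exact mul_right_cancel₀ (Units.ne_zero _) h5
        rw [hgF, cup_mul, cup_cup_comm F, hFz, map_zero, neg_zero, add_zero,
          cup_mono_eq φ hε hsF _ hFz, cup_cup_steinberg hgs]
    rcases r with _ | r
    · exfalso
      apply hw
      have h5 : qv (w - w₀) ∈ Submodule.span ℚ (Set.range U) :=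
        hU (Submodule.mem_sup_right (Submodule.mem_span_singleton_self _))
      have h6 : Set.range U = ∅ := Set.range_eq_empty U
      rw [h6, Submodule.span_empty, Submodule.mem_bot] at h5
      rw [h5]
      exact V.zero_mem
    · rcases reduce (altQ y) hw U hU with h5 | ⟨W', hW', h5⟩
      · rw [h5, map_zero]
      · obtain ⟨c, hc⟩ := Submodule.mem_span_singleton.1 h5
        rw [← hc, map_smul, altQ_cons, main r W' hW', smul_zero]

/-- The value of a Steinberg Laurent polynomial is as large as possible, or the symbol of the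
monomials is generated by symbols with one-units. -/
theorem Steinberg.val {V : Submodule ℚ (Fin n → ℚ)} {f : AddMonoidAlgebra K (Fin n → ℤ)}
    (hf : Steinberg V f) (v : Valuation L ℤᵐ⁰) : ∃ H : ℤᵐ⁰,
      (∀ w ∈ f.coeff.support, v (mn y w : Lˣ) ≤ H) ∧ ((∀ i, v (y i : L) = 1) → H = 1) ∧
      v (ev φ y f) ≤ H ∧ (v (ev φ y f) = H ∨ ∀ (r : ℕ) (W : Fin r → Fin n → ℚ),
        V ≤ Submodule.span ℚ (Set.range W) → altQ y W ∈ onePart v r) := by
  classical
  have hmn : (∀ i, v (y i : L) = 1) → ∀ w, v (mn y w : Lˣ) = 1 := by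
    intro h w
    unfold mn
    rw [Units.coe_prod, map_prod]
    refine Finset.prod_eq_one fun i _ => ?_
    rw [Units.val_zpow_eq_zpow_val, map_zpow₀, h, one_zpow]
  induction hf with
  | mono w ε hε =>
    refine ⟨v (mn y w : Lˣ), fun u hu => ?_, fun h => hmn h w, ?_, Or.inl ?_⟩
    · have h1 : u = w := Finset.mem_singleton.1 (Finsupp.support_single_subset hu)
      rw [h1]
    · rw [ev_single, map_mul, hε.val_one φ v, one_mul]
    · rw [ev_single, map_mul, hε.val_one φ v, one_mul]
  | @mul V W f g hf hg ihf ihg =>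
    obtain ⟨Hf, f1, f2, f3, f4⟩ := ihf
    obtain ⟨Hg, g1, g2, g3, g4⟩ := ihg
    refine ⟨Hf * Hg, fun u hu => ?_, fun h => by rw [f2 h, g2 h, one_mul], ?_, ?_⟩
    · obtain ⟨a, ha, b, hb, rfl⟩ := Finset.mem_add.1 (AddMonoidAlgebra.support_coeff_mul_subset f g hu)
      rw [mn_add, Units.val_mul, map_mul]
      exact mul_le_mul' (f1 a ha) (g1 b hb)
    · rw [map_mul, map_mul]
      exact mul_le_mul' f3 g3
    · rcases f4 with f4 | f4
      · rcases g4 with g4 | g4
        · left
          rw [map_mul, map_mul, f4, g4]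
        · exact Or.inr fun r U hU => g4 r U (le_sup_right.trans hU)
      · exact Or.inr fun r U hU => f4 r U (le_sup_left.trans hU)
  | @cone V f w₀ w ε hε hf hw₀ hw ih =>
    obtain ⟨H, h1, h2, h3, h4⟩ := ih
    have hvw : v (φ ε * (mn y w : Lˣ)) = v (mn y w : Lˣ) := by
      rw [map_mul, hε.val_one φ v, one_mul]
    have hle : v (ev φ y (f + AddMonoidAlgebra.single w ε)) ≤ max H (v (mn y w : Lˣ)) := by
      rw [map_add, ev_single]
      exact (v.map_add _ _).trans (max_le_max h3 hvw.le)
    refine ⟨max H (v (mn y w : Lˣ)), fun u hu => ?_, fun h => by rw [h2 h, hmn h, max_self],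
      hle, ?_⟩
    · have h5 := Finsupp.support_add (g₁ := f.coeff)
        (g₂ := (AddMonoidAlgebra.single w ε : AddMonoidAlgebra K (Fin n → ℤ)).coeff) hu
      rcases Finset.mem_union.1 h5 with h6 | h6
      · exact (h1 u h6).trans (le_max_left _ _)
      · have h7 : u = w := Finset.mem_singleton.1 (Finsupp.support_single_subset h6)
        rw [h7]
        exact le_max_right _ _
    · rcases h4 with h4 | h4
      swap
      · exact Or.inr fun r U hU => h4 r U (le_sup_left.trans hU)
      by_cases hne : v (ev φ y f) = v (φ ε * (mn y w : Lˣ))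
      swap
      · left
        rw [map_add, ev_single, Valuation.map_add_of_distinct_val v hne, h4, hvw]
      rcases lt_or_eq_of_le hle with hlt | heq
      swap
      · exact Or.inl heq
      right
      have hHw : H = v (mn y w : Lˣ) := by rw [← h4, hne, hvw]
      rw [← hHw, max_self] at hlt
      have hH0 : H ≠ 0 := by
        rw [hHw, Valuation.ne_zero_iff]
        exact Units.ne_zero _
      have hf0 : ev φ y f ≠ 0 := by
        rw [← Valuation.ne_zero_iff v, h4]
        exact hH0
      set m : Lˣ := mn y (w - w₀) with hm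
      have hmw : mn y w = m * mn y w₀ := by rw [hm, ← mn_add, sub_add_cancel]
      set F : Lˣ := Units.mk0 _ hf0 / mn y w₀ with hF
      have hFe : (F : L) * (mn y w₀ : Lˣ) = ev φ y f := by
        rw [← Units.val_mul, hF, div_mul_cancel, Units.val_mk0]
      have hεn : φ (-ε) ≠ 0 := (map_ne_zero φ).2 hε.neg.ne
      set s : Lˣ := Units.mk0 (φ (-ε)) hεn * m / F with hs
      have hsF : (s : L) * F = -φ ε * m := by
        rw [← Units.val_mul, hs, div_mul_cancel, Units.val_mul, Units.val_mk0, map_neg]
      have hs1 : v ((s : L) - 1) < 1 := by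
        have h5 : ((s : L) - 1) * ev φ y f =
            -ev φ y (f + AddMonoidAlgebra.single w ε) := by
          rw [map_add, ev_single, hmw, Units.val_mul, sub_mul, one_mul, ← hFe, ← mul_assoc, hsF]
          ring
        have h6 := congrArg v h5
        rw [map_mul, Valuation.map_neg, h4] at h6
        have h7 : v ((s : L) - 1) * H < 1 * H := by
          rw [h6, one_mul]
          exact hlt
        exact lt_of_mul_lt_mul_right' h7
      intro r U hU
      rcases r with _ | r
      · exfalso
        apply hw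
        have h5 : qv (w - w₀) ∈ Submodule.span ℚ (Set.range U) :=
          hU (Submodule.mem_sup_right (Submodule.mem_span_singleton_self _))
        have h6 : Set.range U = ∅ := Set.range_eq_empty U
        rw [h6, Submodule.span_empty, Submodule.mem_bot] at h5
        rw [h5]
        exact V.zero_mem
      · rcases reduce (altQ y) hw U hU with h5 | ⟨W', hW', h5⟩
        · rw [h5]
          exact Submodule.zero_mem _
        · obtain ⟨c, hc⟩ := Submodule.mem_span_singleton.1 h5
          rw [← hc, altQ_cons, ← hm, cup_mono_eq φ hε hsF _ (hf.sym φ y w₀ hw₀ F hFe r W' hW')]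
          exact Submodule.smul_mem _ _ (cup_mem_onePart_of_lt v hs1 _)

/-- The main property: the symbol `{y_1, ..., y_n}` is generated by symbols with one-units, or the
value of `f` is larger than `1`, or all `y_i` and `f` are units. -/
theorem Steinberg.adm {V : Submodule ℚ (Fin n → ℚ)} {f : AddMonoidAlgebra K (Fin n → ℤ)}
    (hf : Steinberg V f)
    (hint : ∀ μ : Fin n → ℤ, μ ≠ 0 → ∃ w ∈ f.coeff.support, 0 < ∑ i, w i * μ i)
    (v : Valuation L ℤᵐ⁰) : symb y ∈ onePart v n ∨ 1 < v (ev φ y f) ∨
      ((∀ i, v (y i : L) = 1) ∧ v (ev φ y f) = 1) := by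
  classical
  obtain ⟨H, h1, h2, h3, h4⟩ := hf.val φ y v
  rcases h4 with h4 | h4
  swap
  · left
    have h5 := h4 n (fun i => qv (Pi.single i 1)) (by
      have h6 : Submodule.span ℚ (Set.range fun i : Fin n => qv (Pi.single i 1 : Fin n → ℤ)) =
          ⊤ := by
        have h7 : (fun i : Fin n => qv (Pi.single i 1 : Fin n → ℤ)) =
            fun i => Pi.basisFun ℚ (Fin n) i := by
          funext i j
          rw [Pi.basisFun_apply]
          unfold qv
          by_cases h : j = i
          · subst h; simp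
          · simp [h]
        rw [h7]
        exact (Pi.basisFun ℚ (Fin n)).span_eq
      rw [h6]
      exact le_top)
    rw [altQ_qv] at h5
    have h6 : (fun i => mn y (Pi.single i 1)) = y := by
      funext i
      rw [mn_single, zpow_one]
    rwa [h6] at h5
  right
  by_cases hy : ∀ i, v (y i : L) = 1
  · exact Or.inr ⟨hy, by rw [h4, h2 hy]⟩
  left
  choose μ hμ using fun i => Pool.Agent.TH826.MK.exists_ord v (y i)
  have hμ0 : μ ≠ 0 := by
    intro h
    apply hy
    intro i
    rw [hμ, h, Pi.zero_apply, WithZero.exp_zero]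
  obtain ⟨w, hw, hpos⟩ := hint μ hμ0
  have h5 : v (mn y w : Lˣ) = WithZero.exp (∑ i, w i * μ i) := by
    unfold mn
    rw [Units.coe_prod, map_prod]
    have h6 : ∀ s : Finset (Fin n), ∏ i ∈ s, v ((y i ^ w i : Lˣ) : L) =
        WithZero.exp (∑ i ∈ s, w i * μ i) := by
      intro s
      induction s using Finset.induction_on with
      | empty => rw [Finset.prod_empty, Finset.sum_empty, WithZero.exp_zero]
      | insert i s hi ih =>
        rw [Finset.prod_insert hi, Finset.sum_insert hi, ih, WithZero.exp_add,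
          Units.val_zpow_eq_zpow_val, map_zpow₀, hμ, ← WithZero.exp_zsmul, smul_eq_mul]
    exact h6 _
  rw [h4]
  refine lt_of_lt_of_le ?_ (h1 w hw)
  rw [h5, ← WithZero.exp_zero, WithZero.exp_lt_exp]
  exact hpos

end key

end Pool.Agent.Helper39.SB
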