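import Pool.Agent.Helper39.SB.Ring
set_option autoImplicit false

/-!
The symbols of the simplices on the varieties `P(y) = λ ∏_e L_e(x)` are unramified.
-/

namespace Pool.Agent.Helper39.SB

open scoped WithZero

open Pool.Agent.TH826.MK (KQ symb Unramified unitPart)

open Pool.Agent.TH826.GA (cm vtx gam ku coe_ku)

open Pool.Agent.TH826.DC (dPhi)

open Pool.Agent.TH826.EF (onePart onePart_le mem_onePart_of_sum_lt)

open Pool.Agent.TH690.SF (iu iy iu_injective iy_injective mem_onePart_of_comp)

open Pool.Agent.Y797.IV (Clears GenPos fx simplex_x_le simplex_val)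

variable {K : Type*} [Field K] {d m : ℕ} {q : ℕ} {P : LP K (q + 1)} {lam : K}
  {c : Fin (m + 1) → Fin (d + 1) → K}
  {a : Fin (m + 1) → K}

variable {L : Type*} [Field L] (f : FOpen P lam c a →+* L)

theorem gam_ne (hG : GenPos c a) {S : Fin (d + 2) → Fin (m + 1)} (hS : Function.Injective S)
    (i : Fin (d + 2)) : gam c S i ≠ 0 := by
  unfold gam
  exact mul_ne_zero (pow_ne_zero _ (by norm_num))
    (hG.1 _ (Pool.Agent.TH826.GA.injective_face hS i))

/-- The symbols are unramified at all discrete valuations. -/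
theorem symb_mem_unitPart {V : Submodule ℚ (Fin (q + 1) → ℚ)} (hP : Steinberg V P)
    (hint : Interior P) (hG : GenPos c a) (hc : ∀ e j, IsIntegral ℤ (c e j))
    (ha : ∀ e, IsIntegral ℤ (a e)) {D mu : K} (hD : Clears c a D) (hmu : IsIntegral ℤ mu)
    (hlam : lam = mu * D ^ (m + 1))
    (v : Valuation L ℤᵐ⁰) {S : Fin (d + 2) → Fin (m + 1)} (hS : Function.Injective S) :
    symb (fun l => Units.map (f : FOpen P lam c a →* L) (fent P lam c a S l)) ∈
      unitPart v (d + 1 + q + 1) := by
  obtain ⟨hD0, hDi, hDv⟩ := hD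
  have hci : ∀ x : K, IsIntegral ℤ x → v (cE f x) ≤ 1 := fun x hx =>
    Pool.Agent.TH826.MK.val_le_one_of_integral v (map_isIntegral_int _ hx)
  set z : Fin (d + 2) → Lˣ := fun k => Units.map (f : FOpen P lam c a →* L) (fg P lam c a S k)
    with hz
  set t : Fin (q + 1) → Lˣ := yE f with ht
  set b : Fin (d + 1 + q + 1) → Lˣ :=
    fun l => Units.map (f : FOpen P lam c a →* L) (fent P lam c a S l) with hb
  have hzv : ∀ k, (z k : L) = cE f (gam c S k) * fx (cE f) (xE f) c a (S k) :=
    fun k => map_fg f (gam_ne hG hS k)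
  have hbu : (fun k : Fin (d + 1) => b (iu d q k)) = fun k : Fin (d + 1) => z k.succ / z 0 := by
    funext k
    have h1 : fent P lam c a S (iu d q k) = fg P lam c a S k.succ / fg P lam c a S 0 := by
      unfold fent iu
      rw [Fin.cons_succ, Fin.append_left]
    show Units.map (f : FOpen P lam c a →* L) (fent P lam c a S (iu d q k)) = _
    rw [h1]
    exact map_div (Units.map (f : FOpen P lam c a →* L)) _ _
  have hby : (fun k : Fin (q + 1) => b (iy d q k)) = t := by
    funext k
    refine Fin.cases ?_ (fun i => ?_) k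
    · rfl
    · have h1 : fent P lam c a S (iy d q i.succ) = fy P lam c a i.succ := by
        unfold fent iy
        rw [Fin.cons_succ, Fin.cons_succ, Fin.append_right]
      show Units.map (f : FOpen P lam c a →* L) (fent P lam c a S (iy d q i.succ)) = _
      rw [h1]
      rfl
  have hsum : ∑ k, (z k : L) = - cE f (∑ i, gam c S i * a (S i)) := by
    simp only [hzv]
    exact Pool.Agent.Y797.IV.sum_gx (cE f) (xE f) S
  by_cases hB : ∃ k, v (cE f (∑ i, gam c S i * a (S i))) < v (z k : L)
  · obtain ⟨k, hk⟩ := hB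
    obtain ⟨l, -, hl⟩ := Finset.exists_max_image Finset.univ (fun k => v (z k : L))
      ⟨k, Finset.mem_univ k⟩
    have h3 : symb (fun l : Fin (d + 1) => z l.succ / z 0) ∈ onePart v (d + 1) := by
      refine mem_onePart_of_sum_lt v z l (fun k => hl k (Finset.mem_univ k)) ?_
      rw [hsum, Valuation.map_neg]
      exact hk.trans_le (hl k (Finset.mem_univ k))
    exact onePart_le v (mem_onePart_of_comp v b (iu_injective d q) (by rw [hbu]; exact h3))
  · push Not at hB
    have hB' : ∀ k, v (cE f (gam c S k) * fx (cE f) (xE f) c a (S k)) ≤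
        v (cE f (∑ i, gam c S i * a (S i))) := fun k => by
      rw [← hzv]
      exact hB k
    have hDL : v (cE f D) ≠ 0 := by
      rw [Valuation.ne_zero_iff]
      exact (map_ne_zero _).2 hD0
    have hDle : v (cE f D) ≤ 1 := hci _ hDi
    set B : ℤᵐ⁰ := (v (cE f D))⁻¹ with hBdef
    have hB1 : 1 ≤ B := (one_le_inv₀ (zero_lt_iff.2 hDL)).2 hDle
    have hDB : v (cE f D) * B = 1 := mul_inv_cancel₀ hDL
    have hvt : ∀ T' : Fin (d + 1) → Fin (m + 1), (cm c T').det ≠ 0 → ∀ j,
        v (cE f (vtx c a T' j)) ≤ B := by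
      intro T' hT' j
      have h1 := hci _ (hDv T' hT' j)
      rw [map_mul, map_mul, mul_comm] at h1
      exact (le_mul_inv_iff₀ (zero_lt_iff.2 hDL)).2 (by simpa using h1) |>.trans_eq (one_mul _)
    have hft : ∀ T' : Fin (d + 1) → Fin (m + 1), (cm c T').det ≠ 0 → ∀ e,
        v (cE f (∑ j, c e j * vtx c a T' j - a e)) ≤ B := by
      intro T' hT' e
      rw [map_sub, map_sum]
      refine (v.map_sub _ _).trans (max_le ?_ ((hci _ (ha e)).trans hB1))
      refine Valuation.map_sum_le v fun j _ => ?_
      rw [map_mul, map_mul]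
      exact (mul_le_mul' (hci _ (hc e j)) (hvt T' hT' j)).trans_eq (one_mul _)
    have hx : ∀ j, v (xE f j) ≤ B := fun j => simplex_x_le v hG.1 hG.2 hS hB' hvt j
    have hle : ∀ e, v (fx (cE f) (xE f) c a e) ≤ B := by
      intro e
      refine (v.map_sub _ _).trans (max_le ?_ ((hci _ (ha e)).trans hB1))
      refine Valuation.map_sum_le v fun j _ => ?_
      rw [map_mul]
      exact (mul_le_mul' (hci _ (hc e j)) (hx j)).trans_eq (one_mul _)
    have hle1 : ∀ e, v (cE f D) * v (fx (cE f) (xE f) c a e) ≤ 1 := fun e =>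
      (mul_le_mul' le_rfl (hle e)).trans_eq hDB
    have hPeq : v (cE f lam * ∏ e, fx (cE f) (xE f) c a e) =
        v (cE f mu) * ∏ e, (v (cE f D) * v (fx (cE f) (xE f) c a e)) := by
      have hl2 : cE f lam = cE f mu * cE f D ^ (m + 1) := by
        rw [← map_pow, ← map_mul]
        exact congrArg (cE f) hlam
      rw [hl2, map_mul, map_mul, map_pow, map_prod, Finset.prod_mul_distrib, Finset.prod_const,
        Finset.card_univ, Fintype.card_fin, mul_assoc]
    have hPhi : v (cE f lam * ∏ e, fx (cE f) (xE f) c a e) ≤ 1 := by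
      rw [hPeq]
      exact mul_le_one' (hci _ hmu) (Finset.prod_le_one' fun e _ => hle1 e)
    rw [f_eq] at hPhi
    rcases hP.adm (cE f) t hint v with h1 | h1 | ⟨hti, h1⟩
    · exact onePart_le v (mem_onePart_of_comp v b (iy_injective d q) (by rw [hby]; exact h1))
    · exact absurd h1 (not_lt.2 hPhi)
    · rw [ht, ← f_eq f, hPeq] at h1
      obtain ⟨-, hl1⟩ := Pool.Agent.TH333.CY.all_one hle1 (hci _ hmu) h1
      have hall : ∀ e, v (fx (cE f) (xE f) c a e) = B := by
        intro e
        have h1 : v (cE f D) * v (fx (cE f) (xE f) c a e) = 1 := hl1 e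
        rw [hBdef]
        exact eq_inv_of_mul_eq_one_right h1
      have h0 : v (cE f (∑ i, gam c S i * a (S i))) ≠ 0 := by
        rw [Valuation.ne_zero_iff]
        exact (map_ne_zero _).2 (Pool.Agent.TH826.GA.const_ne hG.1 hG.2 hS)
      refine Submodule.subset_span ⟨_, fun l => ?_, rfl⟩
      refine Fin.cases ?_ (fun l => ?_) l
      · have h1 : b 0 = t 0 := rfl
        rw [h1]
        exact hti 0
      · refine Fin.addCases (fun k => ?_) (fun i => ?_) l
        · have h1 : b (Fin.castAdd q k).succ = z k.succ / z 0 := congrFun hbu k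
          rw [h1, Units.val_div_eq_div_val, map_div₀, hzv, hzv,
            simplex_val v hG.1 hS hB' hft hall, simplex_val v hG.1 hS hB' hft hall, div_self h0]
        · have h1 : b (Fin.natAdd (d + 1) i).succ = t i.succ := congrFun hby i.succ
          rw [h1]
          exact hti i.succ

theorem symb_mem_unramified {V : Submodule ℚ (Fin (q + 1) → ℚ)} (hP : Steinberg V P)
    (hint : Interior P) (hG : GenPos c a) (hc : ∀ e j, IsIntegral ℤ (c e j))
    (ha : ∀ e, IsIntegral ℤ (a e)) {D mu : K} (hD : Clears c a D) (hmu : IsIntegral ℤ mu)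
    (hlam : lam = mu * D ^ (m + 1)) {S : Fin (d + 2) → Fin (m + 1)} (hS : Function.Injective S) :
    KQ.map (d + 1 + q + 1) f (symb (fent P lam c a S)) ∈ Unramified L (d + 1 + q + 1) := by
  rw [KQ.map_symb]
  unfold Unramified
  simp only [Submodule.mem_iInf]
  intro v _
  exact symb_mem_unitPart f hP hint hG hc ha hD hmu hlam v hS

end Pool.Agent.Helper39.SB
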