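import Pool.Agent.Helper39.SB.Sol
set_option autoImplicit false

/-!
Tori in the torus of the coordinates `y` on which a Laurent polynomial is close to a monomial.
-/

namespace Pool.Agent.Helper39.SB

open Filter Topology

open Pool.Agent.TH826.MK

open Pool.Agent.TH826.SX

section generic

variable {n : ℕ}

/-- A linear form separating the elements of a finite set. -/
theorem exists_generic (S : Finset (Fin n → ℤ)) :
    ∃ μ : Fin n → ℝ, ∀ w ∈ S, ∀ w' ∈ S, ∑ i, (w i : ℝ) * μ i = ∑ i, (w' i : ℝ) * μ i → w = w' := by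
  classical
  set p : (Fin n → ℤ) → (Fin n → ℤ) → Polynomial ℝ := fun w w' =>
    ∑ i : Fin n, Polynomial.C ((w i : ℝ) - w' i) * Polynomial.X ^ (i : ℕ) with hp
  have hpc : ∀ w w' (i : Fin n), (p w w').coeff i = (w i : ℝ) - w' i := by
    intro w w' i
    simp only [hp]
    rw [Polynomial.finsetSum_coeff, Finset.sum_eq_single i]
    · rw [Polynomial.coeff_C_mul_X_pow, if_pos rfl]
    · intro k _ hk
      rw [Polynomial.coeff_C_mul_X_pow, if_neg]
      intro h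
      exact hk (Fin.ext h.symm)
    · intro h
      exact absurd (Finset.mem_univ i) h
  have hp0 : ∀ w w', w ≠ w' → p w w' ≠ 0 := by
    intro w w' hne h0
    apply hne
    funext i
    have h1 := hpc w w' i
    rw [h0, Polynomial.coeff_zero] at h1
    have h2 : (w i : ℝ) = w' i := by linarith
    exact_mod_cast h2
  set Q : Polynomial ℝ := ∏ w ∈ S, ∏ w' ∈ S.erase w, p w w' with hQ
  have hQ0 : Q ≠ 0 := by
    refine Finset.prod_ne_zero_iff.2 fun w _ => Finset.prod_ne_zero_iff.2 fun w' hw' => ?_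
    exact hp0 w w' (Finset.ne_of_mem_erase hw').symm
  obtain ⟨B, hB⟩ : ∃ B : ℝ, Q.eval B ≠ 0 := by
    by_contra hcon
    push Not at hcon
    exact hQ0 (Polynomial.funext fun x => by rw [hcon x, Polynomial.eval_zero])
  refine ⟨fun i => B ^ (i : ℕ), fun w hw w' hw' h => ?_⟩
  by_contra hne
  apply hB
  rw [hQ, Polynomial.eval_prod]
  refine Finset.prod_eq_zero hw ?_
  rw [Polynomial.eval_prod]
  refine Finset.prod_eq_zero (Finset.mem_erase.2 ⟨fun e => hne e.symm, hw'⟩) ?_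
  simp only [hp]
  rw [Polynomial.eval_finsetSum]
  simp only [Polynomial.eval_mul, Polynomial.eval_C, Polynomial.eval_pow, Polynomial.eval_X,
    sub_mul]
  rw [Finset.sum_sub_distrib, h, sub_self]

end generic

section torus

variable {n N : ℕ} {r : Fin n → ℝ} (hr : ∀ i, 0 < r i) (ιy : Fin n → Fin N)

/-- the torus `|y_i| = r_i` -/
noncomputable def Yt (θ : Fin N → ℝ) (i : Fin n) : ℂˣ :=
  Units.mk0 (circ (r i) (θ (ιy i))) (circ_ne_zero (hr i) _)

theorem coe_Yt (θ : Fin N → ℝ) (i : Fin n) : (Yt hr ιy θ i : ℂ) = circ (r i) (θ (ιy i)) := rfl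

theorem good_Yt (i : Fin n) : Good fun θ => (Yt hr ιy θ i : ℂ) := good_circ (hr i) (ιy i)

theorem lw_Yt (i : Fin n) (j : Fin N) (θ : Fin N → ℝ) :
    lw (fun θ => (Yt hr ιy θ i : ℂ)) j θ = if j = ιy i then 2 * Real.pi * Complex.I else 0 :=
  lw_circ (hr i) (ιy i) j θ

theorem Yt_add_single (θ : Fin N → ℝ) (i : Fin N) :
    Yt hr ιy (θ + Pi.single i 1) = Yt hr ιy θ := by
  funext k
  ext
  rw [coe_Yt, coe_Yt]
  exact congrFun (tpt_add_single (fun _ => r k) θ i) (ιy k)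

/-- the winding numbers of the monomials -/
noncomputable def nw (w : Fin n → ℤ) (j : Fin N) : ℝ := ∑ i, (w i : ℝ) * if j = ιy i then 1 else 0

theorem lw_mn_Yt (w : Fin n → ℤ) (j : Fin N) (θ : Fin N → ℝ) :
    lw (fun θ => ((mn (Yt hr ιy θ) w : ℂˣ) : ℂ)) j θ = 2 * Real.pi * Complex.I * nw ιy w j := by
  rw [lw_mn (good_Yt hr ιy)]
  simp only [lw_Yt]
  unfold nw
  push_cast
  rw [Finset.mul_sum]
  refine Finset.sum_congr rfl fun i _ => ?_
  split_ifs
  · rw [Complex.ofReal_one]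
    ring
  · rw [Complex.ofReal_zero]
    ring

/-- the sum of the absolute values of the exponents -/
def ab (w : Fin n → ℤ) : ℝ := ∑ i, |(w i : ℝ)|

theorem abs_nw_le (w : Fin n → ℤ) (j : Fin N) : |nw ιy w j| ≤ ab w := by
  unfold nw ab
  refine (Finset.abs_sum_le_sum_abs _ _).trans (Finset.sum_le_sum fun i _ => ?_)
  rw [abs_mul]
  split_ifs <;> simp

theorem ab_nonneg (w : Fin n → ℤ) : 0 ≤ ab w := Finset.sum_nonneg fun i _ => abs_nonneg _

theorem norm_mn_Yt {R : ℝ} (hR : 0 < R) {μ : Fin n → ℝ} (hrR : ∀ i, r i = R ^ μ i)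
    (w : Fin n → ℤ) (θ : Fin N → ℝ) :
    ‖((mn (Yt hr ιy θ) w : ℂˣ) : ℂ)‖ = R ^ ∑ i, (w i : ℝ) * μ i := by
  rw [coe_mn, norm_prod]
  have h1 : ∀ i, ‖(Yt hr ιy θ i : ℂ) ^ w i‖ = R ^ ((w i : ℝ) * μ i) := by
    intro i
    rw [norm_zpow, coe_Yt, norm_circ (hr i).le, hrR, ← Real.rpow_intCast, ← Real.rpow_mul hR.le,
      mul_comm]
  simp only [h1]
  rw [← Real.rpow_sum_of_pos hR]

end torus

section ev

variable {R B : Type*} [CommRing R] [CommRing B] {n : ℕ}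

theorem ev_eq_sum (φ : R →+* B) (y : Fin n → Bˣ) (p : AddMonoidAlgebra R (Fin n → ℤ)) :
    ev φ y p = ∑ w ∈ p.coeff.support, φ (p.coeff w) * (mn y w : Bˣ) := by
  have h1 : p = ∑ w ∈ p.coeff.support, AddMonoidAlgebra.single w (p.coeff w) := by
    apply AddMonoidAlgebra.coeff_injective
    have h2 : (∑ w ∈ p.coeff.support, AddMonoidAlgebra.single w (p.coeff w)).coeff =
        ∑ w ∈ p.coeff.support, Finsupp.single w (p.coeff w) :=
      map_sum (AddMonoidAlgebra.coeffAddEquiv (R := R) (M := Fin n → ℤ)) _ _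
    rw [h2]
    exact (Finsupp.sum_single p.coeff).symm
  conv_lhs => rw [h1]
  rw [map_sum]
  exact Finset.sum_congr rfl fun w _ => ev_single _ _ _ _

end ev

section radii

variable {K : Type*} [Field K] {n : ℕ} (σ : K →+* ℂ)

/-- There are an exponent `w₀` and radii such that `P` is close to the monomial with the exponent
`w₀` on the torus with these radii. -/
theorem exists_radii (P : LP K n) (hP : P ≠ 0) : ∃ w₀ : Fin n → ℤ, ∀ δ : ℝ, 0 < δ →
    ∃ (r : Fin n → ℝ) (hr : ∀ i, 0 < r i) (b : ℝ), 0 < b ∧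
      ∀ (N : ℕ) (ιy : Fin n → Fin N), Good (fun θ => ev σ (Yt hr ιy θ) P) ∧
        (∀ θ, b ≤ ‖ev σ (Yt hr ιy θ) P‖ ∧ ‖ev σ (Yt hr ιy θ) P‖ ≤ 3 * b) ∧
        ∀ j θ, ‖lw (fun θ => ev σ (Yt hr ιy θ) P) j θ -
          2 * Real.pi * Complex.I * nw ιy w₀ j‖ ≤ δ := by
  classical
  set S := P.coeff.support with hS
  obtain ⟨μ, hμ⟩ := exists_generic S
  have hSne : S.Nonempty := by
    rw [hS, Finsupp.support_nonempty_iff]
    intro h
    exact hP (AddMonoidAlgebra.coeff_injective (by rw [h]; rfl))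
  set ℓ : (Fin n → ℤ) → ℝ := fun w => ∑ i, (w i : ℝ) * μ i with hℓ
  obtain ⟨w₀, hw₀, hmax⟩ := Finset.exists_max_image S ℓ hSne
  have hgap : ∀ w ∈ S.erase w₀, 0 < ℓ w₀ - ℓ w := by
    intro w hw
    obtain ⟨hne, hwS⟩ := Finset.mem_erase.1 hw
    have h1 := hmax w hwS
    have h2 : ℓ w ≠ ℓ w₀ := fun h => hne (hμ w hwS w₀ hw₀ h)
    have h3 := lt_of_le_of_ne h1 h2
    linarith
  have hp0 : ∀ w ∈ S, σ (P.coeff w) ≠ 0 := fun w hw =>
    (map_ne_zero σ).2 (Finsupp.mem_support_iff.1 hw)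
  refine ⟨w₀, fun δ hδ => ?_⟩
  set A : ℝ := 2 * ∑ w ∈ S, ab w with hA
  have hA0 : 0 ≤ A := by
    have : 0 ≤ ∑ w ∈ S, ab w := Finset.sum_nonneg fun w _ => ab_nonneg w
    positivity
  have hAw : ∀ w ∈ S, ab w ≤ A / 2 := by
    intro w hw
    have h1 := Finset.single_le_sum (f := fun w => ab w) (fun w _ => ab_nonneg w) hw
    have h2 : ab w ≤ ∑ w ∈ S, ab w := h1
    rw [hA]
    linarith
  set κ : ℝ → ℝ := fun R => ∑ w ∈ S.erase w₀,
    ‖σ (P.coeff w)‖ / ‖σ (P.coeff w₀)‖ * R ^ (-(ℓ w₀ - ℓ w)) with hκ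
  have hlim : Tendsto κ atTop (𝓝 0) := by
    have h1 : Tendsto κ atTop (𝓝 (∑ w ∈ S.erase w₀,
        ‖σ (P.coeff w)‖ / ‖σ (P.coeff w₀)‖ * 0)) :=
      tendsto_finsetSum _ fun w hw => (tendsto_rpow_neg_atTop (hgap w hw)).const_mul _
    simpa using h1
  have hpi := Real.pi_pos
  set ε : ℝ := min (1 / 2) (δ / (4 * Real.pi * A + 1)) with hε
  have hεpos : 0 < ε := lt_min (by norm_num) (by positivity)
  obtain ⟨R, hRκ, hR⟩ := ((hlim.eventually (gt_mem_nhds hεpos)).and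
    (eventually_gt_atTop (0 : ℝ))).exists
  have hκhalf : κ R ≤ 1 / 2 := hRκ.le.trans (min_le_left _ _)
  have hκδ : 4 * Real.pi * A * κ R ≤ δ := by
    have h1 : κ R ≤ δ / (4 * Real.pi * A + 1) := hRκ.le.trans (min_le_right _ _)
    have h2 : 0 ≤ 4 * Real.pi * A := by positivity
    calc 4 * Real.pi * A * κ R ≤ 4 * Real.pi * A * (δ / (4 * Real.pi * A + 1)) :=
          mul_le_mul_of_nonneg_left h1 h2
      _ = 4 * Real.pi * A / (4 * Real.pi * A + 1) * δ := by ring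
      _ ≤ 1 * δ := by
          refine mul_le_mul_of_nonneg_right ?_ hδ.le
          rw [div_le_one (by positivity)]
          linarith
      _ = δ := one_mul _
  have hr : ∀ i, 0 < R ^ μ i := fun i => Real.rpow_pos_of_pos hR _
  set M : ℝ := ‖σ (P.coeff w₀)‖ * R ^ ℓ w₀ with hM
  have hMpos : 0 < M := mul_pos (norm_pos_iff.2 (hp0 w₀ hw₀)) (Real.rpow_pos_of_pos hR _)
  refine ⟨fun i => R ^ μ i, hr, M / 2, by linarith, fun N ιy => ?_⟩
  set Y : (Fin N → ℝ) → Fin n → ℂˣ := Yt hr ιy with hY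
  have hnorm : ∀ w θ, ‖((mn (Y θ) w : ℂˣ) : ℂ)‖ = R ^ ℓ w := fun w θ =>
    norm_mn_Yt hr ιy hR (fun i => rfl) w θ
  set t : (Fin n → ℤ) → (Fin N → ℝ) → ℂ := fun w θ => σ (P.coeff w) * (mn (Y θ) w : ℂˣ) with ht
  have hev : ∀ θ, ev σ (Y θ) P = ∑ w ∈ S, t w θ := fun θ => ev_eq_sum σ (Y θ) P
  have htn : ∀ w θ, ‖t w θ‖ = ‖σ (P.coeff w)‖ * R ^ ℓ w := by
    intro w θ
    simp only [ht]
    rw [norm_mul, hnorm]
  have hrest : ∀ θ, ∑ w ∈ S.erase w₀, ‖t w θ‖ = M * κ R := by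
    intro θ
    simp only [htn, hκ]
    rw [Finset.mul_sum]
    refine Finset.sum_congr rfl fun w _ => ?_
    have h1 : ‖σ (P.coeff w₀)‖ ≠ 0 := norm_ne_zero_iff.2 (hp0 w₀ hw₀)
    have h2 : R ^ ℓ w = R ^ ℓ w₀ * R ^ (-(ℓ w₀ - ℓ w)) := by
      rw [← Real.rpow_add hR]
      congr 1
      ring
    rw [h2, hM]
    field_simp
  have hdecomp : ∀ θ, ev σ (Y θ) P = t w₀ θ + ∑ w ∈ S.erase w₀, t w θ := by
    intro θ
    rw [hev, Finset.add_sum_erase S (fun w => t w θ) hw₀]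
  have hMw : ∀ θ, ‖t w₀ θ‖ = M := fun θ => htn w₀ θ
  have hsmall : ∀ θ, ‖∑ w ∈ S.erase w₀, t w θ‖ ≤ M / 2 := by
    intro θ
    refine (norm_sum_le _ _).trans ?_
    rw [hrest]
    calc M * κ R ≤ M * (1 / 2) := mul_le_mul_of_nonneg_left hκhalf hMpos.le
      _ = M / 2 := by ring
  have hlow : ∀ θ, M / 2 ≤ ‖ev σ (Y θ) P‖ := by
    intro θ
    have h1 := norm_sub_norm_le (t w₀ θ) (-∑ w ∈ S.erase w₀, t w θ)
    rw [sub_neg_eq_add, ← hdecomp, norm_neg, hMw] at h1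
    have h2 := hsmall θ
    linarith
  have hup : ∀ θ, ‖ev σ (Y θ) P‖ ≤ 3 * (M / 2) := by
    intro θ
    rw [hdecomp]
    refine (norm_add_le _ _).trans ?_
    rw [hMw]
    have h2 := hsmall θ
    linarith
  have hgood : Good fun θ => ev σ (Y θ) P :=
    ⟨contDiff_ev σ (good_Yt hr ιy) P, fun θ h0 => by
      have h1 := hlow θ
      rw [h0, norm_zero] at h1
      linarith⟩
  refine ⟨hgood, fun θ => ⟨hlow θ, hup θ⟩, fun j θ => ?_⟩
  -- the logarithmic derivative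
  have htd : ∀ w, HasFDerivAt (t w) (fderiv ℝ (t w) θ) θ := fun w =>
    (((contDiff_const.mul (good_mn (good_Yt hr ιy) w).smooth :
      ContDiff ℝ 2 (t w)).differentiable (by norm_num)) θ).hasFDerivAt
  have hfd : fderiv ℝ (fun θ => ev σ (Y θ) P) θ = ∑ w ∈ S, fderiv ℝ (t w) θ := by
    have h1 : (fun θ => ev σ (Y θ) P) = fun θ => ∑ w ∈ S, t w θ := funext hev
    rw [h1]
    exact (HasFDerivAt.fun_sum (u := S) fun w _ => htd w).fderiv
  have htw : ∀ w ∈ S, fderiv ℝ (t w) θ (Pi.single j 1) =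
      t w θ * (2 * Real.pi * Complex.I * nw ιy w j) := by
    intro w hw
    have hg1 : Good (t w) := (good_const (hp0 w hw)).mul (good_mn (good_Yt hr ιy) w)
    have h1 : lw (t w) j θ = 2 * Real.pi * Complex.I * nw ιy w j := by
      have h2 := lw_mul (good_const (d := N) (hp0 w hw)) (good_mn (good_Yt hr ιy) w) j θ
      rw [lw_const, zero_add, lw_mn_Yt hr ιy] at h2
      exact h2
    rw [← h1]
    unfold lw
    rw [mul_div_cancel₀ _ (hg1.ne_zero θ)]
  have hg0 := hgood.ne_zero θ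
  have hlw : lw (fun θ => ev σ (Y θ) P) j θ - 2 * Real.pi * Complex.I * nw ιy w₀ j =
      (∑ w ∈ S.erase w₀, t w θ *
        (2 * Real.pi * Complex.I * (nw ιy w j - nw ιy w₀ j : ℝ))) / ev σ (Y θ) P := by
    unfold lw
    rw [hfd, eq_div_iff hg0, sub_mul, div_mul_cancel₀ _ hg0, sum_apply,
      Finset.sum_congr rfl htw]
    have h1 : (2 * Real.pi * Complex.I * nw ιy w₀ j : ℂ) * ev σ (Y θ) P =
        ∑ w ∈ S, t w θ * (2 * Real.pi * Complex.I * nw ιy w₀ j) := by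
      rw [hev, Finset.mul_sum]
      exact Finset.sum_congr rfl fun w _ => mul_comm _ _
    rw [h1, ← Finset.sum_sub_distrib, ← Finset.add_sum_erase S _ hw₀, sub_self, zero_add]
    refine Finset.sum_congr rfl fun w _ => ?_
    push_cast
    ring
  rw [hlw, norm_div, div_le_iff₀ (norm_pos_iff.2 hg0)]
  have hb : ∀ w ∈ S.erase w₀, ‖t w θ * (2 * Real.pi * Complex.I *
      ((nw ιy w j - nw ιy w₀ j : ℝ) : ℂ))‖ ≤ ‖t w θ‖ * (2 * Real.pi * A) := by
    intro w hw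
    rw [norm_mul (t w θ), norm_mul (2 * Real.pi * Complex.I : ℂ), norm_two_pi_I,
      Complex.norm_real, Real.norm_eq_abs]
    refine mul_le_mul_of_nonneg_left (mul_le_mul_of_nonneg_left ?_ (by positivity))
      (norm_nonneg _)
    refine (abs_sub _ _).trans ?_
    have h1 := (abs_nw_le ιy w j).trans (hAw w (Finset.mem_of_mem_erase hw))
    have h2 := (abs_nw_le ιy w₀ j).trans (hAw w₀ hw₀)
    linarith
  refine (norm_sum_le _ _).trans ((Finset.sum_le_sum hb).trans ?_)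
  rw [← Finset.sum_mul, hrest]
  have h3 := hlow θ
  calc M * κ R * (2 * Real.pi * A) = (4 * Real.pi * A * κ R) * (M / 2) := by ring
    _ ≤ δ * (M / 2) := mul_le_mul_of_nonneg_right hκδ (by linarith)
    _ ≤ δ * ‖ev σ (Y θ) P‖ := mul_le_mul_of_nonneg_left h3 hδ.le

end radii

end Pool.Agent.Helper39.SB
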